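import Pool.Agent.Lib_MP_05ae4a_co.Defs

/-! # Piece DECADM: a decision gives an admissible family

For a class `c = (σ, z, B)` at stage `l` let `y` be its height at time `l+1` (`y = z + 1` if `l ∈ B`, `y = z - 1` otherwise),
`P⁺(c) = (σ, y+1, B.erase l)`, `P⁻(c) = (σ, y-1, insert l B)`; `c` is one of them, and `P⁻(c) ≤ P⁺(c)`.
Use `ht_self, ht_down, ht_up` (heights at time `l` and at the times `≥ l+1`).

Carrier: clear (parity `y+1 ≡ y-1`).

Up-set: let `c` be in `dec`, `c ≤ c'`, `c'` in the carrier, `y, y'` the heights at `l+1` (`y ≤ y'`), `z, z'` the heights at `l` (`z ≤ z'`,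
all differences even: `Car`).
 (i) `c ∈ G` not removed.  `c' ∈ G`.  Suppose `c'` is removed: `l ∉ B'`, `O σ' y'`, `P⁻(c') ∉ G`, `z' = y' + 1`.  If `z ≤ z' - 2` then `c ≤ P⁻(c')`,
   contradiction.  Else `z = z' = y'+1`, and `y ≤ y' < z` so `y = z - 1 = y'`, `l ∉ B`, `O σ y` by `hO`; `c` is not removed so `P⁻(c) ∈ G`, and
   `P⁻(c) ≤ P⁻(c')`: contradiction.
 (ii) `c` is new: `l ∈ B`, `z = y - 1`, `I σ y`, `P⁺(c) ∈ G`.  If `z' ≥ y + 1`: `P⁺(c) ≤ c'`, so `c' ∈ G`; if it were removed, then `l ∉ B'`, `z' = y'+1`,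
   `O σ' y'`, `P⁻(c') ∉ G`; if `y' ≥ y+2` then `P⁺(c) ≤ P⁻(c')`, contradiction; if `y' = y` then `I σ' y` (`hI`) contradicts `hIO`.
   If `z' = y - 1`: then `y' = y`, `l ∈ B'`, `I σ' y`, and `P⁺(c) ≤ P⁺(c')`, so `c'` is new (or in `G`).

No conflict: let `A, B ∈ dec` conflict; `y_A + y_B ≤ 0` (even).  Both in `G`: contradiction.  `A` new, `B ∈ G` (not removed): if `y_A + y_B ≤ -2`
then `P⁺(A)` and `B` conflict.  If `y_A + y_B = 0`: if `l ∈ B_B` (so `B` has height `y_B - 1` at `l`) then `P⁺(A), B` conflict; else `B = P⁺(B)`, and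
`I σ_A y_A` gives `O σ_B y_B` (`hc` with `σ = σ_B`, `τ = σ_A`, `y = y_B`), so `P⁻(B) ∈ G` (not removed) and `P⁺(A), P⁻(B)` conflict.
Both new: `y_A + y_B ≤ -2`: `P⁺(A), P⁺(B)` conflict; `y_A + y_B = 0`: `I σ_B y_B`, so `O σ_A y_A` by `hc`, against `hIO`. -/

namespace Pool.Agent.ProfSR
open Finset

/-- height at time `l + 1` -/
def decadm_Y (l : ℕ) (c : Cls) : ℤ := if l ∈ c.2.2 then c.2.1 + 1 else c.2.1 - 1

/-- height at the times after `l` -/
def decadm_K (l : ℕ) (c : Cls) (i : ℕ) : ℤ := ht (l + 1) (decadm_Y l c) c.2.2 i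

/-- the upper class of the pair -/
def decadm_P (l : ℕ) (c : Cls) : Cls := (c.1, decadm_Y l c + 1, c.2.2.erase l)

/-- the lower class of the pair -/
def decadm_M (l : ℕ) (c : Cls) : Cls := (c.1, decadm_Y l c - 1, insert l c.2.2)

theorem decadm_ht_erase (l : ℕ) (y : ℤ) (B : Finset ℕ) (i : ℕ) :
    ht (l + 1) y (B.erase l) i = ht (l + 1) y B i := by
  have h1 : B.erase l ∩ Ico (l + 1) i = B ∩ Ico (l + 1) i := by
    ext j
    simp only [mem_inter, mem_Ico, mem_erase]
    constructor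
    · rintro ⟨⟨_, h1⟩, h2⟩
      exact ⟨h1, h2⟩
    · rintro ⟨h1, h2, h3⟩
      exact ⟨⟨by omega, h1⟩, h2, h3⟩
  rw [ht, ht, h1]

theorem decadm_ht_insert (l : ℕ) (y : ℤ) (B : Finset ℕ) (i : ℕ) :
    ht (l + 1) y (insert l B) i = ht (l + 1) y B i := by
  have h1 : insert l B ∩ Ico (l + 1) i = B ∩ Ico (l + 1) i := by
    ext j
    simp only [mem_inter, mem_Ico, mem_insert]
    constructor
    · rintro ⟨h1 | h1, h2, h3⟩
      · omega
      · exact ⟨h1, h2, h3⟩
    · rintro ⟨h1, h2, h3⟩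
      exact ⟨Or.inr h1, h2, h3⟩
  rw [ht, ht, h1]

theorem decadm_ht {l i : ℕ} (hi : l + 1 ≤ i) (c : Cls) :
    ht l c.2.1 c.2.2 i = decadm_K l c i := by
  obtain ⟨σ, z, B⟩ := c
  unfold decadm_K decadm_Y
  by_cases h : l ∈ B
  · simp only [h, if_true]
    have h1 := ht_up (y := z + 1) hi (notMem_erase l B)
    rw [insert_erase h, decadm_ht_erase, add_sub_cancel_right] at h1
    exact h1
  · simp only [h, if_false]
    have h1 := ht_down (y := z - 1) hi h
    rw [sub_add_cancel] at h1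
    exact h1

theorem decadm_le {n l : ℕ} (hl : l < n) (c d : Cls) :
    Le n l c d ↔ c.1 ⊆ d.1 ∧ c.2.1 ≤ d.2.1 ∧
      ∀ i, l + 1 ≤ i → i ≤ n → decadm_K l c i ≤ decadm_K l d i := by
  unfold Le
  constructor
  · rintro ⟨h1, h2⟩
    refine ⟨h1, ?_, ?_⟩
    · have := h2 l le_rfl hl.le
      rwa [ht_self, ht_self] at this
    · intro i hi hi'
      rw [← decadm_ht hi, ← decadm_ht hi]
      exact h2 i (by omega) hi'
  · rintro ⟨h1, h2, h3⟩
    refine ⟨h1, ?_⟩
    intro i hi hi'
    rcases Nat.eq_or_lt_of_le hi with h | h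
    · rw [← h, ht_self, ht_self]
      exact h2
    · rw [decadm_ht h, decadm_ht h]
      exact h3 i h hi'

theorem decadm_conf {n l : ℕ} (hl : l < n) (c d : Cls) :
    Conf n l c d ↔ Disjoint c.1 d.1 ∧ c.2.1 + d.2.1 ≤ 0 ∧
      ∀ i, l + 1 ≤ i → i ≤ n → decadm_K l c i + decadm_K l d i ≤ 0 := by
  unfold Conf
  constructor
  · rintro ⟨h1, h2⟩
    refine ⟨h1, ?_, ?_⟩
    · have := h2 l le_rfl hl.le
      rwa [ht_self, ht_self] at this
    · intro i hi hi'
      rw [← decadm_ht hi, ← decadm_ht hi]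
      exact h2 i (by omega) hi'
  · rintro ⟨h1, h2, h3⟩
    refine ⟨h1, ?_⟩
    intro i hi hi'
    rcases Nat.eq_or_lt_of_le hi with h | h
    · rw [← h, ht_self, ht_self]
      exact h2
    · rw [decadm_ht h, decadm_ht h]
      exact h3 i h hi'

theorem decadm_YP (l : ℕ) (c : Cls) : decadm_Y l (decadm_P l c) = decadm_Y l c := by
  have h : l ∉ (decadm_P l c).2.2 := notMem_erase l c.2.2
  rw [decadm_Y, if_neg h]
  show decadm_Y l c + 1 - 1 = _
  ring

theorem decadm_YM (l : ℕ) (c : Cls) : decadm_Y l (decadm_M l c) = decadm_Y l c := by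
  have h : l ∈ (decadm_M l c).2.2 := mem_insert_self l c.2.2
  rw [decadm_Y, if_pos h]
  show decadm_Y l c - 1 + 1 = _
  ring

theorem decadm_KP (l : ℕ) (c : Cls) (i : ℕ) : decadm_K l (decadm_P l c) i = decadm_K l c i := by
  rw [decadm_K, decadm_YP, decadm_K]
  exact decadm_ht_erase _ _ _ _

theorem decadm_KM (l : ℕ) (c : Cls) (i : ℕ) : decadm_K l (decadm_M l c) i = decadm_K l c i := by
  rw [decadm_K, decadm_YM, decadm_K]
  exact decadm_ht_insert _ _ _ _

theorem decadm_Kl (l : ℕ) (c : Cls) : decadm_K l c (l + 1) = decadm_Y l c := ht_self _ _ _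

theorem decadm_carP {n a l : ℕ} {c : Cls} (h : Car n a l c) : Car n a l (decadm_P l c) := by
  obtain ⟨h1, h2, h3⟩ := h
  refine ⟨h1, ?_, (erase_subset _ _).trans h3⟩
  show Even (decadm_Y l c + 1 + a + l)
  rw [decadm_Y]
  obtain ⟨k, hk⟩ := h2
  split_ifs
  · exact ⟨k + 1, by linarith⟩
  · exact ⟨k, by linarith⟩

theorem decadm_carM {n a l : ℕ} (hl : l < n) {c : Cls} (h : Car n a l c) :
    Car n a l (decadm_M l c) := by
  obtain ⟨h1, h2, h3⟩ := h
  refine ⟨h1, ?_, insert_subset (by rw [mem_Ico]; omega) h3⟩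
  show Even (decadm_Y l c - 1 + a + l)
  rw [decadm_Y]
  obtain ⟨k, hk⟩ := h2
  split_ifs
  · exact ⟨k, by linarith⟩
  · exact ⟨k - 1, by linarith⟩

theorem decadm_dec (l : ℕ) (G : Set Cls) (I O : Finset ℕ → ℤ → Prop) (c : Cls) :
    c ∈ dec l G I O ↔ ((c ∈ G ∧ ¬ (l ∉ c.2.2 ∧ O c.1 (decadm_Y l c) ∧ decadm_M l c ∉ G)) ∨
      (l ∈ c.2.2 ∧ I c.1 (decadm_Y l c) ∧ decadm_P l c ∈ G)) := by
  obtain ⟨σ, z, B⟩ := c
  unfold dec decadm_M decadm_P decadm_Y
  rw [Set.mem_ofPred_eq]
  by_cases h : l ∈ B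
  · have e : z + 1 + 1 = z + 2 := by ring
    simp only [h, if_true, not_true_eq_false, false_and, not_false_eq_true, and_true, true_and, e]
  · have e : z - 1 - 1 = z - 2 := by ring
    simp only [h, if_false, not_false_eq_true, true_and, false_and, or_false, e]

theorem dec_adm {n a l : ℕ} (hl : l < n) {G : Set Cls} (hG : Adm n a l G) {I O : Finset ℕ → ℤ → Prop}
    (hIO : ∀ σ y, I σ y → ¬ O σ y)
    (hI : ∀ σ τ y, σ ⊆ τ → τ ⊆ range (R a l) → I σ y → I τ y)
    (hO : ∀ σ τ y, σ ⊆ τ → τ ⊆ range (R a l) → O τ y → O σ y)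
    (hc : ∀ σ τ y, σ ⊆ range (R a l) → τ ⊆ range (R a l) → Disjoint σ τ → I τ (-y) → O σ y) :
    Adm n a l (dec l G I O) := by
  have hc' := hc
  have hYz : ∀ c : Cls, l ∈ c.2.2 → decadm_Y l c = c.2.1 + 1 := fun c h => by
    rw [decadm_Y, if_pos h]
  have hYz' : ∀ c : Cls, l ∉ c.2.2 → decadm_Y l c = c.2.1 - 1 := fun c h => by
    rw [decadm_Y, if_neg h]
  have hcar : ∀ c ∈ dec l G I O, Car n a l c := by
    intro c hc
    rw [decadm_dec] at hc
    rcases hc with ⟨h1, _⟩ | ⟨h1, _, h2⟩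
    · exact hG.car c h1
    · obtain ⟨h3, h4, h5⟩ := hG.car _ h2
      refine ⟨h3, ?_, ?_⟩
      · have h6 : Even (decadm_Y l c + 1 + a + l) := h4
        rw [hYz c h1] at h6
        obtain ⟨k, hk⟩ := h6
        exact ⟨k - 1, by linarith⟩
      · have h6 : c.2.2.erase l ⊆ Ico l n := h5
        intro j hj
        by_cases hjl : j = l
        · rw [hjl, mem_Ico]; omega
        · exact h6 (mem_erase.2 ⟨hjl, hj⟩)
  refine ⟨hcar, ?_, ?_⟩
  · intro c hc d hd hle
    have hcc := hcar c hc
    rw [decadm_le hl] at hle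
    obtain ⟨hσ, hz, hK⟩ := hle
    have hy := hK (l + 1) le_rfl hl
    rw [decadm_Kl, decadm_Kl] at hy
    obtain ⟨hc1, ⟨kc, hkc⟩, hc3⟩ := id hcc
    obtain ⟨hd1, ⟨kd, hkd⟩, hd3⟩ := id hd
    rw [decadm_dec] at hc ⊢
    rcases hc with ⟨h1, h2⟩ | ⟨h1, h2, h3⟩
    · -- `c` in `G`, not removed
      left
      refine ⟨hG.up c h1 d hd ((decadm_le hl c d).2 ⟨hσ, hz, hK⟩), ?_⟩
      rintro ⟨hlB, hOd, hMd⟩
      have hzd := hYz' d hlB
      by_cases hzz : c.2.1 ≤ d.2.1 - 2
      · apply hMd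
        refine hG.up c h1 _ (decadm_carM hl hd) ((decadm_le hl c _).2 ⟨hσ, ?_, ?_⟩)
        · show c.2.1 ≤ decadm_Y l d - 1
          omega
        · intro i hi hi'
          rw [decadm_KM]
          exact hK i hi hi'
      · have hzeq : c.2.1 = d.2.1 := by omega
        have hlc : l ∉ c.2.2 := by
          intro h
          have := hYz c h
          omega
        have hyc := hYz' c hlc
        have hyeq : decadm_Y l c = decadm_Y l d := by omega
        have hOc : O c.1 (decadm_Y l c) := by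
          rw [hyeq]
          exact hO _ _ _ hσ hd1 hOd
        have hMc : decadm_M l c ∈ G := by
          by_contra h
          exact h2 ⟨hlc, hOc, h⟩
        apply hMd
        refine hG.up _ hMc _ (decadm_carM hl hd) ((decadm_le hl _ _).2 ⟨hσ, ?_, ?_⟩)
        · show decadm_Y l c - 1 ≤ decadm_Y l d - 1
          omega
        · intro i hi hi'
          rw [decadm_KM, decadm_KM]
          exact hK i hi hi'
    · -- `c` is new
      have hyc := hYz c h1
      by_cases hzz : decadm_Y l c + 1 ≤ d.2.1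
      · left
        refine ⟨hG.up _ h3 d hd ((decadm_le hl _ _).2 ⟨hσ, hzz, ?_⟩), ?_⟩
        · intro i hi hi'
          rw [decadm_KP]
          exact hK i hi hi'
        · rintro ⟨hlB, hOd, hMd⟩
          have hzd := hYz' d hlB
          by_cases hyy : decadm_Y l c + 2 ≤ decadm_Y l d
          · apply hMd
            refine hG.up _ h3 _ (decadm_carM hl hd) ((decadm_le hl _ _).2 ⟨hσ, ?_, ?_⟩)
            · show decadm_Y l c + 1 ≤ decadm_Y l d - 1
              omega
            · intro i hi hi'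
              rw [decadm_KM, decadm_KP]
              exact hK i hi hi'
          · have hyeq : decadm_Y l c = decadm_Y l d := by omega
            have hId := hI _ _ _ hσ hd1 h2
            rw [hyeq] at hId
            exact hIO _ _ hId hOd
      · right
        have hzd : d.2.1 = decadm_Y l c - 1 := by omega
        have hld : l ∈ d.2.2 := by
          by_contra h
          have := hYz' d h
          omega
        have hyd := hYz d hld
        have hyeq : decadm_Y l c = decadm_Y l d := by omega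
        refine ⟨hld, ?_, ?_⟩
        · rw [← hyeq]
          exact hI _ _ _ hσ hd1 h2
        · refine hG.up _ h3 _ (decadm_carP hd) ((decadm_le hl _ _).2 ⟨hσ, ?_, ?_⟩)
          · show decadm_Y l c + 1 ≤ decadm_Y l d + 1
            omega
          · intro i hi hi'
            rw [decadm_KP, decadm_KP]
            exact hK i hi hi'
  · -- no conflict
    have main : ∀ c d : Cls, c ∈ dec l G I O → d ∈ dec l G I O → Conf n l c d →
        (l ∈ c.2.2 ∧ I c.1 (decadm_Y l c) ∧ decadm_P l c ∈ G) → False := by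
      intro c d hcm hd hcd hnew
      have hcc := hcar c hcm
      have hdc := hcar d hd
      rw [decadm_conf hl] at hcd
      obtain ⟨hdis, hz, hK⟩ := hcd
      have hy := hK (l + 1) le_rfl hl
      rw [decadm_Kl, decadm_Kl] at hy
      obtain ⟨hc1, ⟨kc, hkc⟩, hc3⟩ := id hcc
      obtain ⟨hd1, ⟨kd, hkd⟩, hd3⟩ := id hdc
      obtain ⟨n1, n2, n3⟩ := hnew
      have hyc := hYz c n1
      rw [decadm_dec] at hd
      rcases hd with ⟨h1, h2⟩ | ⟨h1, h2, h3⟩
      · by_cases hld : l ∈ d.2.2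
        · have hyd := hYz d hld
          refine hG.nc _ n3 d h1 ((decadm_conf hl _ _).2 ⟨hdis, ?_, ?_⟩)
          · show decadm_Y l c + 1 + d.2.1 ≤ 0
            omega
          · intro i hi hi'
            rw [decadm_KP]
            exact hK i hi hi'
        · have hyd := hYz' d hld
          by_cases hyy : decadm_Y l c + decadm_Y l d ≤ -2
          · refine hG.nc _ n3 d h1 ((decadm_conf hl _ _).2 ⟨hdis, ?_, ?_⟩)
            · show decadm_Y l c + 1 + d.2.1 ≤ 0
              omega
            · intro i hi hi'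
              rw [decadm_KP]
              exact hK i hi hi'
          · have hyeq : decadm_Y l c = - decadm_Y l d := by omega
            have hOd : O d.1 (decadm_Y l d) := by
              apply hc d.1 c.1 (decadm_Y l d) hd1 hc1 hdis.symm
              rw [← hyeq]
              exact n2
            have hMd : decadm_M l d ∈ G := by
              by_contra h
              exact h2 ⟨hld, hOd, h⟩
            refine hG.nc _ n3 _ hMd ((decadm_conf hl _ _).2 ⟨hdis, ?_, ?_⟩)
            · show decadm_Y l c + 1 + (decadm_Y l d - 1) ≤ 0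
              omega
            · intro i hi hi'
              rw [decadm_KP, decadm_KM]
              exact hK i hi hi'
      · have hyd := hYz d h1
        by_cases hyy : decadm_Y l c + decadm_Y l d ≤ -2
        · refine hG.nc _ n3 _ h3 ((decadm_conf hl _ _).2 ⟨hdis, ?_, ?_⟩)
          · show decadm_Y l c + 1 + (decadm_Y l d + 1) ≤ 0
            omega
          · intro i hi hi'
            rw [decadm_KP, decadm_KP]
            exact hK i hi hi'
        · have hyeq : decadm_Y l d = - decadm_Y l c := by omega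
          have hOc : O c.1 (decadm_Y l c) := by
            apply hc' c.1 d.1 (decadm_Y l c) hc1 hd1 hdis
            rw [← hyeq]
            exact h2
          exact hIO _ _ n2 hOc
    intro c hcm d hdm hconf
    have hconf' : Conf n l d c := by
      refine ⟨hconf.1.symm, fun i hi hi' => ?_⟩
      have := hconf.2 i hi hi'
      linarith
    rcases (decadm_dec l G I O c).1 hcm with ⟨h1, _⟩ | h1
    · rcases (decadm_dec l G I O d).1 hdm with ⟨h2, _⟩ | h2
      · exact hG.nc c h1 d h2 hconf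
      · exact main d c hdm hcm hconf' h2
    · exact main c d hcm hdm hconf h1

end Pool.Agent.ProfSR
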