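import Pool.Agent.Lib_MP_05ae4a_co.NRec

/-! # Piece DECVAL: the value of a decision

`V_pair`: every `B' ⊆ Ico l n` is `B` or `insert l B` with `B ⊆ Ico (l+1) n` (`Finset.sum_powerset_insert` after
`Ico l n = insert l (Ico (l+1) n)`); `ht l z B n = ht (l+1) (z-1) B n`, `ht l z (insert l B) n = ht (l+1) (z+1) B n` (`ht_down, ht_up`);
shift the sum over `z` by `∓1` (the terms with `|z| > l + a` vanish: `N_ne_zero` with `x = -a`; `l < n`), so the range
`Icc (-(n+a+2)) (n+a+2)` may be kept.
`V_dec`: apply `V_pair` to `dec l G I O` and to `G`; for `B ⊆ Ico (l+1) n` (so `l ∉ B`) membership in `dec` unfolds to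
`(σ, y+1, B) ∈ dec ↔ (σ,y+1,B) ∈ G ∧ ¬ (O σ y ∧ (σ,y-1,insert l B) ∉ G)`,
`(σ, y-1, insert l B) ∈ dec ↔ (σ,y-1,insert l B) ∈ G ∨ (I σ y ∧ (σ,y+1,B) ∈ G)`; and `(σ,y-1,insert l B) ∈ G → (σ,y+1,B) ∈ G` (`hup`). -/

namespace Pool.Agent.ProfSR
open Finset

theorem decval_shift (M : ℤ) (f : ℤ → ℝ) (c : ℤ) (hf : ∀ z, f z ≠ 0 → -M ≤ z ∧ z ≤ M)
    (hf' : ∀ z, f z ≠ 0 → -M ≤ z - c ∧ z - c ≤ M) :
    ∑ z ∈ Icc (-M) M, f z = ∑ y ∈ Icc (-M) M, f (y + c) := by
  rw [← finsum_eq_sum_of_support_subset f (s := Icc (-M) M) (by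
      intro z hz
      rw [Function.mem_support] at hz
      simpa using hf z hz),
    ← finsum_eq_sum_of_support_subset (fun y => f (y + c)) (s := Icc (-M) M) (by
      intro y hy
      rw [Function.mem_support] at hy
      have h1 := hf' (y + c) hy
      rw [add_sub_cancel_right] at h1
      simpa using h1)]
  exact (finsum_comp_equiv (Equiv.addRight c) (f := f)).symm

theorem decval_N {n a l : ℕ} (hl : l < n) (σ : Finset ℕ) (z : ℤ) (h : N a (-(a : ℤ)) l σ z ≠ 0) :
    -((n : ℤ) + a + 2) + 1 ≤ z ∧ z ≤ (n : ℤ) + a + 2 - 1 := by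
  have h1 := (N_ne_zero h).1
  rw [abs_le] at h1
  constructor <;> omega

open Classical in
theorem V_pair {n a l : ℕ} (hl : l < n) (β : ℤ → ℝ) (G : Set Cls) :
    V n a β l G = ∑ σ ∈ (range (R a l)).powerset, ∑ y ∈ Icc (-((n : ℤ) + a + 2)) ((n : ℤ) + a + 2),
      ∑ B ∈ (Ico (l + 1) n).powerset,
        ((if (σ, y + 1, B) ∈ G then (N a (-(a : ℤ)) l σ (y + 1) : ℝ) else 0) +
          (if (σ, y - 1, insert l B) ∈ G then (N a (-(a : ℤ)) l σ (y - 1) : ℝ) else 0)) * β (ht (l + 1) y B n) := by
  unfold V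
  apply sum_congr rfl
  intro σ _
  set M : ℤ := (n : ℤ) + a + 2 with hM
  have hlB : ∀ B ∈ (Ico (l + 1) n).powerset, l ∉ B := by
    intro B hB h
    have h1 := mem_powerset.1 hB h
    rw [mem_Ico] at h1
    omega
  have hI : Ico l n = insert l (Ico (l + 1) n) := by
    ext j
    simp only [mem_insert, mem_Ico]
    omega
  have hnot : l ∉ Ico (l + 1) n := by simp
  let F : ℤ → Finset ℕ → ℝ := fun z B =>
    if (σ, z, B) ∈ G then (N a (-(a : ℤ)) l σ z : ℝ) * β (ht l z B n) else 0
  have hF : ∀ z B, F z B ≠ 0 → -M + 1 ≤ z ∧ z ≤ M - 1 := by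
    intro z B h
    apply decval_N hl σ z
    intro h0
    apply h
    simp only [F, h0]
    split_ifs <;> simp
  calc ∑ z ∈ Icc (-M) M, ∑ B ∈ (Ico l n).powerset, F z B
      = ∑ z ∈ Icc (-M) M, (∑ B ∈ (Ico (l + 1) n).powerset, F z B +
          ∑ B ∈ (Ico (l + 1) n).powerset, F z (insert l B)) := by
        apply sum_congr rfl
        intro z _
        rw [hI, Finset.sum_powerset_insert hnot]
    _ = ∑ B ∈ (Ico (l + 1) n).powerset, ∑ z ∈ Icc (-M) M, F z B +
          ∑ B ∈ (Ico (l + 1) n).powerset, ∑ z ∈ Icc (-M) M, F z (insert l B) := by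
        rw [sum_add_distrib, sum_comm]
        congr 1
        rw [sum_comm]
    _ = ∑ B ∈ (Ico (l + 1) n).powerset, ∑ y ∈ Icc (-M) M, F (y + 1) B +
          ∑ B ∈ (Ico (l + 1) n).powerset, ∑ y ∈ Icc (-M) M, F (y + -1) (insert l B) := by
        congr 1
        · apply sum_congr rfl
          intro B _
          apply decval_shift M (fun z => F z B) 1
          · intro z hz
            have := hF z B hz
            constructor <;> omega
          · intro z hz
            have := hF z B hz
            constructor <;> omega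
        · apply sum_congr rfl
          intro B _
          apply decval_shift M (fun z => F z (insert l B)) (-1)
          · intro z hz
            have := hF z _ hz
            constructor <;> omega
          · intro z hz
            have := hF z _ hz
            constructor <;> omega
    _ = ∑ y ∈ Icc (-M) M, ∑ B ∈ (Ico (l + 1) n).powerset, (F (y + 1) B + F (y + -1) (insert l B)) := by
        rw [← sum_add_distrib, sum_comm]
        apply sum_congr rfl
        intro B _
        rw [sum_add_distrib]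
    _ = _ := by
        apply sum_congr rfl
        intro y _
        apply sum_congr rfl
        intro B hB
        have h1 := ht_down (l := l) (y := y) (B := B) (i := n) (by omega) (hlB B hB)
        have h2 := ht_up (l := l) (y := y) (B := B) (i := n) (by omega) (hlB B hB)
        have h3 : y + -1 = y - 1 := by ring
        simp only [F, h3, h1, h2, add_mul, ite_mul, zero_mul]

open Classical in
theorem V_dec {n a l : ℕ} (hl : l < n) (β : ℤ → ℝ) (G : Set Cls) (I O : Finset ℕ → ℤ → Prop)
    (hIO : ∀ σ y, I σ y → ¬ O σ y)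
    (hup : ∀ σ y B, l ∉ B → (σ, y - 1, insert l B) ∈ G → (σ, y + 1, B) ∈ G) :
    V n a β l (dec l G I O) = V n a β l G +
      ∑ σ ∈ (range (R a l)).powerset, ∑ y ∈ Icc (-((n : ℤ) + a + 2)) ((n : ℤ) + a + 2),
        ((if I σ y then (N a (-(a : ℤ)) l σ (y - 1) : ℝ) else 0) -
          (if O σ y then (N a (-(a : ℤ)) l σ (y + 1) : ℝ) else 0)) *
        ∑ B ∈ (Ico (l + 1) n).powerset, (if Und l G σ y B then β (ht (l + 1) y B n) else 0) := by
  rw [V_pair hl, V_pair hl, ← sum_add_distrib]
  apply sum_congr rfl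
  intro σ _
  rw [← sum_add_distrib]
  apply sum_congr rfl
  intro y _
  rw [mul_sum, ← sum_add_distrib]
  apply sum_congr rfl
  intro B hB
  have hlB : l ∉ B := by
    intro h
    have h1 := mem_powerset.1 hB h
    rw [mem_Ico] at h1
    omega
  have d1 : (σ, y + 1, B) ∈ dec l G I O ↔
      ((σ, y + 1, B) ∈ G ∧ ¬ (O σ y ∧ (σ, y - 1, insert l B) ∉ G)) := by
    have e1 : y + 1 - 1 = y := by ring
    have e2 : y + 1 - 2 = y - 1 := by ring
    simp only [dec, Set.mem_ofPred_eq, hlB, e1, e2, not_false_eq_true, true_and, false_and, or_false]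
  have d2 : (σ, y - 1, insert l B) ∈ dec l G I O ↔
      ((σ, y - 1, insert l B) ∈ G ∨ (I σ y ∧ (σ, y + 1, B) ∈ G)) := by
    have e1 : y - 1 + 1 = y := by ring
    have e2 : y - 1 + 2 = y + 1 := by ring
    have e3 : (insert l B).erase l = B := erase_insert hlB
    simp only [dec, Set.mem_ofPred_eq, mem_insert_self, e1, e2, e3, not_true_eq_false, false_and,
      not_false_eq_true, and_true, true_and]
  have hu := hup σ y B hlB
  have hio := hIO σ y
  simp only [d1, d2, Und]
  by_cases hP : (σ, y + 1, B) ∈ G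
  · by_cases hQ : (σ, y - 1, insert l B) ∈ G
    · simp [hP, hQ]
    · by_cases hI : I σ y
      · have hO := hio hI
        simp [hP, hQ, hI, hO]
        ring
      · by_cases hO : O σ y
        · simp [hP, hQ, hI, hO]
        · simp [hP, hQ, hI, hO]
  · have hQ : (σ, y - 1, insert l B) ∉ G := fun h => hP (hu h)
    simp [hP, hQ]

end Pool.Agent.ProfSR
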