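import Mathlib

/-! # Piece LAYER: layer-cake inequality for decreasing functions of finite sets

Proof: strong induction on the number of distinct positive values of `g` on `(range m).powerset`
(`((powerset).image g).filter (0 < ·)`).card.  If there is none, both sides are `0`.  Otherwise let `c > 0` be the smallest positive value,
`D = {σ : g σ > 0}` (downward closed by `hanti`), `g' = max (g - c) 0` (again nonneg and antitone, fewer positive values, and
`g = c * 1_D + g'` on the powerset); `∑ g B = c ∑_D B + ∑ g' B ≤ c ∑_D A + ∑ g' A`. -/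

namespace Pool.Agent.ProfSR
open Finset

theorem layer_aux (m : ℕ) (A B : Finset ℕ → ℝ)
    (hD : ∀ D ⊆ (range m).powerset, (∀ σ ∈ D, ∀ τ, τ ⊆ σ → τ ∈ D) → ∑ σ ∈ D, B σ ≤ ∑ σ ∈ D, A σ) :
    ∀ (k : ℕ) (g : Finset ℕ → ℝ), (∀ σ, 0 ≤ g σ) →
      (∀ σ τ, σ ⊆ τ → τ ⊆ range m → g τ ≤ g σ) →
      (((range m).powerset.image g).filter (fun v => 0 < v)).card ≤ k →
      ∑ σ ∈ (range m).powerset, g σ * B σ ≤ ∑ σ ∈ (range m).powerset, g σ * A σ := by
  intro k
  induction k with
  | zero =>
    intro g hg _ hk
    have h0 : ∀ σ ∈ (range m).powerset, g σ = 0 := by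
      intro σ hσ
      by_contra hne
      have hpos : 0 < g σ := lt_of_le_of_ne (hg σ) (Ne.symm hne)
      have : g σ ∈ ((range m).powerset.image g).filter (fun v => 0 < v) := by
        rw [mem_filter]
        exact ⟨mem_image_of_mem g hσ, hpos⟩
      rw [Nat.le_zero, card_eq_zero] at hk
      rw [hk] at this
      exact absurd this (notMem_empty _)
    have h1 : ∀ F : Finset ℕ → ℝ, ∑ σ ∈ (range m).powerset, g σ * F σ = 0 := by
      intro F
      apply sum_eq_zero
      intro σ hσ
      rw [h0 σ hσ, zero_mul]
    rw [h1, h1]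
  | succ k ih =>
    intro g hg hanti hk
    by_cases hS : (((range m).powerset.image g).filter (fun v => 0 < v)).Nonempty
    · set S := ((range m).powerset.image g).filter (fun v => 0 < v) with hSdef
      set c := S.min' hS with hc
      have hcS : c ∈ S := min'_mem S hS
      have hcpos : 0 < c := (mem_filter.1 hcS).2
      have hmem : ∀ σ ∈ (range m).powerset, 0 < g σ → c ≤ g σ := by
        intro σ hσ hpos
        apply min'_le
        rw [hSdef, mem_filter]
        exact ⟨mem_image_of_mem g hσ, hpos⟩
      have hih := ih (fun σ => max (g σ - c) 0) (fun σ => le_max_right _ _)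
        (fun σ τ h1 h2 => max_le_max (sub_le_sub_right (hanti σ τ h1 h2) c) le_rfl) (by
          have hsub : ((range m).powerset.image (fun σ => max (g σ - c) 0)).filter
              (fun v => 0 < v) ⊆ (S.erase c).image (fun v => v - c) := by
            intro v hv
            rw [mem_filter, mem_image] at hv
            obtain ⟨⟨σ, hσ, rfl⟩, hv⟩ := hv
            have h1 : 0 < g σ - c := by
              rcases lt_max_iff.1 hv with h | h
              · exact h
              · exact absurd h (lt_irrefl _)
            rw [mem_image]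
            refine ⟨g σ, ?_, ?_⟩
            · rw [mem_erase, hSdef, mem_filter]
              exact ⟨by linarith [h1] |> fun (h : c < g σ) => ne_of_gt h,
                mem_image_of_mem g hσ, by linarith⟩
            · exact (max_eq_left h1.le).symm
          have h2 := (card_le_card hsub).trans card_image_le
          rw [card_erase_of_mem hcS] at h2
          omega)
      have hdec : ∀ (F : Finset ℕ → ℝ), ∑ σ ∈ (range m).powerset, g σ * F σ =
          c * ∑ σ ∈ (range m).powerset.filter (fun σ => 0 < g σ), F σ +
            ∑ σ ∈ (range m).powerset, max (g σ - c) 0 * F σ := by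
        intro F
        rw [mul_sum, sum_filter, ← sum_add_distrib]
        apply sum_congr rfl
        intro σ hσ
        by_cases hpos : 0 < g σ
        · rw [if_pos hpos, max_eq_left (sub_nonneg.2 (hmem σ hσ hpos))]
          ring
        · have h0 : g σ = 0 := le_antisymm (not_lt.1 hpos) (hg σ)
          rw [if_neg hpos, h0, max_eq_right (by linarith)]
          ring
      have hDD := hD ((range m).powerset.filter (fun σ => 0 < g σ)) (filter_subset _ _) (by
        intro σ hσ τ hτ
        rw [mem_filter] at hσ ⊢
        have h1 : σ ⊆ range m := mem_powerset.1 hσ.1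
        exact ⟨mem_powerset.2 (hτ.trans h1), lt_of_lt_of_le hσ.2 (hanti τ σ hτ h1)⟩)
      rw [hdec B, hdec A]
      have := mul_le_mul_of_nonneg_left hDD hcpos.le
      linarith
    · rw [not_nonempty_iff_eq_empty] at hS
      apply ih g hg hanti
      rw [hS]
      simp

theorem layer (m : ℕ) (A B g : Finset ℕ → ℝ) (hg : ∀ σ, 0 ≤ g σ)
    (hanti : ∀ σ τ, σ ⊆ τ → τ ⊆ range m → g τ ≤ g σ)
    (hD : ∀ D ⊆ (range m).powerset, (∀ σ ∈ D, ∀ τ, τ ⊆ σ → τ ∈ D) → ∑ σ ∈ D, B σ ≤ ∑ σ ∈ D, A σ) :
    ∑ σ ∈ (range m).powerset, g σ * B σ ≤ ∑ σ ∈ (range m).powerset, g σ * A σ := by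
  exact layer_aux m A B hD _ g hg hanti le_rfl

end Pool.Agent.ProfSR
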