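import Pool.Agent.Lib_MP_05ae4a_co.NMtp

/-! # Piece NPOS: positivity

`N_pos_start`: apply `N_mtp` to `N a (-a) l σ y` and `N a a l ∅ (a-l)` (the walk `A = ∅` goes straight down; its heights at the
status times are negative, so it has no positive status): the right side contains the factor `N a a l σ (max y (a-l))`;
`N_ne_zero` gives `y + a ≤ l`, so `a - l ≤ -y < 0 < y` and the maximum is `y`.

`N_pos_up`: if `l ≤ a + 1` then `R a l = 0` and `σ = σ' = ∅`.  Otherwise there is `h ≤ 1`, `h ≤ y` with `0 < N a a l σ h`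
(zigzag walk: straight down to `0` at time `a`, then `±1` at the status times as `σ` says and `0` in between; by induction on `k`:
`0 < N a a (a+2k) σ 0` and `0 < N a a (a+2k+1) σ 1` and `0 < N a a (a+2k+1) σ (-1)` via `N_succ`, for every `σ`),
and `N_mtp` applied to `N a a l σ' y` and `N a a l σ h` gives the factor `N a a l (σ' ∪ σ) (max y h) = N a a l σ y`. -/

namespace Pool.Agent.ProfSR
open Finset

/-- the walk which goes straight down -/
theorem NPos_down (a l : ℕ) : 0 < N a a l ∅ ((a : ℤ) - l) := by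
  classical
  unfold N
  rw [Finset.card_pos]
  refine ⟨∅, ?_⟩
  rw [Finset.mem_filter]
  refine ⟨Finset.mem_powerset.2 (Finset.empty_subset _), ?_, ?_⟩
  · simp [ht]
  · intro r _
    have h1 : ht 0 (a : ℤ) ∅ (a + 1 + 2 * r) = (a : ℤ) - (a + 1 + 2 * r) := by
      simp [ht]
    rw [h1]
    constructor
    · intro h
      simp at h
    · intro h
      omega

theorem NPos_odd {a k : ℕ} {σ : Finset ℕ} (h : 0 < N a a (a + 2 * k) σ 0) :
    0 < N a a (a + 2 * k + 1) σ 1 ∧ 0 < N a a (a + 2 * k + 1) σ (-1) := by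
  constructor
  · rw [N_succ]
    have e1 : (1 : ℤ) - 1 = 0 := by norm_num
    rw [e1, if_pos (fun r hr => by omega)]
    omega
  · rw [N_succ]
    have e1 : (-1 : ℤ) + 1 = 0 := by norm_num
    rw [e1, if_pos (c := ∀ r, a + 1 + 2 * r = a + 2 * k → (r ∈ σ ↔ (0 : ℤ) < 0))
      (fun r hr => by omega)]
    omega

theorem NPos_zig (a : ℕ) (σ : Finset ℕ) (k : ℕ) : 0 < N a a (a + 2 * k) σ 0 := by
  induction k with
  | zero =>
    have h1 := NPos_down a a
    rw [sub_self] at h1
    have h2 : N a (a : ℤ) (a + 2 * 0) σ 0 = N a (a : ℤ) a ∅ 0 := by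
      rw [mul_zero, add_zero]
      exact N_congr (fun r hr => by omega)
    rw [h2]
    exact h1
  | succ k ih =>
    obtain ⟨h1, h2⟩ := NPos_odd ih
    have e : a + 2 * (k + 1) = a + 2 * k + 1 + 1 := by ring
    rw [e, N_succ]
    have e1 : (0 : ℤ) - 1 = -1 := by norm_num
    have e2 : (0 : ℤ) + 1 = 1 := by norm_num
    rw [e1, e2]
    by_cases hk : k ∈ σ
    · have hc : ∀ r, a + 1 + 2 * r = a + 2 * k + 1 → (r ∈ σ ↔ (0 : ℤ) < 1) := by
        intro r hr
        have : r = k := by omega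
        subst this
        exact ⟨fun _ => by norm_num, fun _ => hk⟩
      rw [if_pos hc]
      omega
    · have hc : ∀ r, a + 1 + 2 * r = a + 2 * k + 1 → (r ∈ σ ↔ (0 : ℤ) < -1) := by
        intro r hr
        have : r = k := by omega
        subst this
        exact ⟨fun h => absurd h hk, fun h => by omega⟩
      rw [if_pos hc]
      omega

theorem NPos_low {a l : ℕ} (hl : a ≤ l) (σ : Finset ℕ) : ∃ h : ℤ, h ≤ 1 ∧ 0 < N a a l σ h := by
  obtain ⟨d, rfl⟩ := Nat.exists_eq_add_of_le hl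
  rcases Nat.even_or_odd' d with ⟨k, rfl | rfl⟩
  · exact ⟨0, by norm_num, NPos_zig a σ k⟩
  · exact ⟨1, le_rfl, (NPos_odd (NPos_zig a σ k)).1⟩

theorem N_pos_start {a l : ℕ} {σ : Finset ℕ} {y : ℤ} (hy : 0 < y) (h : 0 < N a (-(a : ℤ)) l σ y) :
    0 < N a a l σ y := by
  have h0 := NPos_down a l
  have hm := N_mtp a l (-(a : ℤ)) (a : ℤ) y ((a : ℤ) - l) σ ∅ ⟨-(a : ℤ), by ring⟩
  have hb := (N_ne_zero h.ne').1
  have hb' : y - -(a : ℤ) ≤ l := le_trans (le_abs_self _) hb
  have e1 : max (-(a : ℤ)) (a : ℤ) = a := max_eq_right (by omega)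
  have e2 : max y ((a : ℤ) - l) = y := max_eq_left (by omega)
  rw [e1, e2, Finset.union_empty] at hm
  have hpos : 0 < N a (-(a : ℤ)) l σ y * N a (a : ℤ) l ∅ ((a : ℤ) - l) := Nat.mul_pos h h0
  rcases Nat.eq_zero_or_pos (N a (a : ℤ) l σ y) with hz | hz
  · rw [hz, mul_zero] at hm
    omega
  · exact hz

theorem N_pos_up {a l : ℕ} {σ σ' : Finset ℕ} (h1 : σ' ⊆ σ) (h2 : σ ⊆ range (R a l)) {y : ℤ} (hy : 0 < y)
    (h : 0 < N a a l σ' y) : 0 < N a a l σ y := by
  by_cases hl : a ≤ l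
  · obtain ⟨z, hz1, hz2⟩ := NPos_low hl σ
    have hm := N_mtp a l (a : ℤ) (a : ℤ) y z σ' σ ⟨0, by ring⟩
    have e2 : max y z = y := max_eq_left (by omega)
    rw [max_self, e2, Finset.union_eq_right.2 h1] at hm
    have hpos : 0 < N a (a : ℤ) l σ' y * N a (a : ℤ) l σ z := Nat.mul_pos h hz2
    rcases Nat.eq_zero_or_pos (N a (a : ℤ) l σ y) with hz | hz
    · rw [hz, mul_zero] at hm
      omega
    · exact hz
  · have hR : R a l = 0 := by
      unfold R
      omega
    rw [hR, Finset.range_zero, Finset.subset_empty] at h2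
    subst h2
    rw [Finset.subset_empty] at h1
    subst h1
    exact h

end Pool.Agent.ProfSR
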