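import Pool.Agent.Lib_MP_05ae4a_co.Defs

/-! # Piece NREF: reflection of walks

Bijection `A ↦ range l \ A`: `ht 0 (-x) (range l \ A) i = - ht 0 x A i` for `i ≤ l`; at the status times `a+1+2r` the height
has the parity of `x + a + 1`, hence is not zero. -/

namespace Pool.Agent.ProfSR
open Finset

theorem ht_compl {x : ℤ} {l i : ℕ} (hi : i ≤ l) {A : Finset ℕ} (hA : A ⊆ range l) :
    ht 0 (-x) (range l \ A) i = - ht 0 x A i := by
  have h1 : (range l \ A) ∩ Ico 0 i = Ico 0 i \ (A ∩ Ico 0 i) := by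
    ext j
    simp only [mem_inter, mem_sdiff, mem_range, mem_Ico]
    constructor
    · rintro ⟨⟨_, h2⟩, h3⟩
      exact ⟨h3, fun h => h2 h.1⟩
    · rintro ⟨h1, h2⟩
      exact ⟨⟨by omega, fun h => h2 ⟨h, h1⟩⟩, h1⟩
  have h2 : ((range l \ A) ∩ Ico 0 i).card + (A ∩ Ico 0 i).card = i := by
    rw [h1, card_sdiff_add_card_eq_card inter_subset_right, Nat.card_Ico, Nat.sub_zero]
  have h3 : (((range l \ A) ∩ Ico 0 i).card : ℤ) + ((A ∩ Ico 0 i).card : ℤ) = i := by
    exact_mod_cast h2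
  rw [ht, ht]
  push_cast
  linarith

private theorem nref_aux {a l : ℕ} {σ : Finset ℕ} (_hσ : σ ⊆ range (R a l)) {x : ℤ}
    (hx : x = a ∨ x = -(a : ℤ)) {y : ℤ} {A : Finset ℕ} (hA : A ⊆ range l)
    (h : ht 0 x A l = y ∧ Sts a x l σ A) :
    ht 0 (-x) (range l \ A) l = -y ∧ Sts a (-x) l (range (R a l) \ σ) (range l \ A) := by
  refine ⟨by rw [ht_compl le_rfl hA, h.1], fun r hr => ?_⟩
  have h1 := h.2 r hr
  rw [ht_compl hr.le hA, mem_sdiff, mem_range, h1]
  have h2 : r < R a l := by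
    rw [R]
    omega
  have h3 : ht 0 x A (a + 1 + 2 * r) ≠ 0 := by
    intro h0
    have h4 := ht_parity 0 x A (a + 1 + 2 * r)
    rw [h0] at h4
    obtain ⟨c, hc⟩ := h4
    push_cast at hc
    rcases hx with hx | hx <;> omega
  constructor
  · rintro ⟨_, h4⟩
    omega
  · intro h4
    exact ⟨h2, by omega⟩

theorem N_reflect {a l : ℕ} {σ : Finset ℕ} (hσ : σ ⊆ range (R a l)) {x : ℤ} (hx : x = a ∨ x = -(a : ℤ)) (y : ℤ) :
    N a (-x) l (range (R a l) \ σ) (-y) = N a x l σ y := by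
  classical
  rw [N, N]
  refine card_nbij' (fun A => range l \ A) (fun A => range l \ A) ?_ ?_ ?_ ?_
  · intro A hA
    simp only [coe_filter, mem_powerset, Set.mem_ofPred_eq] at hA ⊢
    have h1 := nref_aux (x := -x) (sdiff_subset (s := range (R a l)) (t := σ))
      (by rcases hx with hx | hx <;> simp [hx]) hA.1 hA.2
    rw [neg_neg, neg_neg, Finset.sdiff_sdiff_eq_self hσ] at h1
    exact ⟨sdiff_subset, h1⟩
  · intro A hA
    simp only [coe_filter, mem_powerset, Set.mem_ofPred_eq] at hA ⊢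
    exact ⟨sdiff_subset, nref_aux hσ hx hA.1 hA.2⟩
  · intro A hA
    simp only [coe_filter, mem_powerset, Set.mem_ofPred_eq] at hA
    exact Finset.sdiff_sdiff_eq_self hA.1
  · intro A hA
    simp only [coe_filter, mem_powerset, Set.mem_ofPred_eq] at hA
    exact Finset.sdiff_sdiff_eq_self hA.1

end Pool.Agent.ProfSR
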