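import Pool.Agent.Lib_MP_05ae4a_co.DecAdm
import Pool.Agent.Lib_MP_05ae4a_co.DecVal
import Pool.Agent.Lib_MP_05ae4a_co.NRef
import Pool.Agent.Lib_MP_05ae4a_co.NPos
import Pool.Agent.Lib_MP_05ae4a_co.Layer

/-! # Piece DECIDE: an optimal stage family can be decided (see Blueprint, MAIN STEP) -/

namespace Pool.Agent.ProfSR
open Finset

/-- total weight of the undecided pairs over `(σ, y)` -/
noncomputable def UU (n l : ℕ) (β : ℤ → ℝ) (G : Set Cls) (σ : Finset ℕ) (y : ℤ) : ℝ := by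
  classical exact ∑ B ∈ (Ico (l + 1) n).powerset, (if Und l G σ y B then β (ht (l + 1) y B n) else 0)

theorem UU_nonneg {n l : ℕ} {β : ℤ → ℝ} (hβ : ∀ h, 0 ≤ β h) (G : Set Cls) (σ : Finset ℕ) (y : ℤ) :
    0 ≤ UU n l β G σ y := by
  classical
  unfold UU
  refine sum_nonneg (fun B _ => ?_)
  split_ifs
  · exact hβ _
  · exact le_rfl

theorem sum_compl (m : ℕ) (f : Finset ℕ → ℝ) :
    ∑ σ ∈ (range m).powerset, f (range m \ σ) = ∑ σ ∈ (range m).powerset, f σ := by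
  refine sum_nbij' (fun σ => range m \ σ) (fun σ => range m \ σ) ?_ ?_ ?_ ?_ ?_
  · intro σ _
    exact mem_powerset.2 sdiff_subset
  · intro σ _
    exact mem_powerset.2 sdiff_subset
  · intro σ hσ
    exact Finset.sdiff_sdiff_eq_self (mem_powerset.1 hσ)
  · intro σ hσ
    exact Finset.sdiff_sdiff_eq_self (mem_powerset.1 hσ)
  · intro σ _
    rfl

theorem sum_Icc_sym (K : ℕ) (f : ℤ → ℝ) (h0 : f 0 = 0) :
    ∑ y ∈ Icc (-(K : ℤ)) (K : ℤ), f y = ∑ y ∈ Icc 1 K, (f (y : ℤ) + f (-(y : ℤ))) := by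
  induction K with
  | zero => simp [h0]
  | succ K ih =>
    have h1 : Icc (-((K + 1 : ℕ) : ℤ)) ((K + 1 : ℕ) : ℤ) =
        insert (-((K + 1 : ℕ) : ℤ)) (insert ((K + 1 : ℕ) : ℤ) (Icc (-(K : ℤ)) (K : ℤ))) := by
      ext z
      simp only [mem_Icc, mem_insert]
      push_cast
      omega
    rw [h1, sum_insert, sum_insert, ih, Finset.sum_Icc_succ_top (by omega)]
    · ring
    · simp
    · simp only [mem_insert, mem_Icc, not_or, not_and, not_le]
      push_cast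
      refine ⟨by omega, fun h => by omega⟩

/-- value of a decision, with `UU` -/
theorem V_dec' {n a l : ℕ} (hl : l < n) (β : ℤ → ℝ) {G : Set Cls} (hG : Adm n a l G) (I O : Finset ℕ → ℤ → Prop)
    [∀ σ y, Decidable (I σ y)] [∀ σ y, Decidable (O σ y)] (hIO : ∀ σ y, I σ y → ¬ O σ y)
    (h0 : ∀ σ, ¬ I σ 0 ∧ ¬ O σ 0) :
    V n a β l (dec l G I O) = V n a β l G + ∑ y ∈ Icc 1 (n + a + 2), ∑ σ ∈ (range (R a l)).powerset,
      (((if I σ y then (N a (-(a : ℤ)) l σ (y - 1) : ℝ) else 0) -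
          (if O σ y then (N a (-(a : ℤ)) l σ (y + 1) : ℝ) else 0)) * UU n l β G σ y +
        ((if I σ (-(y : ℤ)) then (N a (-(a : ℤ)) l σ (-(y : ℤ) - 1) : ℝ) else 0) -
          (if O σ (-(y : ℤ)) then (N a (-(a : ℤ)) l σ (-(y : ℤ) + 1) : ℝ) else 0)) * UU n l β G σ (-(y : ℤ))) := by
  classical
  have hup : ∀ σ y B, l ∉ B → (σ, y - 1, insert l B) ∈ G → (σ, y + 1, B) ∈ G := by
    intro σ y B hB h
    have hc := hG.car _ h
    refine hG.up _ h _ ⟨hc.1, ?_, ?_⟩ ⟨le_rfl, ?_⟩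
    · have h1 := hc.2.1
      simp only at h1 ⊢
      have : y + 1 + a + l = (y - 1 + a + l) + 2 := by ring
      rw [this]
      exact h1.add even_two
    · exact (subset_insert l B).trans hc.2.2
    · intro i hi hin
      simp only
      rcases Nat.eq_or_lt_of_le hi with h1 | h1
      · subst h1
        rw [ht_self, ht_self]
        omega
      · rw [ht_up h1 hB, ht_down h1 hB]
  rw [V_dec hl β G I O hIO hup]
  congr 1
  have e1 : ∀ σ : Finset ℕ, ∑ y ∈ Icc (-((n : ℤ) + a + 2)) ((n : ℤ) + a + 2),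
        ((if I σ y then (N a (-(a : ℤ)) l σ (y - 1) : ℝ) else 0) -
          (if O σ y then (N a (-(a : ℤ)) l σ (y + 1) : ℝ) else 0)) *
        ∑ B ∈ (Ico (l + 1) n).powerset, (if Und l G σ y B then β (ht (l + 1) y B n) else 0) =
      ∑ y ∈ Icc 1 (n + a + 2),
      (((if I σ y then (N a (-(a : ℤ)) l σ (y - 1) : ℝ) else 0) -
          (if O σ y then (N a (-(a : ℤ)) l σ (y + 1) : ℝ) else 0)) * UU n l β G σ y +
        ((if I σ (-(y : ℤ)) then (N a (-(a : ℤ)) l σ (-(y : ℤ) - 1) : ℝ) else 0) -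
          (if O σ (-(y : ℤ)) then (N a (-(a : ℤ)) l σ (-(y : ℤ) + 1) : ℝ) else 0)) * UU n l β G σ (-(y : ℤ))) := by
    intro σ
    have := sum_Icc_sym (n + a + 2) (fun y =>
        ((if I σ y then (N a (-(a : ℤ)) l σ (y - 1) : ℝ) else 0) -
          (if O σ y then (N a (-(a : ℤ)) l σ (y + 1) : ℝ) else 0)) * UU n l β G σ y) (by
        rw [if_neg (h0 σ).1, if_neg (h0 σ).2]
        ring)
    push_cast at this
    rw [← this]
    rfl
  have e2 : ∀ σ : Finset ℕ, ∑ y ∈ Icc (-((n : ℤ) + a + 2)) ((n : ℤ) + a + 2),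
        ((@ite ℝ (I σ y) (Classical.propDecidable _) (N a (-(a : ℤ)) l σ (y - 1) : ℝ) 0) -
          (@ite ℝ (O σ y) (Classical.propDecidable _) (N a (-(a : ℤ)) l σ (y + 1) : ℝ) 0)) *
        ∑ B ∈ (Ico (l + 1) n).powerset, (if Und l G σ y B then β (ht (l + 1) y B n) else 0) =
      ∑ y ∈ Icc (-((n : ℤ) + a + 2)) ((n : ℤ) + a + 2),
        ((if I σ y then (N a (-(a : ℤ)) l σ (y - 1) : ℝ) else 0) -
          (if O σ y then (N a (-(a : ℤ)) l σ (y + 1) : ℝ) else 0)) *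
        ∑ B ∈ (Ico (l + 1) n).powerset, (if Und l G σ y B then β (ht (l + 1) y B n) else 0) := by
    intro σ
    refine sum_congr rfl (fun y _ => ?_)
    congr 2
    · split_ifs <;> rfl
    · split_ifs <;> rfl
  rw [Finset.sum_comm (s := Icc 1 (n + a + 2))]
  exact sum_congr rfl (fun σ _ => (e2 σ).trans (e1 σ))

/-- the inequality (*) of the blueprint -/
theorem star_ineq {n a l : ℕ} (hl : l < n) {β : ℤ → ℝ} {G : Set Cls} (hG : Adm n a l G)
    (hopt : ∀ G', Adm n a l G' → V n a β l G' ≤ V n a β l G) {y0 : ℕ} (hy : y0 ∈ Icc 1 (n + a + 2))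
    {D : Finset (Finset ℕ)} (hDs : D ⊆ (range (R a l)).powerset) (hD : ∀ σ ∈ D, ∀ τ, τ ⊆ σ → τ ∈ D) :
    ∑ σ ∈ D, (N a a l σ ((y0 : ℤ) + 1) : ℝ) * UU n l β G (range (R a l) \ σ) (-(y0 : ℤ)) ≤
      ∑ σ ∈ D, (N a (-(a : ℤ)) l σ ((y0 : ℤ) + 1) : ℝ) * UU n l β G σ y0 := by
  classical
  have hy1 : 1 ≤ y0 := (mem_Icc.1 hy).1
  let I : Finset ℕ → ℤ → Prop := fun σ y => y = -(y0 : ℤ) ∧ range (R a l) \ σ ∈ D
  let O : Finset ℕ → ℤ → Prop := fun σ y => y = (y0 : ℤ) ∧ σ ∈ D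
  have hIO : ∀ σ y, I σ y → ¬ O σ y := by
    rintro σ y ⟨h1, _⟩ ⟨h2, _⟩
    omega
  have hadm : Adm n a l (dec l G I O) := by
    refine dec_adm hl hG hIO ?_ ?_ ?_
    · rintro σ τ y h1 h2 ⟨h3, h4⟩
      exact ⟨h3, hD _ h4 _ (sdiff_subset_sdiff le_rfl h1)⟩
    · rintro σ τ y h1 h2 ⟨h3, h4⟩
      exact ⟨h3, hD _ h4 _ h1⟩
    · rintro σ τ y h1 h2 h3 ⟨h4, h5⟩
      refine ⟨by omega, hD _ h5 _ ?_⟩
      intro r hr
      exact mem_sdiff.2 ⟨h1 hr, fun h => (Finset.disjoint_left.1 h3) hr h⟩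
  have h1 := hopt _ hadm
  rw [V_dec' hl β hG I O hIO (fun σ => ⟨fun h => by have := h.1; omega, fun h => by have := h.1; omega⟩)] at h1
  have h2 : ∑ y ∈ Icc 1 (n + a + 2), ∑ σ ∈ (range (R a l)).powerset,
      (((if I σ y then (N a (-(a : ℤ)) l σ (y - 1) : ℝ) else 0) -
          (if O σ y then (N a (-(a : ℤ)) l σ (y + 1) : ℝ) else 0)) * UU n l β G σ y +
        ((if I σ (-(y : ℤ)) then (N a (-(a : ℤ)) l σ (-(y : ℤ) - 1) : ℝ) else 0) -
          (if O σ (-(y : ℤ)) then (N a (-(a : ℤ)) l σ (-(y : ℤ) + 1) : ℝ) else 0)) * UU n l β G σ (-(y : ℤ))) =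
      ∑ σ ∈ (range (R a l)).powerset,
        ((if range (R a l) \ σ ∈ D then (N a (-(a : ℤ)) l σ (-(y0 : ℤ) - 1) : ℝ) * UU n l β G σ (-(y0 : ℤ)) else 0) -
          (if σ ∈ D then (N a (-(a : ℤ)) l σ ((y0 : ℤ) + 1) : ℝ) * UU n l β G σ y0 else 0)) := by
    rw [sum_eq_single_of_mem y0 hy]
    · refine sum_congr rfl (fun σ _ => ?_)
      have i1 : ¬ I σ (y0 : ℤ) := fun h => by have := h.1; omega
      have i2 : ¬ O σ (-(y0 : ℤ)) := fun h => by have := h.1; omega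
      rw [if_neg i1, if_neg i2]
      have i3 : I σ (-(y0 : ℤ)) ↔ range (R a l) \ σ ∈ D := ⟨fun h => h.2, fun h => ⟨rfl, h⟩⟩
      have i4 : O σ (y0 : ℤ) ↔ σ ∈ D := ⟨fun h => h.2, fun h => ⟨rfl, h⟩⟩
      by_cases c1 : range (R a l) \ σ ∈ D <;> by_cases c2 : σ ∈ D
      · rw [if_pos (i3.2 c1), if_pos (i4.2 c2), if_pos c1, if_pos c2]; ring
      · rw [if_pos (i3.2 c1), if_neg (fun h => c2 (i4.1 h)), if_pos c1, if_neg c2]; ring
      · rw [if_neg (fun h => c1 (i3.1 h)), if_pos (i4.2 c2), if_neg c1, if_pos c2]; ring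
      · rw [if_neg (fun h => c1 (i3.1 h)), if_neg (fun h => c2 (i4.1 h)), if_neg c1, if_neg c2]; ring
    · intro y hy' hne
      have hy'1 : 1 ≤ y := (mem_Icc.1 hy').1
      refine sum_eq_zero (fun σ _ => ?_)
      have i1 : ¬ I σ (y : ℤ) := fun h => by have := h.1; omega
      have i2 : ¬ O σ (-(y : ℤ)) := fun h => by have := h.1; omega
      have i3 : ¬ I σ (-(y : ℤ)) := fun h => by have := h.1; omega
      have i4 : ¬ O σ (y : ℤ) := fun h => by have := h.1; omega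
      rw [if_neg i1, if_neg i2, if_neg i3, if_neg i4]
      ring
  rw [h2, sum_sub_distrib] at h1
  have h3 : ∑ σ ∈ (range (R a l)).powerset,
        (if σ ∈ D then (N a (-(a : ℤ)) l σ ((y0 : ℤ) + 1) : ℝ) * UU n l β G σ y0 else 0) =
      ∑ σ ∈ D, (N a (-(a : ℤ)) l σ ((y0 : ℤ) + 1) : ℝ) * UU n l β G σ y0 := by
    rw [← sum_filter]
    refine sum_congr ?_ (fun _ _ => rfl)
    ext σ
    rw [mem_filter]
    exact ⟨fun h => h.2, fun h => ⟨hDs h, h⟩⟩
  have h4 : ∑ σ ∈ (range (R a l)).powerset, (if range (R a l) \ σ ∈ D then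
        (N a (-(a : ℤ)) l σ (-(y0 : ℤ) - 1) : ℝ) * UU n l β G σ (-(y0 : ℤ)) else 0) =
      ∑ σ ∈ D, (N a a l σ ((y0 : ℤ) + 1) : ℝ) * UU n l β G (range (R a l) \ σ) (-(y0 : ℤ)) := by
    rw [← sum_compl]
    have : ∀ σ ∈ (range (R a l)).powerset, (if range (R a l) \ (range (R a l) \ σ) ∈ D then
        (N a (-(a : ℤ)) l (range (R a l) \ σ) (-(y0 : ℤ) - 1) : ℝ) *
          UU n l β G (range (R a l) \ σ) (-(y0 : ℤ)) else 0) =
        (if σ ∈ D then (N a a l σ ((y0 : ℤ) + 1) : ℝ) * UU n l β G (range (R a l) \ σ) (-(y0 : ℤ)) else 0) := by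
      intro σ hσ
      rw [Finset.sdiff_sdiff_eq_self (mem_powerset.1 hσ)]
      have e : N a (-(a : ℤ)) l (range (R a l) \ σ) (-(y0 : ℤ) - 1) = N a a l σ ((y0 : ℤ) + 1) := by
        rw [← N_reflect (mem_powerset.1 hσ) (x := (a : ℤ)) (Or.inl rfl) ((y0 : ℤ) + 1)]
        congr 1
        ring
      rw [e]
    rw [sum_congr rfl this, ← sum_filter]
    refine sum_congr ?_ (fun _ _ => rfl)
    ext σ
    rw [mem_filter]
    exact ⟨fun h => h.2, fun h => ⟨hDs h, h⟩⟩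
  rw [h3, h4] at h1
  linarith

/-- the inequality (**): layer-cake of `star_ineq` -/
theorem key_ineq {n a l : ℕ} (hl : l < n) {β : ℤ → ℝ} (hβ : ∀ h, 0 ≤ β h) {G : Set Cls} (hG : Adm n a l G)
    (hopt : ∀ G', Adm n a l G' → V n a β l G' ≤ V n a β l G) {y0 : ℕ} (hy : y0 ∈ Icc 1 (n + a + 2)) :
    ∑ σ ∈ (range (R a l)).powerset, (if N a a l σ ((y0 : ℤ) + 1) = 0 then 0 else
        (N a a l σ ((y0 : ℤ) - 1) : ℝ) * UU n l β G (range (R a l) \ σ) (-(y0 : ℤ))) ≤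
      ∑ σ ∈ (range (R a l)).powerset, (if N a a l σ ((y0 : ℤ) + 1) = 0 then 0 else
        (N a (-(a : ℤ)) l σ ((y0 : ℤ) - 1) : ℝ) * UU n l β G σ y0) := by
  classical
  have hpos : (0 : ℤ) < (y0 : ℤ) + 1 := by omega
  let q : Finset ℕ → ℝ := fun σ => (N a a l σ ((y0 : ℤ) - 1) : ℝ) / (N a a l σ ((y0 : ℤ) + 1) : ℝ)
  have hq : ∀ σ, 0 ≤ q σ := fun σ => div_nonneg (Nat.cast_nonneg _) (Nat.cast_nonneg _)
  let M : ℝ := ∑ σ ∈ (range (R a l)).powerset, q σ
  have hM : ∀ σ, σ ⊆ range (R a l) → q σ ≤ M := fun σ hσ =>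
    single_le_sum (f := q) (fun τ _ => hq τ) (mem_powerset.2 hσ)
  have hM0 : 0 ≤ M := sum_nonneg (fun τ _ => hq τ)
  let g : Finset ℕ → ℝ := fun σ => if N a a l σ ((y0 : ℤ) + 1) = 0 then M else q σ
  have hg : ∀ σ, 0 ≤ g σ := by
    intro σ
    simp only [g]
    split_ifs
    · exact hM0
    · exact hq σ
  have hanti : ∀ σ τ, σ ⊆ τ → τ ⊆ range (R a l) → g τ ≤ g σ := by
    intro σ τ h1 h2
    simp only [g]
    by_cases c1 : N a a l σ ((y0 : ℤ) + 1) = 0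
    · rw [if_pos c1]
      split_ifs
      · exact le_rfl
      · exact hM τ h2
    · have c2 : N a a l τ ((y0 : ℤ) + 1) ≠ 0 := by
        have := N_pos_up h1 h2 hpos (Nat.pos_of_ne_zero c1)
        omega
      rw [if_neg c1, if_neg c2]
      simp only [q]
      have hσ : (0 : ℝ) < (N a a l σ ((y0 : ℤ) + 1) : ℝ) := by exact_mod_cast Nat.pos_of_ne_zero c1
      have hτ : (0 : ℝ) < (N a a l τ ((y0 : ℤ) + 1) : ℝ) := by exact_mod_cast Nat.pos_of_ne_zero c2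
      rw [div_le_div_iff₀ hτ hσ]
      have h3 := N_mtp a l (a : ℤ) (a : ℤ) ((y0 : ℤ) - 1) ((y0 : ℤ) + 1) τ σ (by simp)
      rw [min_self, max_self, min_eq_left (by omega), max_eq_right (by omega), inter_eq_right.2 h1,
        union_eq_left.2 h1] at h3
      have h4 : (N a a l τ ((y0 : ℤ) - 1) * N a a l σ ((y0 : ℤ) + 1) : ℝ) ≤
          (N a a l σ ((y0 : ℤ) - 1) * N a a l τ ((y0 : ℤ) + 1) : ℝ) := by exact_mod_cast h3
      linarith
  have hlay := layer (R a l) (fun σ => (N a (-(a : ℤ)) l σ ((y0 : ℤ) + 1) : ℝ) * UU n l β G σ y0)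
    (fun σ => (N a a l σ ((y0 : ℤ) + 1) : ℝ) * UU n l β G (range (R a l) \ σ) (-(y0 : ℤ))) g hg hanti
    (fun D hDs hD => star_ineq hl hG hopt hy hDs hD)
  refine le_trans (le_of_eq ?_) (le_trans hlay ?_)
  · refine sum_congr rfl (fun σ _ => ?_)
    simp only [g]
    by_cases c1 : N a a l σ ((y0 : ℤ) + 1) = 0
    · rw [if_pos c1, if_pos c1, c1]
      simp
    · rw [if_neg c1, if_neg c1]
      simp only [q]
      have hσ : (N a a l σ ((y0 : ℤ) + 1) : ℝ) ≠ 0 := by exact_mod_cast c1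
      field_simp
  · refine sum_le_sum (fun σ _ => ?_)
    simp only [g]
    by_cases c1 : N a a l σ ((y0 : ℤ) + 1) = 0
    · rw [if_pos c1, if_pos c1]
      have c3 : N a (-(a : ℤ)) l σ ((y0 : ℤ) + 1) = 0 := by
        by_contra hc
        have := N_pos_start hpos (Nat.pos_of_ne_zero hc)
        omega
      rw [c3]
      simp
    · rw [if_neg c1, if_neg c1]
      simp only [q]
      have hσ : (0 : ℝ) < (N a a l σ ((y0 : ℤ) + 1) : ℝ) := by exact_mod_cast Nat.pos_of_ne_zero c1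
      have h3 := N_mtp a l (-(a : ℤ)) (a : ℤ) ((y0 : ℤ) + 1) ((y0 : ℤ) - 1) σ σ (by
        have : -(a : ℤ) - a = 2 * (-(a : ℤ)) := by ring
        rw [this]
        exact even_two_mul _)
      rw [min_eq_left (by omega), max_eq_right (by omega), min_eq_right (by omega), max_eq_left (by omega),
        inter_self, union_self] at h3
      have h4 : (N a (-(a : ℤ)) l σ ((y0 : ℤ) + 1) * N a a l σ ((y0 : ℤ) - 1) : ℝ) ≤
          (N a (-(a : ℤ)) l σ ((y0 : ℤ) - 1) * N a a l σ ((y0 : ℤ) + 1) : ℝ) := by exact_mod_cast h3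
      rw [← mul_assoc]
      refine mul_le_mul_of_nonneg_right ?_ (UU_nonneg hβ _ _ _)
      rw [div_mul_eq_mul_div, div_le_iff₀ hσ]
      linarith

theorem exists_decided {n a l : ℕ} (hl : l < n) {β : ℤ → ℝ} (hβ : ∀ h, 0 ≤ β h) {G : Set Cls} (hG : Adm n a l G)
    (hopt : ∀ G', Adm n a l G' → V n a β l G' ≤ V n a β l G) :
    ∃ G', Adm n a l G' ∧ V n a β l G ≤ V n a β l G' ∧
      ∀ σ y B, l ∉ B → y ≠ 0 → ¬ Und l G' σ y B := by
  classical
  let I : Finset ℕ → ℤ → Prop := fun σ y => (0 < y ∧ N a a l σ (y + 1) ≠ 0) ∨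
    (y < 0 ∧ N a a l (range (R a l) \ σ) (-y + 1) = 0)
  let O : Finset ℕ → ℤ → Prop := fun σ y => (0 < y ∧ N a a l σ (y + 1) = 0) ∨
    (y < 0 ∧ N a a l (range (R a l) \ σ) (-y + 1) ≠ 0)
  have hIO : ∀ σ y, I σ y → ¬ O σ y := by
    rintro σ y (⟨h1, h2⟩ | ⟨h1, h2⟩) (⟨h3, h4⟩ | ⟨h3, h4⟩)
    · exact h2 h4
    · omega
    · omega
    · exact h4 h2
  have hup : ∀ {σ τ : Finset ℕ} {y : ℤ}, σ ⊆ τ → τ ⊆ range (R a l) → 0 < y → N a a l τ y = 0 →
      N a a l σ y = 0 := by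
    intro σ τ y h1 h2 h3 h4
    by_contra hc
    have := N_pos_up h1 h2 h3 (Nat.pos_of_ne_zero hc)
    omega
  have hadm : Adm n a l (dec l G I O) := by
    refine dec_adm hl hG hIO ?_ ?_ ?_
    · rintro σ τ y h1 h2 (⟨h3, h4⟩ | ⟨h3, h4⟩)
      · exact Or.inl ⟨h3, fun h => h4 (hup h1 h2 (by omega) h)⟩
      · exact Or.inr ⟨h3, hup (sdiff_subset_sdiff le_rfl h1) sdiff_subset (by omega) h4⟩
    · rintro σ τ y h1 h2 (⟨h3, h4⟩ | ⟨h3, h4⟩)
      · exact Or.inl ⟨h3, hup h1 h2 (by omega) h4⟩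
      · exact Or.inr ⟨h3, fun h => h4 (hup (sdiff_subset_sdiff le_rfl h1) sdiff_subset (by omega) h)⟩
    · rintro σ τ y h1 h2 h3 (⟨h4, h5⟩ | ⟨h4, h5⟩)
      · refine Or.inr ⟨by omega, fun h => h5 (hup ?_ sdiff_subset (by omega) h)⟩
        intro r hr
        exact mem_sdiff.2 ⟨h2 hr, fun h' => (Finset.disjoint_left.1 h3) h' hr⟩
      · refine Or.inl ⟨by omega, hup ?_ sdiff_subset (by omega) (by simpa using h5)⟩
        intro r hr
        exact mem_sdiff.2 ⟨h1 hr, fun h' => (Finset.disjoint_left.1 h3) hr h'⟩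
  refine ⟨dec l G I O, hadm, ?_, ?_⟩
  · rw [V_dec' hl β hG I O hIO (fun σ => ⟨by
      rintro (⟨h, _⟩ | ⟨h, _⟩) <;> omega, by rintro (⟨h, _⟩ | ⟨h, _⟩) <;> omega⟩)]
    refine le_add_of_nonneg_right (sum_nonneg (fun y hy => ?_))
    have hy1 : 1 ≤ y := (mem_Icc.1 hy).1
    have key := key_ineq hl hβ hG hopt hy
    rw [sum_add_distrib]
    have e1 : ∑ σ ∈ (range (R a l)).powerset, ((if I σ y then (N a (-(a : ℤ)) l σ (y - 1) : ℝ) else 0) -
          (if O σ y then (N a (-(a : ℤ)) l σ (y + 1) : ℝ) else 0)) * UU n l β G σ y =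
        ∑ σ ∈ (range (R a l)).powerset, (if N a a l σ ((y : ℤ) + 1) = 0 then 0 else
        (N a (-(a : ℤ)) l σ ((y : ℤ) - 1) : ℝ) * UU n l β G σ y) := by
      refine sum_congr rfl (fun σ _ => ?_)
      by_cases c1 : N a a l σ ((y : ℤ) + 1) = 0
      · have i1 : ¬ I σ (y : ℤ) := by
          rintro (⟨_, h⟩ | ⟨h, _⟩)
          · exact h c1
          · omega
        have i2 : O σ (y : ℤ) := Or.inl ⟨by omega, c1⟩
        have c3 : N a (-(a : ℤ)) l σ ((y : ℤ) + 1) = 0 := by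
          by_contra hc
          have := N_pos_start (by omega) (Nat.pos_of_ne_zero hc)
          omega
        rw [if_neg i1, if_pos i2, if_pos c1, c3]
        simp
      · have i1 : I σ (y : ℤ) := Or.inl ⟨by omega, c1⟩
        have i2 : ¬ O σ (y : ℤ) := hIO _ _ i1
        rw [if_pos i1, if_neg i2, if_neg c1]
        ring
    have e2 : ∑ σ ∈ (range (R a l)).powerset, ((if I σ (-(y : ℤ)) then (N a (-(a : ℤ)) l σ (-(y : ℤ) - 1) : ℝ) else 0) -
          (if O σ (-(y : ℤ)) then (N a (-(a : ℤ)) l σ (-(y : ℤ) + 1) : ℝ) else 0)) * UU n l β G σ (-(y : ℤ)) =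
        - ∑ σ ∈ (range (R a l)).powerset, (if N a a l σ ((y : ℤ) + 1) = 0 then 0 else
        (N a a l σ ((y : ℤ) - 1) : ℝ) * UU n l β G (range (R a l) \ σ) (-(y : ℤ))) := by
      rw [← sum_compl, ← sum_neg_distrib]
      refine sum_congr rfl (fun σ hσ => ?_)
      have hσ' := mem_powerset.1 hσ
      have ec : range (R a l) \ (range (R a l) \ σ) = σ := Finset.sdiff_sdiff_eq_self hσ'
      have r1 : N a (-(a : ℤ)) l (range (R a l) \ σ) (-(y : ℤ) - 1) = N a a l σ ((y : ℤ) + 1) := by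
        rw [← N_reflect hσ' (x := (a : ℤ)) (Or.inl rfl) ((y : ℤ) + 1)]
        congr 1
        ring
      have r2 : N a (-(a : ℤ)) l (range (R a l) \ σ) (-(y : ℤ) + 1) = N a a l σ ((y : ℤ) - 1) := by
        rw [← N_reflect hσ' (x := (a : ℤ)) (Or.inl rfl) ((y : ℤ) - 1)]
        congr 1
        ring
      by_cases c1 : N a a l σ ((y : ℤ) + 1) = 0
      · have i1 : I (range (R a l) \ σ) (-(y : ℤ)) := Or.inr ⟨by omega, by
          rw [ec]
          simpa using c1⟩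
        have i2 := hIO _ _ i1
        rw [if_pos i1, if_neg i2, if_pos c1, r1, c1]
        simp
      · have i2 : O (range (R a l) \ σ) (-(y : ℤ)) := Or.inr ⟨by omega, by
          rw [ec]
          simpa using c1⟩
        have i1 : ¬ I (range (R a l) \ σ) (-(y : ℤ)) := fun h => hIO _ _ h i2
        rw [if_neg i1, if_pos i2, if_neg c1, r2]
        ring
    rw [e1, e2]
    linarith
  · intro σ y B hB hy hU
    obtain ⟨h1, h2⟩ := hU
    simp only [dec, Set.mem_ofPred_eq] at h1 h2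
    push Not at h2
    have e1 : y + 1 - 1 = y := by ring
    have e2 : y + 1 - 2 = y - 1 := by ring
    have e3 : y - 1 + 1 = y := by ring
    have e4 : y - 1 + 2 = y + 1 := by ring
    rw [e1, e2] at h1
    rw [e3, e4] at h2
    rcases h1 with ⟨h3, h4⟩ | ⟨h3, _⟩
    · have h5 : (σ, y - 1, insert l B) ∉ G := by
        intro h
        have := (h2.1 h).1
        exact this (mem_insert_self l B)
      have h6 : ¬ O σ y := fun h => h4 ⟨hB, h, h5⟩
      have h7 : ¬ I σ y := by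
        intro h
        have := h2.2 (mem_insert_self l B) h
        rw [erase_insert hB] at this
        exact this h3
      rcases lt_or_gt_of_ne hy with hlt | hgt
      · by_cases c : N a a l (range (R a l) \ σ) (-y + 1) = 0
        · exact h7 (Or.inr ⟨hlt, c⟩)
        · exact h6 (Or.inr ⟨hlt, c⟩)
      · by_cases c : N a a l σ (y + 1) = 0
        · exact h6 (Or.inl ⟨hgt, c⟩)
        · exact h7 (Or.inl ⟨hgt, c⟩)
    · exact hB h3

end Pool.Agent.ProfSR
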