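import Mathlib

/-! # Walks, status vectors, stage families (MP_05ae4a_co, status reduction)

`a = t - 1`.  A set `A ⊆ {0,…,n-1}` is the walk which starts at height `-a` at time `0` and whose step from time
`i` to time `i+1` is `+1` if `i ∈ A` and `-1` otherwise.  Status times are `a+1+2r`; the heights there are odd. -/

namespace Pool.Agent.ProfSR

open Finset

/-- height at time `i` of the walk which is at height `y` at time `l` and steps up exactly at the times in `B` -/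
def ht (l : ℕ) (y : ℤ) (B : Finset ℕ) (i : ℕ) : ℤ :=
  y + 2 * ((B ∩ Ico l i).card : ℤ) - ((i : ℤ) - l)

/-- the walk `A` started at `x` has exactly the positive statuses `σ` among the status times `< l` -/
def Sts (a : ℕ) (x : ℤ) (l : ℕ) (σ A : Finset ℕ) : Prop :=
  ∀ r, a + 1 + 2 * r < l → (r ∈ σ ↔ 0 < ht 0 x A (a + 1 + 2 * r))

open Classical in
/-- number of walks of length `l` from `x` to `y` with statuses `σ` -/
noncomputable def N (a : ℕ) (x : ℤ) (l : ℕ) (σ : Finset ℕ) (y : ℤ) : ℕ :=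
  ((range l).powerset.filter (fun A => ht 0 x A l = y ∧ Sts a x l σ A)).card

/-- number of status times `a+1+2r < l` -/
def R (a l : ℕ) : ℕ := (l - a) / 2

/-- classes at stage `l`: statuses before time `l`, height at time `l`, the rest of the walk -/
abbrev Cls := Finset ℕ × ℤ × Finset ℕ

/-- the classes at stage `l` (with the right parity of the height) -/
def Car (n a l : ℕ) (c : Cls) : Prop :=
  c.1 ⊆ range (R a l) ∧ Even (c.2.1 + a + l) ∧ c.2.2 ⊆ Ico l n

/-- order of the classes -/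
def Le (n l : ℕ) (c d : Cls) : Prop :=
  c.1 ⊆ d.1 ∧ ∀ i, l ≤ i → i ≤ n → ht l c.2.1 c.2.2 i ≤ ht l d.2.1 d.2.2 i

/-- conflicting classes -/
def Conf (n l : ℕ) (c d : Cls) : Prop :=
  Disjoint c.1 d.1 ∧ ∀ i, l ≤ i → i ≤ n → ht l c.2.1 c.2.2 i + ht l d.2.1 d.2.2 i ≤ 0

/-- admissible stage families: up-sets without conflicting pair -/
structure Adm (n a l : ℕ) (G : Set Cls) : Prop where
  car : ∀ c ∈ G, Car n a l c
  up : ∀ c ∈ G, ∀ d, Car n a l d → Le n l c d → d ∈ G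
  nc : ∀ c ∈ G, ∀ d ∈ G, ¬ Conf n l c d

open Classical in
/-- weight of a stage family; `β` is the weight as a function of the final height -/
noncomputable def V (n a : ℕ) (β : ℤ → ℝ) (l : ℕ) (G : Set Cls) : ℝ :=
  ∑ σ ∈ (range (R a l)).powerset, ∑ y ∈ Icc (-((n : ℤ) + a + 2)) ((n : ℤ) + a + 2),
    ∑ B ∈ (Ico l n).powerset,
      if (σ, y, B) ∈ G then (N a (-(a : ℤ)) l σ y : ℝ) * β (ht l y B n) else 0

/-- the pair of classes over `(σ, y, B)` (height `y` at time `l+1`) is undecided -/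
def Und (l : ℕ) (G : Set Cls) (σ : Finset ℕ) (y : ℤ) (B : Finset ℕ) : Prop :=
  (σ, y + 1, B) ∈ G ∧ (σ, y - 1, insert l B) ∉ G

/-- the decision `I` (put both in), `O` (put both out) at time `l` -/
def dec (l : ℕ) (G : Set Cls) (I O : Finset ℕ → ℤ → Prop) : Set Cls :=
  {c | (c ∈ G ∧ ¬ (l ∉ c.2.2 ∧ O c.1 (c.2.1 - 1) ∧ (c.1, c.2.1 - 2, insert l c.2.2) ∉ G)) ∨
    (l ∈ c.2.2 ∧ I c.1 (c.2.1 + 1) ∧ (c.1, c.2.1 + 2, c.2.2.erase l) ∈ G)}

/-- the positive statuses of the walk `A ⊆ range n` started at `x` -/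
def st (a n : ℕ) (x : ℤ) (A : Finset ℕ) : Finset ℕ :=
  (range (R a n)).filter (fun r => 0 < ht 0 x A (a + 1 + 2 * r))

open Classical in
/-- number of walks of length `n` from `x` to `h` whose status vector is in `J` -/
noncomputable def X (n a : ℕ) (x : ℤ) (J : Set (Finset ℕ)) (h : ℤ) : ℕ :=
  ((range n).powerset.filter (fun A => ht 0 x A n = h ∧ st a n x A ∈ J)).card

/-- the star of the status `r` -/
def star (r : ℕ) : Set (Finset ℕ) := {σ | r ∈ σ}

/-- intersecting up-sets of status vectors -/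
structure IU (m : ℕ) (J : Set (Finset ℕ)) : Prop where
  sub : ∀ σ ∈ J, σ ⊆ range m
  up : ∀ σ ∈ J, ∀ τ, τ ⊆ range m → σ ⊆ τ → τ ∈ J
  int : ∀ σ ∈ J, ∀ τ ∈ J, ¬ Disjoint σ τ

/-! ## basic facts -/

theorem ht_self (l : ℕ) (y : ℤ) (B : Finset ℕ) : ht l y B l = y := by
  simp [ht]

theorem ht_succ_mem {l : ℕ} {y : ℤ} {B : Finset ℕ} {i : ℕ} (hi : l ≤ i) (h : i ∈ B) :
    ht l y B (i + 1) = ht l y B i + 1 := by
  have h1 : B ∩ Ico l (i + 1) = insert i (B ∩ Ico l i) := by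
    ext j
    simp only [mem_inter, mem_Ico, mem_insert]
    constructor
    · rintro ⟨h1, h2, h3⟩
      by_cases hj : j = i
      · exact Or.inl hj
      · exact Or.inr ⟨h1, h2, by omega⟩
    · rintro (rfl | ⟨h1, h2, h3⟩)
      · exact ⟨h, hi, by omega⟩
      · exact ⟨h1, h2, by omega⟩
  rw [ht, ht, h1, card_insert_of_notMem (by simp)]
  push_cast
  ring

theorem ht_succ_not {l : ℕ} {y : ℤ} {B : Finset ℕ} {i : ℕ} (h : i ∉ B) :
    ht l y B (i + 1) = ht l y B i - 1 := by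
  have h1 : B ∩ Ico l (i + 1) = B ∩ Ico l i := by
    ext j
    simp only [mem_inter, mem_Ico]
    constructor
    · rintro ⟨h1, h2, h3⟩
      have : j ≠ i := fun hh => h (hh ▸ h1)
      exact ⟨h1, h2, by omega⟩
    · rintro ⟨h1, h2, h3⟩
      exact ⟨h1, h2, by omega⟩
  rw [ht, ht, h1]
  push_cast
  ring

/-- first step down -/
theorem ht_down {l : ℕ} {y : ℤ} {B : Finset ℕ} {i : ℕ} (_hi : l + 1 ≤ i) (h : l ∉ B) :
    ht l (y + 1) B i = ht (l + 1) y B i := by
  have h1 : B ∩ Ico l i = B ∩ Ico (l + 1) i := by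
    ext j
    simp only [mem_inter, mem_Ico]
    constructor
    · rintro ⟨h1, h2, h3⟩
      have : j ≠ l := fun hh => h (hh ▸ h1)
      exact ⟨h1, by omega, h3⟩
    · rintro ⟨h1, h2, h3⟩
      exact ⟨h1, by omega, h3⟩
  rw [ht, ht, h1]
  push_cast
  ring

/-- first step up -/
theorem ht_up {l : ℕ} {y : ℤ} {B : Finset ℕ} {i : ℕ} (hi : l + 1 ≤ i) (h : l ∉ B) :
    ht l (y - 1) (insert l B) i = ht (l + 1) y B i := by
  have h1 : insert l B ∩ Ico l i = insert l (B ∩ Ico (l + 1) i) := by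
    ext j
    simp only [mem_inter, mem_Ico, mem_insert]
    constructor
    · rintro ⟨h1 | h1, h2, h3⟩
      · exact Or.inl h1
      · have : j ≠ l := fun hh => h (hh ▸ h1)
        exact Or.inr ⟨h1, by omega, h3⟩
    · rintro (rfl | ⟨h1, h2, h3⟩)
      · exact ⟨Or.inl rfl, le_rfl, by omega⟩
      · exact ⟨Or.inr h1, by omega, h3⟩
  rw [ht, ht, h1, card_insert_of_notMem (by simp)]
  push_cast
  ring

theorem ht_parity (l : ℕ) (y : ℤ) (B : Finset ℕ) (i : ℕ) : Even (ht l y B i - (y + i + l)) := by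
  rw [ht]
  exact ⟨(B ∩ Ico l i).card - i, by ring⟩

theorem ht_add (l : ℕ) (y z : ℤ) (B : Finset ℕ) (i : ℕ) : ht l (y + z) B i = ht l y B i + z := by
  rw [ht, ht]
  ring

end Pool.Agent.ProfSR
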