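import Mathlib

/-! # Piece DUAL: domination by a convex combination

Finite dimensional separation: if for all nonnegative weights `w` the value of `p` is at most the value of some `v r`, then `p` is
coordinatewise below a convex combination of the `v r`.
Proof: `C` = the image of the standard simplex (compact, convex), `D = {x | ∀ i, x i ≤ 0}` is closed and convex, so `C + D` is closed
and convex; if `p ∉ C + D` then
`geometric_hahn_banach_closed_point` gives a linear `f` and `u` with `f x < u < f p` on `C + D`; `f` is nonnegative on the standard basis vectors (otherwise `f` is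
unbounded on `C + D` as `-s e_i ∈ D`), so with `w i = f e_i ≥ 0`, `f x = ∑ w i * x i`; contradiction with the hypothesis.  Hence `p = c + d`, `p ≤ c`. -/

namespace Pool.Agent.ProfSR
open Finset
open scoped Pointwise

theorem dual {ι κ : Type} [Fintype ι] [Fintype κ] [Nonempty κ] (p : ι → ℝ) (v : κ → ι → ℝ)
    (h : ∀ w : ι → ℝ, (∀ i, 0 ≤ w i) → ∃ r, ∑ i, w i * p i ≤ ∑ i, w i * v r i) :
    ∃ c : κ → ℝ, (∀ r, 0 ≤ c r) ∧ ∑ r, c r = 1 ∧ ∀ i, p i ≤ ∑ r, c r * v r i := by
  classical
  let L : (κ → ℝ) →ₗ[ℝ] (ι → ℝ) :=
    { toFun := fun c i => ∑ r, c r * v r i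
      map_add' := by
        intro x y
        funext i
        simp only [Pi.add_apply, add_mul, Finset.sum_add_distrib]
      map_smul' := by
        intro a x
        funext i
        simp only [Pi.smul_apply, smul_eq_mul, RingHom.id_apply, Finset.mul_sum, mul_assoc] }
  have hL : ∀ c i, L c i = ∑ r, c r * v r i := fun _ _ => rfl
  have hLc : Continuous L := L.continuous_of_finiteDimensional
  set C : Set (ι → ℝ) := L '' stdSimplex ℝ κ with hC
  set D : Set (ι → ℝ) := {x | ∀ i, x i ≤ 0} with hD
  have hCcomp : IsCompact C := (isCompact_stdSimplex ℝ κ).image hLc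
  have hCconv : Convex ℝ C := (convex_stdSimplex ℝ κ).linear_image L
  have hDcl : IsClosed D := by
    have : D = ⋂ i, {x : ι → ℝ | x i ≤ 0} := by
      ext x; simp [hD]
    rw [this]
    exact isClosed_iInter (fun i => isClosed_le (continuous_apply i) continuous_const)
  have hDconv : Convex ℝ D := by
    intro x hx y hy a b ha hb _ i
    have h1 := hx i
    have h2 := hy i
    simp only [Pi.add_apply, Pi.smul_apply, smul_eq_mul]
    nlinarith
  have hcl : IsClosed (C + D) := IsClosed.add_left_of_isCompact hDcl hCcomp
  have hconv : Convex ℝ (C + D) := hCconv.add hDconv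
  have hsimp : ∀ r : κ, Pi.single r (1 : ℝ) ∈ stdSimplex ℝ κ := fun r => single_mem_stdSimplex ℝ r
  by_cases hp : p ∈ C + D
  · obtain ⟨x, hx, d, hd, hxd⟩ := Set.mem_add.mp hp
    obtain ⟨c, hc, rfl⟩ := hx
    refine ⟨c, hc.1, hc.2, fun i => ?_⟩
    have h1 : L c i + d i = p i := congrFun hxd i
    have h2 : d i ≤ 0 := hd i
    rw [hL] at h1
    linarith
  · exfalso
    obtain ⟨f, u, hf, hu⟩ := geometric_hahn_banach_closed_point hconv hcl hp
    let w : ι → ℝ := fun i => f (Pi.single i 1)
    have hfx : ∀ x : ι → ℝ, f x = ∑ i, w i * x i := by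
      intro x
      conv_lhs => rw [pi_eq_sum_univ' x]
      rw [map_sum]
      refine Finset.sum_congr rfl (fun i _ => ?_)
      rw [map_smul, smul_eq_mul, mul_comm]
    obtain ⟨r₀⟩ := ‹Nonempty κ›
    have hvC : ∀ r, v r ∈ C := by
      intro r
      refine ⟨Pi.single r 1, hsimp r, ?_⟩
      funext i
      rw [hL, Finset.sum_eq_single r]
      · simp
      · intro b _ hb
        simp [hb]
      · intro hh; exact absurd (Finset.mem_univ r) hh
    have h0D : (0 : ι → ℝ) ∈ D := fun i => le_refl _
    have hw : ∀ i, 0 ≤ w i := by
      intro i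
      by_contra hneg
      push Not at hneg
      -- `f (v r₀ - s e_i) = f (v r₀) - s w i` is unbounded
      have key : ∀ s : ℝ, 0 ≤ s → f (v r₀) - s * w i < u := by
        intro s hs
        have hmem : v r₀ + (-s) • Pi.single i (1 : ℝ) ∈ C + D := by
          refine Set.add_mem_add (hvC r₀) ?_
          intro j
          by_cases hj : j = i
          · subst hj; simp [hs]
          · simp [hj]
        have := hf _ hmem
        rw [map_add, map_smul, smul_eq_mul] at this
        have e : f (Pi.single i 1) = w i := rfl
        rw [e] at this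
        linarith
      have h1 := key ((u - f (v r₀)) / (- w i)) (div_nonneg (by
        have := key 0 le_rfl
        linarith) (by linarith))
      have hne : w i ≠ 0 := ne_of_lt hneg
      have h2 : (u - f (v r₀)) / (- w i) * w i = -(u - f (v r₀)) := by
        rw [div_neg, neg_mul, div_mul_cancel₀ _ hne]
      rw [h2] at h1
      linarith
    obtain ⟨r, hr⟩ := h w hw
    have h1 : f (v r) < u := by
      have := hf (v r + 0) (Set.add_mem_add (hvC r) h0D)
      simpa using this
    rw [hfx] at h1 hu
    linarith

end Pool.Agent.ProfSR
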