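import Pool.Agent.Lib_MP_05ae4a_co.MainB

/-! # the reduction to chains of intersecting families of status sets -/

namespace Pool.Agent.ProfSR
open Finset

/-- statuses of a set -/
def sta (n t : ℕ) (A : Finset (Fin n)) : Finset ℕ :=
  (range (R (t - 1) n)).filter (fun r => t + r ≤ (A.filter (fun x : Fin n => (x : ℕ) < t + 2 * r)).card)

open Classical in
/-- the family of a chain -/
noncomputable def chainF (n t : ℕ) (J : ℕ → Set (Finset ℕ)) : Finset (Finset (Fin n)) :=
  univ.filter (fun A => (2 * A.card < n + t ∧ sta n t A ∈ J A.card) ∨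
    (n + t ≤ 2 * A.card ∧ range (R (t - 1) n) \ sta n t A ∉ J (n + t - 1 - A.card)))

theorem mem_chainF {n t : ℕ} {J : ℕ → Set (Finset ℕ)} {A : Finset (Fin n)} : A ∈ chainF n t J ↔
    (2 * A.card < n + t ∧ sta n t A ∈ J A.card) ∨
    (n + t ≤ 2 * A.card ∧ range (R (t - 1) n) \ sta n t A ∉ J (n + t - 1 - A.card)) := by
  classical
  unfold chainF
  rw [mem_filter]
  exact ⟨fun h => h.2, fun h => ⟨mem_univ _, h⟩⟩

theorem map_inter_range {n : ℕ} (A : Finset (Fin n)) (i : ℕ) :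
    A.map Fin.valEmbedding ∩ range i = (A.filter (fun x : Fin n => (x : ℕ) < i)).map Fin.valEmbedding := by
  ext j
  simp only [mem_inter, mem_map, mem_range, mem_filter, Fin.valEmbedding_apply]
  constructor
  · rintro ⟨⟨x, hx, rfl⟩, h⟩
    exact ⟨x, ⟨hx, h⟩, rfl⟩
  · rintro ⟨x, ⟨hx, h⟩, rfl⟩
    exact ⟨⟨x, hx, rfl⟩, h⟩

theorem ht_map {n a : ℕ} (A : Finset (Fin n)) : ht 0 (-(a : ℤ)) (A.map Fin.valEmbedding) n = 2 * (A.card : ℤ) - n - a := by
  rw [gval_ht_range, map_inter_range]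
  have : A.filter (fun x : Fin n => (x : ℕ) < n) = A := by
    refine filter_true_of_mem (fun x _ => x.2)
  rw [this, card_map]
  ring

theorem sta_eq {n t : ℕ} (h1 : 1 ≤ t) (A : Finset (Fin n)) :
    sta n t A = st (t - 1) n (-((t - 1 : ℕ) : ℤ)) (A.map Fin.valEmbedding) := by
  obtain ⟨a, rfl⟩ : ∃ a, t = a + 1 := ⟨t - 1, by omega⟩
  rw [Nat.add_sub_cancel]
  ext r
  have hst := fun hr : r < R a n => gval_st_star hr (A.map Fin.valEmbedding)
  unfold sta
  rw [Nat.add_sub_cancel, mem_filter, mem_range]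
  constructor
  · rintro ⟨hr, h⟩
    refine (hst hr).2 ?_
    rw [map_inter_range, card_map]
    exact h
  · intro h
    have hr : r < R a n := by
      unfold st at h
      exact mem_range.1 (mem_filter.1 h).1
    refine ⟨hr, ?_⟩
    have := (hst hr).1 h
    rwa [map_inter_range, card_map] at this

theorem sum_map {n : ℕ} (f : Finset ℕ → ℝ) :
    ∑ A ∈ (range n).powerset, f A = ∑ A : Finset (Fin n), f (A.map Fin.valEmbedding) := by
  symm
  refine sum_nbij (fun A => A.map Fin.valEmbedding) ?_ ?_ ?_ ?_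
  · intro A _
    rw [mem_powerset]
    intro x hx
    rw [mem_map] at hx
    obtain ⟨y, -, rfl⟩ := hx
    exact mem_range.2 y.2
  · intro A _ B _ hAB
    exact map_injective Fin.valEmbedding hAB
  · intro B hB
    rw [mem_coe, mem_powerset] at hB
    refine ⟨univ.filter (fun x : Fin n => (x : ℕ) ∈ B), mem_coe.2 (mem_univ _), ?_⟩
    ext j
    simp only [mem_map, mem_filter, mem_univ, true_and, Fin.valEmbedding_apply]
    constructor
    · rintro ⟨x, hx, rfl⟩
      exact hx
    · intro hj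
      exact ⟨⟨j, mem_range.1 (hB hj)⟩, hj, rfl⟩
  · intro A _
    rfl

open Classical in
theorem V_last {n a : ℕ} (β : ℤ → ℝ) (G : Set Cls) :
    V n a β n G = ∑ A : Finset (Fin n), if st a n (-(a : ℤ)) (A.map Fin.valEmbedding) ∈ lastJ G (2 * (A.card : ℤ) - n - a) then
      β (2 * (A.card : ℤ) - n - a) else 0 := by
  rw [final_V]
  have h1 : ∀ y, β y * (X n a (-(a : ℤ)) (lastJ G y) y : ℝ) = ∑ A ∈ (range n).powerset,
      if ht 0 (-(a : ℤ)) A n = y then (if st a n (-(a : ℤ)) A ∈ lastJ G y then β y else 0) else 0 := by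
    intro y
    unfold X
    rw [mul_comm, ← nsmul_eq_mul, ← sum_const, sum_filter]
    refine sum_congr rfl fun A _ => ?_
    by_cases h1 : ht 0 (-(a : ℤ)) A n = y
    · by_cases h2 : st a n (-(a : ℤ)) A ∈ lastJ G y
      · rw [if_pos ⟨h1, h2⟩, if_pos h1, if_pos h2]
      · rw [if_neg (fun h => h2 h.2), if_pos h1, if_neg h2]
    · rw [if_neg (fun h => h1 h.1), if_neg h1]
  rw [sum_congr rfl (fun y _ => h1 y), sum_comm, sum_map]
  refine sum_congr rfl fun A _ => ?_
  rw [ht_map, sum_ite_eq, if_pos]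
  rw [mem_Icc]
  have : A.card ≤ n := (card_le_univ A).trans (by simp)
  omega

theorem reduce {n t : ℕ} (ht1 : 1 ≤ t) {α : ℕ → ℝ} (hα : ∀ i, 0 ≤ α i) {F : Finset (Finset (Fin n))}
    (hF : ∀ A ∈ F, ∀ B ∈ F, t ≤ (A ∩ B).card) :
    ∃ J : ℕ → Set (Finset ℕ), (∀ s, 2 * s < n + t → IU (R (t - 1) n) (J s)) ∧
      (∀ s u, s ≤ u → J s ⊆ J u) ∧
      ∑ A ∈ F, α A.card ≤ ∑ A ∈ chainF n t J, α A.card := by
  classical
  obtain ⟨a, rfl⟩ : ∃ a, t = a + 1 := ⟨t - 1, by omega⟩
  obtain ⟨G, hG, hGV⟩ := start ht1 hF hα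
  rw [Nat.add_sub_cancel] at hG hGV
  have hβ : ∀ h, 0 ≤ bet n a α h := fun h => hα _
  obtain ⟨G', hG', hGV'⟩ := exists_last hβ hG
  refine ⟨fun s => lastJ G' (2 * (s : ℤ) - n - a), ?_, ?_, ?_⟩
  · intro s hs
    rw [Nat.add_sub_cancel]
    exact lastJ_IU hG' (by omega)
  · intro s u hsu
    refine lastJ_mono hG' (by omega) ⟨(u : ℤ) - s, by ring⟩
  · refine (hGV.trans hGV').trans ?_
    rw [V_last, ← sum_filter]
    have hb : ∀ A : Finset (Fin n), bet n a α (2 * (A.card : ℤ) - n - a) = α A.card := by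
      intro A
      unfold bet
      congr 1
      omega
    simp only [hb]
    refine sum_le_sum_of_subset_of_nonneg ?_ (fun A _ _ => hα _)
    intro A hA
    have hA' := (mem_filter.1 hA).2
    have hcn : A.card ≤ n := (card_le_univ A).trans (by simp)
    refine mem_filter.2 ⟨mem_univ _, ?_⟩
    rw [sta_eq ht1, Nat.add_sub_cancel]
    rcases Nat.lt_or_ge (2 * A.card) (n + (a + 1)) with h | h
    · exact Or.inl ⟨h, hA'⟩
    · refine Or.inr ⟨h, fun hc => ?_⟩
      refine hG'.nc _ hA' _ hc ⟨disjoint_sdiff, fun i hi hi' => ?_⟩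
      have hin : i = n := le_antisymm hi' hi
      subst hin
      show ht i _ ∅ i + ht i _ ∅ i ≤ 0
      rw [ht_self, ht_self]
      have : ((i + (a + 1) - 1 - A.card : ℕ) : ℤ) = (i : ℤ) + a - A.card := by omega
      rw [this]
      ring_nf
      exact le_rfl

theorem inter_of_sta {n t r : ℕ} {A B : Finset (Fin n)} (hA : r ∈ sta n t A) (hB : r ∈ sta n t B) :
    t ≤ (A ∩ B).card := by
  let p : Fin n → Prop := fun x => (x : ℕ) < t + 2 * r
  have h1 : t + r ≤ (A.filter p).card := (mem_filter.1 hA).2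
  have h2 : t + r ≤ (B.filter p).card := (mem_filter.1 hB).2
  have h3 : (A.filter p ∪ B.filter p).card ≤ t + 2 * r := by
    refine (card_le_card ?_).trans (gval_card_lt n (t + 2 * r))
    intro x hx
    rcases mem_union.1 hx with hx | hx
    · exact mem_filter.2 ⟨mem_univ _, (mem_filter.1 hx).2⟩
    · exact mem_filter.2 ⟨mem_univ _, (mem_filter.1 hx).2⟩
  have h4 := card_union_add_card_inter (A.filter p) (B.filter p)
  have h5 : (A.filter p ∩ B.filter p).card ≤ (A ∩ B).card :=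
    card_le_card (inter_subset_inter (filter_subset _ _) (filter_subset _ _))
  omega

theorem inter_of_card {n t : ℕ} {A B : Finset (Fin n)} (h : n + t ≤ A.card + B.card) : t ≤ (A ∩ B).card := by
  have h4 := card_union_add_card_inter A B
  have h5 : (A ∪ B).card ≤ n := (card_le_univ _).trans (by simp)
  omega

theorem chainF_inter {n t : ℕ} {J : ℕ → Set (Finset ℕ)} (hJ : ∀ s, 2 * s < n + t → IU (R (t - 1) n) (J s))
    (hmono : ∀ s u, s ≤ u → 2 * u < n + t → J s ⊆ J u) :
    ∀ A ∈ chainF n t J, ∀ B ∈ chainF n t J, t ≤ (A ∩ B).card := by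
  have hlow : ∀ A B : Finset (Fin n), 2 * A.card < n + t → sta n t A ∈ J A.card → n + t ≤ 2 * B.card →
      range (R (t - 1) n) \ sta n t B ∉ J (n + t - 1 - B.card) → t ≤ (A ∩ B).card := by
    intro A B h1 h2 h3 h4
    by_cases h5 : n + t ≤ A.card + B.card
    · exact inter_of_card h5
    · have h6 := hmono A.card (n + t - 1 - B.card) (by omega) (by omega) h2
      by_cases h7 : Disjoint (sta n t A) (sta n t B)
      · exfalso
        refine h4 ((hJ _ (by omega)).up _ h6 _ sdiff_subset ?_)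
        intro x hx
        exact mem_sdiff.2 ⟨(hJ _ (by omega)).sub _ h6 hx, fun h => disjoint_left.1 h7 hx h⟩
      · obtain ⟨r, hr1, hr2⟩ := not_disjoint_iff.1 h7
        exact inter_of_sta hr1 hr2
  intro A hA B hB
  rcases mem_chainF.1 hA with ⟨h1, h2⟩ | ⟨h1, h2⟩
  · rcases mem_chainF.1 hB with ⟨h3, h4⟩ | ⟨h3, h4⟩
    · have h5 : ¬ Disjoint (sta n t A) (sta n t B) := by
        rcases le_total A.card B.card with h | h
        · exact (hJ _ h3).int _ (hmono _ _ h h3 h2) _ h4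
        · exact (hJ _ h1).int _ h2 _ (hmono _ _ h h1 h4)
      obtain ⟨r, hr1, hr2⟩ := not_disjoint_iff.1 h5
      exact inter_of_sta hr1 hr2
    · exact hlow A B h1 h2 h3 h4
  · rcases mem_chainF.1 hB with ⟨h3, h4⟩ | ⟨h3, h4⟩
    · rw [inter_comm]
      exact hlow B A h3 h4 h1 h2
    · exact inter_of_card (by omega)

end Pool.Agent.ProfSR
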