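import Pool.Agent.Lib_MP_05ae4a_co.Defs

/-! # Piece NREC: recursion for the number of walks with given statuses -/

namespace Pool.Agent.ProfSR
open Finset

/-! ### helpers -/

private theorem nrec_ite {P Q R : Prop} [Decidable P] [Decidable Q] [Decidable R]
    (h : P ↔ R ∧ Q) : (if P then 1 else 0 : ℕ) = if R then (if Q then 1 else 0) else 0 := by
  by_cases hR : R
  · rw [if_pos hR]
    exact if_congr (by rw [h]; exact ⟨fun h => h.2, fun h => ⟨hR, h⟩⟩) rfl rfl
  · rw [if_neg hR, if_neg (fun hP => hR (h.1 hP).1)]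

private theorem nrec_ht_insert (x : ℤ) {l : ℕ} {A : Finset ℕ} (i : ℕ) (hi : i ≤ l) :
    ht 0 x (insert l A) i = ht 0 x A i := by
  have h1 : insert l A ∩ Ico 0 i = A ∩ Ico 0 i := by
    ext j
    simp only [mem_inter, mem_Ico, mem_insert]
    constructor
    · rintro ⟨h1 | h1, h2, h3⟩
      · omega
      · exact ⟨h1, h2, h3⟩
    · rintro ⟨h1, h2, h3⟩
      exact ⟨Or.inr h1, h2, h3⟩
  rw [ht, ht, h1]

private theorem nrec_Sts_succ (a : ℕ) (x : ℤ) (l : ℕ) (σ A : Finset ℕ) :
    Sts a x (l + 1) σ A ↔ Sts a x l σ A ∧ ∀ r, a + 1 + 2 * r = l → (r ∈ σ ↔ 0 < ht 0 x A l) := by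
  unfold Sts
  constructor
  · intro h
    refine ⟨fun r hr => h r (by omega), fun r hr => ?_⟩
    have h1 := h r (by omega)
    rw [hr] at h1
    exact h1
  · rintro ⟨h1, h2⟩ r hr
    rcases Nat.lt_succ_iff_lt_or_eq.1 hr with h3 | h3
    · exact h1 r h3
    · have h4 := h2 r h3
      rw [h3]
      exact h4

private theorem nrec_Sts_insert (a : ℕ) (x : ℤ) (l : ℕ) (σ A : Finset ℕ) :
    Sts a x l σ (insert l A) ↔ Sts a x l σ A := by
  unfold Sts
  constructor
  · intro h r hr
    rw [← nrec_ht_insert x (l := l) (A := A) _ hr.le]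
    exact h r hr
  · intro h r hr
    rw [nrec_ht_insert x (l := l) (A := A) _ hr.le]
    exact h r hr

theorem N_zero (a : ℕ) (x : ℤ) (σ : Finset ℕ) (y : ℤ) :
    N a x 0 σ y = if y = x then 1 else 0 := by
  classical
  unfold N
  have h1 : ((range 0).powerset.filter (fun A => ht 0 x A 0 = y ∧ Sts a x 0 σ A)) =
      if y = x then {∅} else ∅ := by
    ext A
    have hS : Sts a x 0 σ A := fun r hr => absurd hr (Nat.not_lt_zero _)
    by_cases hy : y = x
    · rw [if_pos hy, mem_filter, range_zero, powerset_empty, mem_singleton, ht_self]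
      exact ⟨fun h => h.1, fun h => ⟨h, hy.symm, hS⟩⟩
    · rw [if_neg hy, mem_filter, ht_self]
      constructor
      · rintro ⟨-, h, -⟩
        exact absurd h.symm hy
      · intro h
        simp at h
  by_cases hy : y = x
  · rw [if_pos hy]
    rw [if_pos hy] at h1
    simpa using congrArg Finset.card h1
  · rw [if_neg hy]
    rw [if_neg hy] at h1
    simpa using congrArg Finset.card h1

open Classical in
/-- `range (l+1)` subsets: split by `l ∈ A` (`Finset.range_add_one`, `Finset.powerset_insert`, or a bijection).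
`ht_succ_mem`, `ht_succ_not`; the heights at times `≤ l` do not see the element `l`. -/
theorem N_succ (a : ℕ) (x : ℤ) (l : ℕ) (σ : Finset ℕ) (y : ℤ) :
    N a x (l + 1) σ y =
      (if (∀ r, a + 1 + 2 * r = l → (r ∈ σ ↔ 0 < y - 1)) then N a x l σ (y - 1) else 0) +
      (if (∀ r, a + 1 + 2 * r = l → (r ∈ σ ↔ 0 < y + 1)) then N a x l σ (y + 1) else 0) := by
  have hl : l ∉ range l := by simp
  have hnot : ∀ A ∈ (range l).powerset, l ∉ A := fun A hA h =>
    hl (mem_powerset.1 hA h)
  have hcnt : ∀ (k : ℕ) (z : ℤ), N a x k σ z = ∑ A ∈ (range k).powerset,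
      if ht 0 x A k = z ∧ Sts a x k σ A then 1 else 0 := by
    intro k z
    unfold N
    rw [Finset.card_filter]
  rw [hcnt, range_add_one, Finset.sum_powerset_insert hl, add_comm]
  congr 1
  · -- step up
    have hterm : ∀ A ∈ (range l).powerset,
        (if ht 0 x (insert l A) (l + 1) = y ∧ Sts a x (l + 1) σ (insert l A) then 1 else 0) =
        if (∀ r, a + 1 + 2 * r = l → (r ∈ σ ↔ 0 < y - 1)) then
          (if ht 0 x A l = y - 1 ∧ Sts a x l σ A then 1 else 0) else 0 := by
      intro A hA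
      have h1 := nrec_ht_insert x (l := l) (A := A)
      have h2 : ht 0 x (insert l A) (l + 1) = ht 0 x A l + 1 := by
        rw [ht_succ_mem (Nat.zero_le l) (mem_insert_self l A), h1 l le_rfl]
      refine nrec_ite ?_
      rw [h2, nrec_Sts_succ, nrec_Sts_insert, h1 l le_rfl]
      constructor
      · rintro ⟨h3, h4, h5⟩
        have hc : ht 0 x A l = y - 1 := by linarith
        rw [hc] at h5
        exact ⟨h5, hc, h4⟩
      · rintro ⟨h5, hc, h4⟩
        rw [hc]
        exact ⟨by ring, h4, h5⟩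
    rw [Finset.sum_congr rfl hterm]
    split_ifs with hr
    · rw [hcnt]
    · simp
  · -- step down
    have hterm : ∀ A ∈ (range l).powerset,
        (if ht 0 x A (l + 1) = y ∧ Sts a x (l + 1) σ A then 1 else 0) =
        if (∀ r, a + 1 + 2 * r = l → (r ∈ σ ↔ 0 < y + 1)) then
          (if ht 0 x A l = y + 1 ∧ Sts a x l σ A then 1 else 0) else 0 := by
      intro A hA
      have h2 : ht 0 x A (l + 1) = ht 0 x A l - 1 := ht_succ_not (hnot A hA)
      refine nrec_ite ?_
      rw [h2, nrec_Sts_succ]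
      constructor
      · rintro ⟨h3, h4, h5⟩
        have hc : ht 0 x A l = y + 1 := by linarith
        rw [hc] at h5
        exact ⟨h5, hc, h4⟩
      · rintro ⟨h5, hc, h4⟩
        rw [hc]
        exact ⟨by ring, h4, h5⟩
    rw [Finset.sum_congr rfl hterm]
    split_ifs with hr
    · rw [hcnt]
    · simp

theorem N_congr {a l : ℕ} {x y : ℤ} {σ τ : Finset ℕ} (h : ∀ r, a + 1 + 2 * r < l → (r ∈ σ ↔ r ∈ τ)) :
    N a x l σ y = N a x l τ y := by
  classical
  unfold N
  congr 1
  refine Finset.filter_congr fun A _ => ?_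
  refine and_congr_right fun _ => ?_
  unfold Sts
  exact ⟨fun h1 r hr => (h r hr).symm.trans (h1 r hr), fun h1 r hr => (h r hr).trans (h1 r hr)⟩

/-- heights move by at most `l`, and have the parity of `x + l` -/
theorem N_ne_zero {a l : ℕ} {x y : ℤ} {σ : Finset ℕ} (h : N a x l σ y ≠ 0) :
    |y - x| ≤ l ∧ Even (y - x + l) := by
  classical
  unfold N at h
  obtain ⟨A, hA⟩ := Finset.card_pos.1 (Nat.pos_of_ne_zero h)
  rw [mem_filter] at hA
  obtain ⟨-, h1, -⟩ := hA
  unfold ht at h1
  have h2 : (A ∩ Ico 0 l).card ≤ l := by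
    calc (A ∩ Ico 0 l).card ≤ (Ico 0 l).card := card_le_card inter_subset_right
      _ = l := by simp
  push_cast at h1
  refine ⟨?_, ⟨((A ∩ Ico 0 l).card : ℤ), by linarith⟩⟩
  rw [abs_le]
  constructor <;> omega

end Pool.Agent.ProfSR
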