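import Pool.Agent.Lib_MP_05ae4a_co.NRef
import Pool.Agent.Lib_MP_05ae4a_co.NRec

/-! # Piece FINAL: the last stage in terms of chains of intersecting up-sets

`lastJ G h = {σ | (σ, h, ∅) ∈ G}`.  At stage `n` all classes in the carrier are `(σ, h, ∅)`, `σ ⊆ range (R a n)`, and `Le`, `Conf` only look at `i = n`
(`ht_self`).
`lastJ_IU`: for `h ≤ 0` two disjoint members `σ, τ` would give conflicting classes (`h + h ≤ 0`).
`lastJ_mono`: `(σ,h,∅) ≤ (σ,h',∅)`, parity.
`final_bound`: for `σ ⊆ range (R a n)`: `N a x n σ h = #{A ⊆ range n : ht 0 x A n = h, st a n x A = σ}` (`Sts a x n σ A ↔ st a n x A = σ`, since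
`a+1+2r < n ↔ r < R a n`: `R a n = (n - a)/2`), so `∑_{σ ∈ powerset, σ ∈ J} N a x n σ h = X n a x J h` for `J` contained in the powerset, and
`V n a β n G = ∑_{h ∈ Icc} β h * X n a (-a) (lastJ G h) h` (`Ico n n = ∅`).  For `h = e > 0`: `A` with `ht 0 (-a) A n = e`, `st a n (-a) A ∈ lastJ G e`: the complement
`A' = range n \ A` has `ht 0 a A' n = -e`, `st a n a A' = range (R a n) \ st a n (-a) A` (`ht_compl`; heights at status times are odd), and this is not in
`lastJ G (-e)` (else conflict: disjoint, heights `e + (-e) ≤ 0`).  Hence `X n a (-a) (lastJ G e) e + X n a a (lastJ G (-e)) (-e) ≤ X n a (-a) univ e`. -/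

namespace Pool.Agent.ProfSR
open Finset

/-- the status vectors at final height `h` -/
def lastJ (G : Set Cls) (h : ℤ) : Set (Finset ℕ) := {σ | (σ, h, (∅ : Finset ℕ)) ∈ G}

theorem lastJ_IU {n a : ℕ} {G : Set Cls} (hG : Adm n a n G) {h : ℤ} (hh : h ≤ 0) : IU (R a n) (lastJ G h) := by
  refine ⟨fun σ hσ => (hG.car _ hσ).1, fun σ hσ τ hτ hστ => ?_, fun σ hσ τ hτ hd => ?_⟩
  · refine hG.up _ hσ _ ⟨hτ, (hG.car _ hσ).2.1, Finset.empty_subset _⟩ ⟨hστ, fun i _ _ => le_refl _⟩
  · refine hG.nc _ hσ _ hτ ⟨hd, fun i hi hi' => ?_⟩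
    have hin : i = n := le_antisymm hi' hi
    subst hin
    show ht i h ∅ i + ht i h ∅ i ≤ 0
    rw [ht_self]
    omega

theorem lastJ_mono {n a : ℕ} {G : Set Cls} (hG : Adm n a n G) {h h' : ℤ} (hh : h ≤ h') (hp : Even (h' - h)) :
    lastJ G h ⊆ lastJ G h' := by
  intro σ hσ
  have h1 : Even (h + a + n) := (hG.car _ hσ).2.1
  refine hG.up _ hσ _ ⟨(hG.car _ hσ).1, ?_, Finset.empty_subset _⟩
    ⟨Finset.Subset.refl _, fun i hi hi' => ?_⟩
  · show Even (h' + a + n)
    have h2 := hp.add h1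
    have h3 : h' - h + (h + a + n) = h' + a + n := by ring
    rwa [h3] at h2
  · have hin : i = n := le_antisymm hi' hi
    subst hin
    show ht i h ∅ i ≤ ht i h' ∅ i
    rw [ht_self, ht_self]
    exact hh

private theorem final_sts {a n : ℕ} {x : ℤ} {σ A : Finset ℕ} (hσ : σ ⊆ range (R a n)) :
    Sts a x n σ A ↔ st a n x A = σ := by
  have hR : ∀ r, r < R a n ↔ a + 1 + 2 * r < n := fun r => by
    unfold R
    omega
  constructor
  · intro h
    ext r
    rw [st, Finset.mem_filter, mem_range]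
    constructor
    · rintro ⟨h1, h2⟩
      exact (h r ((hR r).1 h1)).2 h2
    · intro h1
      have h2 := hσ h1
      rw [mem_range] at h2
      exact ⟨h2, (h r ((hR r).1 h2)).1 h1⟩
  · rintro rfl r hr
    rw [st, Finset.mem_filter, mem_range]
    exact ⟨fun h => h.2, fun h => ⟨(hR r).2 hr, h⟩⟩

open Classical in
private theorem final_X (n a : ℕ) (x : ℤ) (J : Set (Finset ℕ)) (h : ℤ) :
    X n a x J h = ∑ σ ∈ (range (R a n)).powerset, if σ ∈ J then N a x n σ h else 0 := by
  rw [X, Finset.card_eq_sum_card_fiberwise (f := st a n x) (t := (range (R a n)).powerset)]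
  · refine Finset.sum_congr rfl fun σ hσ => ?_
    rw [Finset.mem_powerset] at hσ
    split_ifs with hJ
    · rw [N]
      congr 1
      ext A
      simp only [Finset.mem_filter]
      constructor
      · rintro ⟨⟨h1, h2, _⟩, h4⟩
        exact ⟨h1, h2, (final_sts hσ).2 h4⟩
      · rintro ⟨h1, h2, h3⟩
        have h4 := (final_sts hσ).1 h3
        exact ⟨⟨h1, h2, h4 ▸ hJ⟩, h4⟩
    · rw [Finset.card_eq_zero, Finset.filter_eq_empty_iff]
      intro A hA hst
      rw [Finset.mem_filter] at hA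
      exact hJ (hst ▸ hA.2.2)
  · intro A _
    rw [Finset.mem_coe, Finset.mem_powerset]
    exact Finset.filter_subset _ _

theorem final_st_compl {n a : ℕ} {A : Finset ℕ} (hA : A ⊆ range n) :
    st a n (-(a : ℤ)) (range n \ A) = range (R a n) \ st a n a A := by
  ext r
  rw [Finset.mem_sdiff, st, st, Finset.mem_filter, Finset.mem_filter, mem_range]
  have hkey : r < R a n → (0 < ht 0 (-(a : ℤ)) (range n \ A) (a + 1 + 2 * r) ↔
      ¬ 0 < ht 0 (a : ℤ) A (a + 1 + 2 * r)) := by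
    intro hr
    have hi : a + 1 + 2 * r ≤ n := by
      unfold R at hr
      omega
    rw [ht_compl hi hA]
    obtain ⟨k, hk⟩ := ht_parity 0 (a : ℤ) A (a + 1 + 2 * r)
    push_cast at hk
    omega
  constructor
  · rintro ⟨h1, h2⟩
    exact ⟨h1, fun h => (hkey h1).1 h2 h.2⟩
  · rintro ⟨h1, h2⟩
    exact ⟨h1, (hkey h1).2 fun h => h2 ⟨h1, h⟩⟩

private theorem final_pair {n a : ℕ} {G : Set Cls} (hG : Adm n a n G) (e : ℤ)
    (U : Set (Finset ℕ)) (hU : ∀ σ, σ ∈ U) :
    X n a (-(a : ℤ)) (lastJ G e) e + X n a a (lastJ G (-e)) (-e) ≤ X n a (-(a : ℤ)) U e := by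
  classical
  rw [X, X, X]
  have hinj : Set.InjOn (fun A => range n \ A)
      (((range n).powerset.filter (fun A => ht 0 (a : ℤ) A n = -e ∧ st a n a A ∈ lastJ G (-e)) :
        Finset (Finset ℕ)) : Set (Finset ℕ)) := by
    intro A hA B hB hAB
    rw [Finset.mem_coe, Finset.mem_filter, Finset.mem_powerset] at hA hB
    have h1 : range n \ (range n \ A) = range n \ (range n \ B) := by
      show range n \ (fun A => range n \ A) A = range n \ (fun A => range n \ A) B
      rw [hAB]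
    rwa [Finset.sdiff_sdiff_eq_self hA.1, Finset.sdiff_sdiff_eq_self hB.1] at h1
  rw [← Finset.card_image_of_injOn hinj, ← Finset.card_union_of_disjoint]
  · refine Finset.card_le_card ?_
    intro A hA
    rw [Finset.mem_union, Finset.mem_filter, Finset.mem_image] at hA
    rw [Finset.mem_filter]
    rcases hA with ⟨h1, h2, _⟩ | ⟨B, hB, rfl⟩
    · exact ⟨h1, h2, hU _⟩
    · rw [Finset.mem_filter, Finset.mem_powerset] at hB
      refine ⟨Finset.mem_powerset.2 Finset.sdiff_subset, ?_, hU _⟩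
      show ht 0 (-(a : ℤ)) (range n \ B) n = e
      rw [ht_compl le_rfl hB.1, hB.2.1, neg_neg]
  · rw [Finset.disjoint_left]
    intro A hA hA'
    rw [Finset.mem_filter] at hA
    rw [Finset.mem_image] at hA'
    obtain ⟨B, hB, rfl⟩ := hA'
    rw [Finset.mem_filter, Finset.mem_powerset] at hB
    have h1 : st a n (-(a : ℤ)) (range n \ B) ∈ lastJ G e := hA.2.2
    rw [final_st_compl hB.1] at h1
    refine hG.nc _ h1 _ hB.2.2 ⟨Finset.sdiff_disjoint, fun i hi hi' => ?_⟩
    have hin : i = n := le_antisymm hi' hi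
    subst hin
    show ht i e ∅ i + ht i (-e) ∅ i ≤ 0
    rw [ht_self, ht_self]
    omega

theorem final_V (n a : ℕ) (β : ℤ → ℝ) (G : Set Cls) :
    V n a β n G = ∑ y ∈ Icc (-((n : ℤ) + a + 2)) ((n : ℤ) + a + 2),
      β y * X n a (-(a : ℤ)) (lastJ G y) y := by
  classical
  rw [V, Finset.sum_comm]
  refine Finset.sum_congr rfl fun y _ => ?_
  rw [final_X, Nat.cast_sum, Finset.mul_sum]
  refine Finset.sum_congr rfl fun σ _ => ?_
  rw [Finset.Ico_self, Finset.powerset_empty, Finset.sum_singleton, ht_self]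
  by_cases h : (σ, y, (∅ : Finset ℕ)) ∈ G
  · have h' : σ ∈ lastJ G y := h
    rw [if_pos h, if_pos h', mul_comm]
  · have h' : σ ∉ lastJ G y := h
    rw [if_neg h, if_neg h', Nat.cast_zero, mul_zero]

private theorem final_split (M : ℕ) (f : ℤ → ℝ) :
    ∑ y ∈ Icc (-(M : ℤ)) (M : ℤ), f y = f 0 + ∑ e ∈ Icc 1 M, (f (-(e : ℤ)) + f e) := by
  induction M with
  | zero => simp
  | succ M ih =>
    rw [Finset.sum_Icc_succ_top (by omega), ← add_assoc, ← ih]
    have h1 : Icc (-((M + 1 : ℕ) : ℤ)) ((M + 1 : ℕ) : ℤ) =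
        insert (-((M + 1 : ℕ) : ℤ)) (insert ((M + 1 : ℕ) : ℤ) (Icc (-(M : ℤ)) (M : ℤ))) := by
      ext y
      simp only [Finset.mem_insert, Finset.mem_Icc]
      push_cast
      omega
    rw [h1, Finset.sum_insert, Finset.sum_insert]
    · ring
    · rw [Finset.mem_Icc]
      push_cast
      omega
    · rw [Finset.mem_insert, Finset.mem_Icc]
      push_cast
      omega

theorem final_bound {n a : ℕ} {β : ℤ → ℝ} (hβ : ∀ h, 0 ≤ β h) {G : Set Cls} (hG : Adm n a n G) :
    V n a β n G ≤ β 0 * X n a (-(a : ℤ)) (lastJ G 0) 0 +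
      ∑ e ∈ Icc 1 (n + a + 2), (β (-(e : ℤ)) * X n a (-(a : ℤ)) (lastJ G (-(e : ℤ))) (-(e : ℤ)) +
        β e * ((X n a (-(a : ℤ)) Set.univ e : ℝ) - X n a a (lastJ G (-(e : ℤ))) (-(e : ℤ)))) := by
  have h1 := final_split (n + a + 2) (fun y => β y * X n a (-(a : ℤ)) (lastJ G y) y)
  push_cast at h1
  rw [final_V, h1]
  refine add_le_add (le_refl _) (Finset.sum_le_sum fun e _ => add_le_add (le_refl _) ?_)
  refine mul_le_mul_of_nonneg_left ?_ (hβ _)
  have h2 := final_pair hG (e : ℤ) Set.univ fun _ => Set.mem_univ _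
  have h3 : (X n a (-(a : ℤ)) (lastJ G e) e : ℝ) + X n a a (lastJ G (-(e : ℤ))) (-(e : ℤ)) ≤
      X n a (-(a : ℤ)) Set.univ e := by exact_mod_cast h2
  linarith

end Pool.Agent.ProfSR
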