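import Pool.Agent.Lib_MP_05ae4a_ep.Shift

/-! # Piece FRANKL: Frankl's lemma for shifted families (in complement form)

`G` is the family of the complements of a `t`-intersecting family (`UBd (n - t) G`: unions have at most `n - t` elements), shifted to
the right.  Suppose that for all `i ≤ n`: `i < |A ∩ [i]| + |B ∩ [i]| + t`, `[i] = {x | x < i}`.  Let `C = (A ∪ B)ᶜ`, `|C| ≥ t` (`UBd`, `t ≤ n`); let `M` be `C`
without its `t - 1` smallest elements and `W = A ∩ B`.  Apply `Pool.Agent.ProfEP.match_up hG M.card A W M`: for `m ∈ M`, take `i = m + 1`: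
the number of elements of `C` which are `≤ m` is `j := |M ∩ [m+1]| + (t-1)`, so `|(A ∪ B) ∩ [m+1]| = m + 1 - j`, and
`|W ∩ [m]| = |W ∩ [m+1]| = |A ∩ [m+1]| + |B ∩ [m+1]| - |(A ∪ B) ∩ [m+1]| ≥ (m + 1) - t + 1 - (m + 1 - j) = j - t + 1 = |M ∩ [m+1]|`, the condition.
So there is `A' ∈ G` with `M ⊆ A'`, `A \ W ⊆ A'`; then `A' ∪ B ⊇ M ∪ (A \ W) ∪ B = M ∪ (A ∪ B)` has `n - (t-1)` elements, more than `n - t`. -/

namespace Pool.Agent.ProfSR
open Finset

theorem frankl {n t : ℕ} (ht : 1 ≤ t) (htn : t ≤ n) {G : Finset (Finset (Fin n))}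
    (hS : Pool.Agent.ProfEP.Shifted G) (hU : Pool.Agent.ProfEP.UBd (n - t) G) {A B : Finset (Fin n)}
    (hA : A ∈ G) (hB : B ∈ G) :
    ∃ i, i ≤ n ∧ (A.filter (fun x : Fin n => (x : ℕ) < i)).card + (B.filter (fun x : Fin n => (x : ℕ) < i)).card + t ≤ i := by
  by_contra hcon
  push Not at hcon
  have hAB := hU A hA B hB
  have hCc : ((A ∪ B)ᶜ).card = n - (A ∪ B).card := by rw [Finset.card_compl, Fintype.card_fin]
  obtain ⟨M, hMC, hMc, hM⟩ := Pool.Agent.ProfEP.exists_top_seg (A ∪ B)ᶜ
    (((A ∪ B)ᶜ).card - (t - 1)) (Nat.sub_le _ _)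
  have hMAB : ∀ x ∈ M, x ∉ A ∪ B := fun x hx => Finset.mem_compl.1 (hMC hx)
  have hMA : ∀ x ∈ M, x ∉ A := fun x hx h => hMAB x hx (Finset.mem_union_left _ h)
  have hd : Disjoint M A := Finset.disjoint_left.2 hMA
  have hCM : (((A ∪ B)ᶜ) \ M).card = t - 1 := by
    rw [Finset.card_sdiff_of_subset hMC, hMc, hCc]
    omega
  have hcond : ∀ m ∈ M, (M.filter (fun m' => m' ≤ m)).card ≤
      ((A ∩ B).filter (fun x => x < m)).card := by
    intro m hm
    have h1 := hcon ((m : ℕ) + 1) m.2
    -- elements of the complement at most `m`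
    have e1 : ((A ∪ B)ᶜ).filter (fun x : Fin n => (x : ℕ) < (m : ℕ) + 1) =
        M.filter (fun m' => m' ≤ m) ∪ (((A ∪ B)ᶜ) \ M) := by
      ext z
      simp only [Finset.mem_filter, Finset.mem_union, Finset.mem_sdiff]
      constructor
      · rintro ⟨hz, hlt⟩
        by_cases hzM : z ∈ M
        · exact Or.inl ⟨hzM, Fin.le_def.2 (by omega)⟩
        · exact Or.inr ⟨hz, hzM⟩
      · rintro (⟨hzM, hle⟩ | ⟨hz, hzM⟩)
        · exact ⟨hMC hzM, by have := Fin.le_def.1 hle; omega⟩
        · refine ⟨hz, ?_⟩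
          by_contra hge
          have hlt : m < z := Fin.lt_def.2 (by omega)
          exact hzM (hM m hm z hz hlt)
    have e2 : Disjoint (M.filter (fun m' => m' ≤ m)) (((A ∪ B)ᶜ) \ M) := by
      rw [Finset.disjoint_left]
      intro z hz hz'
      exact (Finset.mem_sdiff.1 hz').2 (Finset.mem_filter.1 hz).1
    have e3 := Finset.card_union_of_disjoint e2
    rw [← e1, hCM] at e3
    -- total number of elements at most `m`
    have e4 : ((A ∪ B).filter (fun x : Fin n => (x : ℕ) < (m : ℕ) + 1)).card +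
        (((A ∪ B)ᶜ).filter (fun x : Fin n => (x : ℕ) < (m : ℕ) + 1)).card = (m : ℕ) + 1 := by
      have h5 : Disjoint ((A ∪ B).filter (fun x : Fin n => (x : ℕ) < (m : ℕ) + 1))
          (((A ∪ B)ᶜ).filter (fun x : Fin n => (x : ℕ) < (m : ℕ) + 1)) := by
        rw [Finset.disjoint_left]
        intro z hz hz'
        exact (Finset.mem_compl.1 (Finset.mem_filter.1 hz').1) (Finset.mem_filter.1 hz).1
      rw [← Finset.card_union_of_disjoint h5, ← Finset.filter_union, Finset.union_compl]
      have h6 : (Finset.univ : Finset (Fin n)).filter (fun x : Fin n => (x : ℕ) < (m : ℕ) + 1) =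
          Finset.Iic m := by
        ext z
        simp only [Finset.mem_filter, Finset.mem_univ, true_and, Finset.mem_Iic, Fin.le_def]
        omega
      rw [h6, Fin.card_Iic]
    have e5 : ((A ∪ B).filter (fun x : Fin n => (x : ℕ) < (m : ℕ) + 1)).card +
        ((A ∩ B).filter (fun x : Fin n => (x : ℕ) < (m : ℕ) + 1)).card =
        (A.filter (fun x : Fin n => (x : ℕ) < (m : ℕ) + 1)).card +
        (B.filter (fun x : Fin n => (x : ℕ) < (m : ℕ) + 1)).card := by
      rw [Finset.filter_union, Finset.filter_inter_distrib, Finset.card_union_add_card_inter]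
    have e6 : (A ∩ B).filter (fun x : Fin n => (x : ℕ) < (m : ℕ) + 1) =
        (A ∩ B).filter (fun x => x < m) := by
      refine Finset.filter_congr ?_
      intro z hz
      have hne : z ≠ m := fun h => hMA m hm (h ▸ (Finset.mem_inter.1 hz).1)
      have hne' : (z : ℕ) ≠ (m : ℕ) := fun h => hne (Fin.ext h)
      rw [Fin.lt_def]
      omega
    rw [← e6]
    omega
  obtain ⟨A', hA', -, hMA', hAW⟩ := Pool.Agent.ProfEP.match_up hS M.card A (A ∩ B) M rfl hA
    Finset.inter_subset_left hd hcond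
  have h1 := hU A' hA' B hB
  have h2 : M ∪ (A ∪ B) ⊆ A' ∪ B := by
    intro z hz
    rcases Finset.mem_union.1 hz with hz | hz
    · exact Finset.mem_union_left _ (hMA' hz)
    · by_cases hzB : z ∈ B
      · exact Finset.mem_union_right _ hzB
      · rcases Finset.mem_union.1 hz with hzA | hzB'
        · exact Finset.mem_union_left _ (hAW (Finset.mem_sdiff.2
            ⟨hzA, fun h => hzB (Finset.mem_inter.1 h).2⟩))
        · exact absurd hzB' hzB
  have h3 := Finset.card_le_card h2
  have h4 : Disjoint M (A ∪ B) := Finset.disjoint_left.2 hMAB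
  rw [Finset.card_union_of_disjoint h4, hMc, hCc] at h3
  have h5 : (A ∪ B).card ≤ n := by
    have := Finset.card_le_univ (A ∪ B)
    rwa [Fintype.card_fin] at this
  omega

end Pool.Agent.ProfSR
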