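import Pool.Agent.Lib_MP_05ae4a_co.Start
import Pool.Agent.Lib_MP_05ae4a_co.NRef

/-! # Piece GVAL: the families `G_{r,k}`

`Gf n t r k`: sets with at least `k` elements, at least `t+r` of them among the first `t+2r`, and all sets with at least `n+t-k` elements.
`Gf_inter`: two sets of the first kind share `2(t+r) - (t+2r) = t` elements of the first `t+2r`; if one has at least `n+t-k` elements and the other
at least `k` (`k ≤ n+t-k`), `|A ∩ B| ≥ |A| + |B| - n ≥ t`.  (A set of the first kind has `≥ k` elements; of the second `≥ n+t-k ≥ k`.)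
`Gf_val`: `a = t-1`, `A ⊆ range n` ↔ `Finset (Fin n)` (`Finset.map Fin.valEmbedding`), final height `2|A| - n - a`; `|A ∩ [t+2r]| ≥ t+r` iff the height at the
status time `t + 2r = a+1+2r` is positive (`2 |A ∩ [t+2r]| - (t+2r) - a ≥ 1`), i.e. `A ∈ star r` (`r < R a n`).  Levels: height `0`: `2|A| = n+a`; it is `≥ k` iff
`2k ≤ n + a`.  Height `-e` (`e ≥ 1`): `2|A| = n+a-e`, counted in the first kind iff `2k ≤ n+a-e`.  Height `e ≥ 1`, `2|A| = n+a+e`, and `|A| ≥ n+t-k` iff
`2k ≤ n + a + 2 - e`... precisely: `2|A| ≥ 2(n+t-k)` iff `n+a+e ≥ 2n+2a+2-2k` iff `n + a + 2 ≤ 2k + e`; so for `e` (of the right parity) with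
`2k + e < n + a + 2`, i.e. `2k ≤ n+a-e` (parity), the members of height `e` are exactly `star r` ones: their number is
`X n a (-a) (star r) e = X n a (-a) univ e - X n a a (star r) (-e)` (complement, `ht_compl`), otherwise all `X n a (-a) univ e`. -/

namespace Pool.Agent.ProfSR
open Finset

/-- the candidate families -/
def Gf (n t r k : ℕ) : Finset (Finset (Fin n)) :=
  univ.filter (fun A => (t + r ≤ (A.filter (fun x : Fin n => (x : ℕ) < t + 2 * r)).card ∧ k ≤ A.card) ∨
    n + t ≤ A.card + k)

theorem gval_card_lt (n m : ℕ) : (univ.filter (fun x : Fin n => (x : ℕ) < m)).card ≤ m := by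
  have h1 : ((univ.filter (fun x : Fin n => (x : ℕ) < m)).map Fin.valEmbedding) ⊆ range m := by
    intro x hx
    rw [mem_map] at hx
    obtain ⟨y, hy, rfl⟩ := hx
    exact mem_range.2 (mem_filter.1 hy).2
  have h2 := card_le_card h1
  rwa [card_map, card_range] at h2

theorem Gf_inter {n t r k : ℕ} (hk : 2 * k ≤ n + t) : ∀ A ∈ Gf n t r k, ∀ B ∈ Gf n t r k, t ≤ (A ∩ B).card := by
  intro A hA B hB
  have hA2 := (mem_filter.1 hA).2
  have hB2 := (mem_filter.1 hB).2
  have hc : (A ∪ B).card + (A ∩ B).card = A.card + B.card := card_union_add_card_inter A B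
  have hu : (A ∪ B).card ≤ n := by
    have := card_le_univ (A ∪ B)
    rwa [Fintype.card_fin] at this
  have hAk : k ≤ A.card := by
    rcases hA2 with h | h
    · exact h.2
    · omega
  have hBk : k ≤ B.card := by
    rcases hB2 with h | h
    · exact h.2
    · omega
  rcases hA2 with hA3 | hA3
  · rcases hB2 with hB3 | hB3
    · obtain ⟨A', hA', hAA⟩ : ∃ A', A' = A.filter (fun x : Fin n => (x : ℕ) < t + 2 * r) ∧ A' ⊆ A :=
        ⟨_, rfl, filter_subset _ _⟩
      obtain ⟨B', hB', hBB⟩ : ∃ B', B' = B.filter (fun x : Fin n => (x : ℕ) < t + 2 * r) ∧ B' ⊆ B :=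
        ⟨_, rfl, filter_subset _ _⟩
      have h4 := hA3.1
      have h5 := hB3.1
      rw [← hA'] at h4
      rw [← hB'] at h5
      have h1 : (A' ∪ B').card + (A' ∩ B').card = A'.card + B'.card := card_union_add_card_inter _ _
      have h2 : (A' ∪ B').card ≤ t + 2 * r := by
        refine (card_le_card ?_).trans (gval_card_lt n (t + 2 * r))
        intro x hx
        rcases mem_union.1 hx with hx | hx
        · rw [hA'] at hx
          exact mem_filter.2 ⟨mem_univ _, (mem_filter.1 hx).2⟩
        · rw [hB'] at hx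
          exact mem_filter.2 ⟨mem_univ _, (mem_filter.1 hx).2⟩
      have h3 : (A' ∩ B').card ≤ (A ∩ B).card := card_le_card (inter_subset_inter hAA hBB)
      omega
    · omega
  · omega

theorem gval_ht_range (x : ℤ) (A : Finset ℕ) (i : ℕ) :
    ht 0 x A i = x + 2 * ((A ∩ range i).card : ℤ) - i := by
  rw [ht, ← range_eq_Ico]
  push_cast
  ring

theorem gval_st_star {n a r : ℕ} (hr : r < R a n) (A : Finset ℕ) :
    st a n (-(a : ℤ)) A ∈ star r ↔ a + 1 + r ≤ (A ∩ range (a + 1 + 2 * r)).card := by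
  change r ∈ st a n (-(a : ℤ)) A ↔ _
  rw [st, mem_filter, mem_range, gval_ht_range]
  constructor
  · rintro ⟨-, h⟩
    push_cast at h
    omega
  · intro h
    refine ⟨hr, ?_⟩
    push_cast
    omega

theorem gval_X_compl {n a r : ℕ} (hr : r < R a n) (e : ℤ) :
    X n a (-(a : ℤ)) (star r) e + X n a a (star r) (-e) = X n a (-(a : ℤ)) Set.univ e := by
  classical
  have hrn : a + 1 + 2 * r ≤ n := by
    have h := hr
    rw [R] at h
    omega
  have hkey : ∀ A ⊆ range n, (ht 0 (a : ℤ) (range n \ A) n = -e ∧ st a n (a : ℤ) (range n \ A) ∈ star r) ↔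
      (ht 0 (-(a : ℤ)) A n = e ∧ st a n (-(a : ℤ)) A ∉ star r) := by
    intro A hA
    have e1 : ∀ i, i ≤ n → ht 0 (a : ℤ) (range n \ A) i = - ht 0 (-(a : ℤ)) A i := by
      intro i hi
      have h1 : (range n \ A) ∩ range i = (range i \ A) ∩ range i := by
        ext j
        simp only [mem_inter, mem_sdiff, mem_range]
        constructor
        · rintro ⟨⟨h1, h2⟩, h3⟩
          exact ⟨⟨h3, h2⟩, h3⟩
        · rintro ⟨⟨h1, h2⟩, h3⟩
          exact ⟨⟨by omega, h2⟩, h3⟩
      rw [gval_ht_range, gval_ht_range, h1]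
      have h2 : (range i \ A) ∩ range i = range i \ (A ∩ range i) := by
        ext j
        simp only [mem_inter, mem_sdiff, mem_range]
        tauto
      have h3 : (range i \ (A ∩ range i)).card + (A ∩ range i).card = i := by
        rw [card_sdiff_add_card_eq_card inter_subset_right, card_range]
      rw [h2]
      omega
    have e2 : st a n (a : ℤ) (range n \ A) ∈ star r ↔ st a n (-(a : ℤ)) A ∉ star r := by
      change r ∈ st a n (a : ℤ) (range n \ A) ↔ ¬ (r ∈ st a n (-(a : ℤ)) A)
      rw [st, st, mem_filter, mem_filter, mem_range, e1 _ hrn, gval_ht_range]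
      push_cast
      constructor
      · rintro ⟨-, h⟩ ⟨-, h'⟩
        omega
      · intro h
        refine ⟨hr, ?_⟩
        by_contra h'
        exact h ⟨hr, by omega⟩
    rw [e1 n le_rfl, e2, neg_inj]
  have h1 : X n a a (star r) (-e) =
      ((range n).powerset.filter (fun A => ht 0 (-(a : ℤ)) A n = e ∧ st a n (-(a : ℤ)) A ∉ star r)).card := by
    rw [X]
    refine card_nbij' (fun A => range n \ A) (fun A => range n \ A) ?_ ?_ ?_ ?_
    · intro A hA
      rw [mem_coe, mem_filter, mem_powerset] at hA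
      rw [mem_coe, mem_filter, mem_powerset]
      refine ⟨sdiff_subset, ?_⟩
      have h2 := (hkey (range n \ A) sdiff_subset).1
      rw [Finset.sdiff_sdiff_eq_self hA.1] at h2
      exact h2 hA.2
    · intro A hA
      rw [mem_coe, mem_filter, mem_powerset] at hA
      rw [mem_coe, mem_filter, mem_powerset]
      exact ⟨sdiff_subset, (hkey A hA.1).2 hA.2⟩
    · intro A hA
      rw [mem_coe, mem_filter, mem_powerset] at hA
      exact Finset.sdiff_sdiff_eq_self hA.1
    · intro A hA
      rw [mem_coe, mem_filter, mem_powerset] at hA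
      exact Finset.sdiff_sdiff_eq_self hA.1
  have h3 : X n a (-(a : ℤ)) Set.univ e =
      ((range n).powerset.filter (fun A => ht 0 (-(a : ℤ)) A n = e)).card := by
    rw [X]
    congr 1
    ext A
    simp only [mem_filter, Set.mem_univ, and_true]
  rw [h1, h3, X]
  have h2 := card_filter_add_card_filter_not
    (s := (range n).powerset.filter (fun A => ht 0 (-(a : ℤ)) A n = e)) (fun A => st a n (-(a : ℤ)) A ∈ star r)
  rw [filter_filter, filter_filter] at h2
  convert h2 using 2

/-- summing over the integers of an interval symmetric about `0` -/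
theorem gval_sum_Icc (f : ℤ → ℝ) (M : ℕ) :
    ∑ h ∈ Icc (-(M : ℤ)) M, f h = f 0 + ∑ e ∈ Icc 1 M, (f (-(e : ℤ)) + f e) := by
  induction M with
  | zero => simp
  | succ M ih =>
    have h1 : Icc (-((M + 1 : ℕ) : ℤ)) ((M + 1 : ℕ) : ℤ) =
        insert (-((M + 1 : ℕ) : ℤ)) (insert ((M + 1 : ℕ) : ℤ) (Icc (-(M : ℤ)) M)) := by
      ext j
      simp only [mem_insert, mem_Icc]
      push_cast
      omega
    have h2 : -((M + 1 : ℕ) : ℤ) ∉ insert ((M + 1 : ℕ) : ℤ) (Icc (-(M : ℤ)) M) := by
      simp only [mem_insert, mem_Icc]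
      push_cast
      omega
    have h3 : ((M + 1 : ℕ) : ℤ) ∉ Icc (-(M : ℤ)) M := by
      simp only [mem_Icc]
      push_cast
      omega
    rw [h1, sum_insert h2, sum_insert h3, ih, sum_Icc_succ_top (by omega)]
    ring

open Classical in
theorem Gf_val {n t r k : ℕ} (ht : 1 ≤ t) (hr : r < R (t - 1) n) (hk : 2 * k ≤ n + t) (α : ℕ → ℝ) :
    ∑ A ∈ Gf n t r k, α A.card =
      (if 2 * k ≤ n + (t - 1) then bet n (t - 1) α 0 * X n (t - 1) (-((t - 1 : ℕ) : ℤ)) (star r) 0 else 0) +
      ∑ e ∈ Icc 1 (n + (t - 1) + 2),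
        ((if 2 * k + e ≤ n + (t - 1) then
          bet n (t - 1) α (-(e : ℤ)) * X n (t - 1) (-((t - 1 : ℕ) : ℤ)) (star r) (-(e : ℤ)) -
            bet n (t - 1) α e * X n (t - 1) (t - 1 : ℕ) (star r) (-(e : ℤ)) else 0) +
          bet n (t - 1) α e * X n (t - 1) (-((t - 1 : ℕ) : ℤ)) Set.univ e) := by
  obtain ⟨a, rfl⟩ : ∃ a, t = a + 1 := ⟨t - 1, by omega⟩
  rw [Nat.add_sub_cancel] at hr ⊢
  set Q : Finset ℕ → Prop := fun A => (a + 1 + r ≤ (A ∩ range (a + 1 + 2 * r)).card ∧ k ≤ A.card) ∨
    n + (a + 1) ≤ A.card + k with hQ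
  -- step 1: sets of natural numbers
  have s1 : ∑ A ∈ Gf n (a + 1) r k, α A.card = ∑ A ∈ (range n).powerset.filter Q, α A.card := by
    have hQA : ∀ A : Finset (Fin n), Q (A.map Fin.valEmbedding) ↔
        ((a + 1 + r ≤ (A.filter (fun x : Fin n => (x : ℕ) < a + 1 + 2 * r)).card ∧ k ≤ A.card) ∨
          n + (a + 1) ≤ A.card + k) := by
      intro A
      have h1 : A.map Fin.valEmbedding ∩ range (a + 1 + 2 * r) =
          (A.filter (fun x : Fin n => (x : ℕ) < a + 1 + 2 * r)).map Fin.valEmbedding := by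
        ext j
        simp only [mem_inter, mem_map, mem_range, mem_filter, Fin.valEmbedding_apply]
        constructor
        · rintro ⟨⟨x, hx, rfl⟩, h⟩
          exact ⟨x, ⟨hx, h⟩, rfl⟩
        · rintro ⟨x, ⟨hx, h⟩, rfl⟩
          exact ⟨⟨x, hx, rfl⟩, h⟩
      rw [hQ]
      simp only [h1, card_map]
    refine sum_nbij (fun A => A.map Fin.valEmbedding) ?_ ?_ ?_ ?_
    · intro A hA
      rw [Gf, mem_filter] at hA
      rw [mem_filter, mem_powerset]
      refine ⟨?_, (hQA A).2 hA.2⟩
      intro x hx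
      rw [mem_map] at hx
      obtain ⟨y, -, rfl⟩ := hx
      exact mem_range.2 y.2
    · intro A _ B _ hAB
      exact map_injective Fin.valEmbedding hAB
    · intro B hB
      rw [mem_coe, mem_filter, mem_powerset] at hB
      have hBA : ((univ : Finset (Fin n)).filter (fun x : Fin n => (x : ℕ) ∈ B)).map Fin.valEmbedding = B := by
        ext j
        simp only [mem_map, mem_filter, mem_univ, true_and, Fin.valEmbedding_apply]
        constructor
        · rintro ⟨x, hx, rfl⟩
          exact hx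
        · intro hj
          exact ⟨⟨j, mem_range.1 (hB.1 hj)⟩, hj, rfl⟩
      refine ⟨univ.filter (fun x : Fin n => (x : ℕ) ∈ B), ?_, hBA⟩
      rw [mem_coe, Gf, mem_filter]
      refine ⟨mem_univ _, (hQA _).1 ?_⟩
      rw [hBA]
      exact hB.2
    · intro A _
      rw [card_map]
  -- the height at time `n`
  have hh : ∀ A ∈ (range n).powerset.filter Q, ProfSR.ht 0 (-(a : ℤ)) A n = 2 * (A.card : ℤ) - n - a := by
    intro A hA
    rw [mem_filter, mem_powerset] at hA
    rw [gval_ht_range, inter_eq_left.2 hA.1]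
    ring
  have hcard : ∀ A ∈ (range n).powerset.filter Q, A.card ≤ n := by
    intro A hA
    rw [mem_filter, mem_powerset] at hA
    have := card_le_card hA.1
    rwa [card_range] at this
  -- step 2: sort by the height
  have s2 : ∑ A ∈ (range n).powerset.filter Q, α A.card =
      ∑ h ∈ Icc (-((n + a + 2 : ℕ) : ℤ)) ((n + a + 2 : ℕ) : ℤ),
        bet n a α h * (((range n).powerset.filter Q).filter (fun A => ProfSR.ht 0 (-(a : ℤ)) A n = h)).card := by
    rw [← sum_fiberwise_of_maps_to (t := Icc (-((n + a + 2 : ℕ) : ℤ)) ((n + a + 2 : ℕ) : ℤ))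
      (g := fun A => ProfSR.ht 0 (-(a : ℤ)) A n)]
    · refine sum_congr rfl fun h _ => ?_
      rw [sum_congr rfl (g := fun _ => bet n a α h), sum_const, nsmul_eq_mul, mul_comm]
      intro A hA
      rw [mem_filter] at hA
      have h1 := hh A hA.1
      rw [hA.2] at h1
      rw [bet, h1]
      congr 1
      omega
    · intro A hA
      have h1 := hh A hA
      have h2 := hcard A hA
      rw [mem_Icc, h1]
      push_cast
      omega
  rw [s1, s2, gval_sum_Icc]
  -- the three kinds of levels
  have hX1 : ∀ h : ℤ, (X n a (-(a : ℤ)) (star r) h : ℝ) =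
      (((range n).powerset.filter (fun A => ProfSR.ht 0 (-(a : ℤ)) A n = h ∧
        a + 1 + r ≤ (A ∩ range (a + 1 + 2 * r)).card)).card : ℝ) := by
    intro h
    rw [X]
    norm_cast
    congr 1
    ext A
    simp only [mem_filter, gval_st_star hr]
  have hX2 : ∀ h : ℤ, (X n a (-(a : ℤ)) Set.univ h : ℝ) =
      (((range n).powerset.filter (fun A => ProfSR.ht 0 (-(a : ℤ)) A n = h)).card : ℝ) := by
    intro h
    rw [X]
    norm_cast
    congr 1
    ext A
    simp only [mem_filter, Set.mem_univ, and_true]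
  have hht : ∀ A ∈ (range n).powerset, ProfSR.ht 0 (-(a : ℤ)) A n = 2 * (A.card : ℤ) - n - a := by
    intro A hA
    rw [mem_powerset] at hA
    rw [gval_ht_range, inter_eq_left.2 hA]
    ring
  -- first kind only
  have c1 : ∀ h : ℤ, h ≤ 0 → ((((range n).powerset.filter Q).filter
      (fun A => ProfSR.ht 0 (-(a : ℤ)) A n = h)).card : ℝ) =
      if 2 * (k : ℤ) ≤ n + a + h then (X n a (-(a : ℤ)) (star r) h : ℝ) else 0 := by
    intro h hh0
    split_ifs with hc
    · rw [hX1]
      norm_cast
      rw [filter_filter]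
      congr 1
      refine filter_congr fun A hA => ?_
      have h1 := hht A hA
      rw [hQ]
      constructor
      · rintro ⟨h2 | h2, h3⟩
        · exact ⟨h3, h2.1⟩
        · omega
      · rintro ⟨h2, h3⟩
        exact ⟨Or.inl ⟨h3, by omega⟩, h2⟩
    · norm_cast
      rw [card_eq_zero, filter_eq_empty_iff]
      intro A hA h3
      rw [mem_filter] at hA
      have h1 := hht A hA.1
      have h2 := hA.2
      rw [hQ] at h2
      rcases h2 with h2 | h2
      · omega
      · omega
  have c2 : ∀ e : ℕ, 1 ≤ e → ((((range n).powerset.filter Q).filter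
      (fun A => ProfSR.ht 0 (-(a : ℤ)) A n = e)).card : ℝ) =
      (if 2 * k + e ≤ n + a then - (X n a a (star r) (-(e : ℤ)) : ℝ) else 0) +
        (X n a (-(a : ℤ)) Set.univ e : ℝ) := by
    intro e he
    split_ifs with hc
    · have h5 := gval_X_compl hr (e : ℤ)
      have h6 : (X n a (-(a : ℤ)) Set.univ e : ℝ) = X n a (-(a : ℤ)) (star r) e +
          X n a a (star r) (-(e : ℤ)) := by
        exact_mod_cast h5.symm
      rw [h6, neg_add_cancel_comm_assoc, hX1]
      norm_cast
      rw [filter_filter]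
      congr 1
      refine filter_congr fun A hA => ?_
      have h1 := hht A hA
      rw [hQ]
      constructor
      · rintro ⟨h2 | h2, h3⟩
        · exact ⟨h3, h2.1⟩
        · omega
      · rintro ⟨h2, h3⟩
        exact ⟨Or.inl ⟨h3, by omega⟩, h2⟩
    · rw [zero_add, hX2]
      norm_cast
      rw [filter_filter]
      congr 1
      refine filter_congr fun A hA => ?_
      have h1 := hht A hA
      rw [hQ]
      constructor
      · rintro ⟨h2, h3⟩
        exact h3
      · intro h3
        exact ⟨Or.inr (by omega), h3⟩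
  congr 1
  · rw [c1 0 le_rfl, mul_ite, mul_zero]
    refine if_congr ?_ rfl rfl
    omega
  · refine sum_congr rfl fun e he => ?_
    rw [mem_Icc] at he
    rw [c1 (-(e : ℤ)) (by omega), c2 e he.1]
    have hiff : (2 * (k : ℤ) ≤ n + a + -(e : ℤ)) ↔ 2 * k + e ≤ n + a := by omega
    by_cases hc : 2 * k + e ≤ n + a
    · rw [if_pos (hiff.2 hc), if_pos hc, if_pos hc]
      ring
    · rw [if_neg (fun h => hc (hiff.1 h)), if_neg hc, if_neg hc]
      ring

end Pool.Agent.ProfSR
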