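import Pool.Agent.Lib_MP_05ae4a_co.Defs

/-! # Piece PIV1: the first pivot inequality

`r0` = least `i` with `range (i+1) ∈ J`.  Walks `A ⊆ range n`.  A zero of the walk started at `x` is a time `i ≤ n` with `ht 0 x A i = 0`.
Heights at the status times are odd (`x = ±a`), never `0`.
For `u ≤ v ≤ n` the reflected set `A ∆ Ico u v` (`symmDiff`) has, if `ht 0 x A u = 0` (resp. `u = 0` and start `-x`), the heights: unchanged for `i ≤ u`,
`-ht` for `u ≤ i ≤ v`; and unchanged for `i ≥ v` if also `ht 0 x A v = 0`.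

`pivot_X` (start `-a ≤ 0`, end `h ≤ 0`).  If the walk has no zero then all its heights are negative, `st = ∅ ∉ J` (`int` with itself).  Let `u ≤ v` be the first and
last zero, `A' = A ∆ Ico u v` (involution, same zeros).  Statuses at times `< u` and `> v` are negative; `st A ∩ st A' = ∅`, so not both in `J`.  If `st A ∈ J` then
`u < T0 < v`, `T0 = a+1+2 r0`: if `v ≤ T0` then `st A ⊆ range r0`, and `range r0 ∉ J` (`h2`, or `r0 = 0` and `∅ ∉ J`); if `T0 < u` then `st A` is disjoint from `range (r0+1) ∈ J`.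
So exactly one of `A, A'` is positive at `T0`: the map `A ↦ (A if r0 ∈ st A, else A')` is injective from the walks with `st ∈ J` to those with `r0 ∈ st`
(if `A ≠ B` have the same image then `B = A'`, both in `J`). -/

namespace Pool.Agent.ProfSR
open Finset

namespace PivX

theorem ht_agree {x : ℤ} {B B' : Finset ℕ} {i : ℕ} (h : ∀ j, j < i → (j ∈ B ↔ j ∈ B')) :
    ht 0 x B i = ht 0 x B' i := by
  have : B ∩ Ico 0 i = B' ∩ Ico 0 i := by
    ext j
    simp only [mem_inter, mem_Ico]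
    constructor
    · rintro ⟨h1, h2, h3⟩
      exact ⟨(h j h3).1 h1, h2, h3⟩
    · rintro ⟨h1, h2, h3⟩
      exact ⟨(h j h3).2 h1, h2, h3⟩
  rw [ht, ht, this]

theorem step (x : ℤ) (A : Finset ℕ) (i : ℕ) :
    ht 0 x A (i + 1) = ht 0 x A i + 1 ∨ ht 0 x A (i + 1) = ht 0 x A i - 1 := by
  by_cases h : i ∈ A
  · exact Or.inl (ht_succ_mem (Nat.zero_le _) h)
  · exact Or.inr (ht_succ_not h)

theorem ivt_up {x : ℤ} {A : Finset ℕ} {i j : ℕ} (hij : i ≤ j) (h1 : ht 0 x A i ≤ 0) (h2 : 0 < ht 0 x A j) :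
    ∃ k, i ≤ k ∧ k < j ∧ ht 0 x A k = 0 := by
  induction j, hij using Nat.le_induction with
  | base => omega
  | succ j hj ih =>
    by_cases h : 0 < ht 0 x A j
    · obtain ⟨k, hk1, hk2, hk3⟩ := ih h
      exact ⟨k, hk1, by omega, hk3⟩
    · refine ⟨j, hj, by omega, ?_⟩
      rcases step x A j with h3 | h3 <;> omega

theorem ivt_dn {x : ℤ} {A : Finset ℕ} {i j : ℕ} (hij : i ≤ j) (h1 : 0 < ht 0 x A i) (h2 : ht 0 x A j ≤ 0) :
    ∃ k, i < k ∧ k ≤ j ∧ ht 0 x A k = 0 := by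
  induction j, hij using Nat.le_induction with
  | base => omega
  | succ j hj ih =>
    by_cases h : ht 0 x A j ≤ 0
    · obtain ⟨k, hk1, hk2, hk3⟩ := ih h
      exact ⟨k, hk1, by omega, hk3⟩
    · refine ⟨j + 1, by omega, le_rfl, ?_⟩
      rcases step x A j with h3 | h3 <;> omega

/-- zeros -/
noncomputable def zs (n : ℕ) (x : ℤ) (A : Finset ℕ) : Finset ℕ := (range (n + 1)).filter (fun i => ht 0 x A i = 0)

theorem mem_zs {n : ℕ} {x : ℤ} {A : Finset ℕ} {i : ℕ} : i ∈ zs n x A ↔ i ≤ n ∧ ht 0 x A i = 0 := by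
  simp [zs]

/-- first zero -/
noncomputable def fz (n : ℕ) (x : ℤ) (A : Finset ℕ) : ℕ := sInf {i | i ∈ zs n x A}

/-- last zero -/
noncomputable def lz (n : ℕ) (x : ℤ) (A : Finset ℕ) : ℕ := (zs n x A).sup id

theorem fz_le {n : ℕ} {x : ℤ} {A : Finset ℕ} {i : ℕ} (h : i ∈ zs n x A) : fz n x A ≤ i := Nat.sInf_le h

theorem le_lz {n : ℕ} {x : ℤ} {A : Finset ℕ} {i : ℕ} (h : i ∈ zs n x A) : i ≤ lz n x A :=
  Finset.le_sup (f := id) h

theorem fz_mem {n : ℕ} {x : ℤ} {A : Finset ℕ} (h : (zs n x A).Nonempty) : fz n x A ∈ zs n x A := by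
  obtain ⟨i, hi⟩ := h
  exact Nat.sInf_mem (s := {i | i ∈ zs n x A}) ⟨i, hi⟩

theorem lz_mem {n : ℕ} {x : ℤ} {A : Finset ℕ} (h : (zs n x A).Nonempty) : lz n x A ∈ zs n x A := by
  obtain ⟨i, hi, h2⟩ := Finset.exists_mem_eq_sup (zs n x A) h id
  rw [lz, h2]
  exact hi

theorem fz_le_lz {n : ℕ} {x : ℤ} {A : Finset ℕ} (h : (zs n x A).Nonempty) : fz n x A ≤ lz n x A :=
  fz_le (lz_mem h)

/-- the reflected walk -/
noncomputable def rf (n : ℕ) (x : ℤ) (A : Finset ℕ) : Finset ℕ := symmDiff A (Ico (fz n x A) (lz n x A))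

theorem mem_rf {n : ℕ} {x : ℤ} {A : Finset ℕ} {i : ℕ} :
    i ∈ rf n x A ↔ (if fz n x A ≤ i ∧ i < lz n x A then i ∉ A else i ∈ A) := by
  rw [rf, mem_symmDiff, mem_Ico]
  split_ifs with h <;> tauto

theorem ht_rf_lo {n : ℕ} {x : ℤ} {A : Finset ℕ} {i : ℕ} (hi : i ≤ fz n x A) :
    ht 0 x (rf n x A) i = ht 0 x A i := by
  refine ht_agree fun j hj => ?_
  rw [mem_rf, if_neg (by omega)]

theorem ht_rf_mid {n : ℕ} {x : ℤ} {A : Finset ℕ} (h : (zs n x A).Nonempty) {i : ℕ} (hi : fz n x A ≤ i)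
    (hi2 : i ≤ lz n x A) : ht 0 x (rf n x A) i = - ht 0 x A i := by
  induction i, hi using Nat.le_induction with
  | base =>
    rw [ht_rf_lo le_rfl, (mem_zs.1 (fz_mem h)).2]
    rfl
  | succ i hi ih =>
    have ih := ih (by omega)
    by_cases hA : i ∈ A
    · have hB : i ∉ rf n x A := by
        rw [mem_rf, if_pos ⟨hi, by omega⟩]
        simpa using hA
      rw [ht_succ_mem (Nat.zero_le _) hA, ht_succ_not hB, ih]
      ring
    · have hB : i ∈ rf n x A := by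
        rw [mem_rf, if_pos ⟨hi, by omega⟩]
        exact hA
      rw [ht_succ_not hA, ht_succ_mem (Nat.zero_le _) hB, ih]
      ring

theorem ht_rf_hi {n : ℕ} {x : ℤ} {A : Finset ℕ} (h : (zs n x A).Nonempty) {i : ℕ} (hi : lz n x A ≤ i) :
    ht 0 x (rf n x A) i = ht 0 x A i := by
  induction i, hi using Nat.le_induction with
  | base =>
    rw [ht_rf_mid h (fz_le_lz h) le_rfl, (mem_zs.1 (lz_mem h)).2]
    rfl
  | succ i hi ih =>
    by_cases hA : i ∈ A
    · have hB : i ∈ rf n x A := by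
        rw [mem_rf, if_neg (by omega)]
        exact hA
      rw [ht_succ_mem (Nat.zero_le _) hA, ht_succ_mem (Nat.zero_le _) hB, ih]
    · have hB : i ∉ rf n x A := by
        rw [mem_rf, if_neg (by omega)]
        exact hA
      rw [ht_succ_not hA, ht_succ_not hB, ih]

theorem zs_rf {n : ℕ} {x : ℤ} {A : Finset ℕ} (h : (zs n x A).Nonempty) : zs n x (rf n x A) = zs n x A := by
  ext i
  rw [mem_zs, mem_zs]
  have : ht 0 x (rf n x A) i = 0 ↔ ht 0 x A i = 0 := by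
    rcases le_total i (fz n x A) with h1 | h1
    · rw [ht_rf_lo h1]
    rcases le_total i (lz n x A) with h2 | h2
    · rw [ht_rf_mid h h1 h2]
      exact neg_eq_zero
    · rw [ht_rf_hi h h2]
  rw [this]

theorem rf_rf {n : ℕ} {x : ℤ} {A : Finset ℕ} (h : (zs n x A).Nonempty) : rf n x (rf n x A) = A := by
  have h1 := zs_rf h
  have h2 : fz n x (rf n x A) = fz n x A := by rw [fz, fz, h1]
  have h3 : lz n x (rf n x A) = lz n x A := by rw [lz, lz, h1]
  rw [rf, h2, h3, rf, symmDiff_symmDiff_cancel_right]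

theorem rf_sub {n : ℕ} {x : ℤ} {A : Finset ℕ} (h : (zs n x A).Nonempty) (hA : A ⊆ range n) :
    rf n x A ⊆ range n := by
  intro i hi
  rw [mem_rf] at hi
  split_ifs at hi with h1
  · have := (mem_zs.1 (lz_mem h)).1
    rw [mem_range]
    omega
  · exact hA hi

/-- a positive height lies between the first and the last zero -/
theorem pos_between {n : ℕ} {x : ℤ} {A : Finset ℕ} (hx : x ≤ 0) (hn : ht 0 x A n ≤ 0) {i : ℕ} (hi : i ≤ n)
    (h : 0 < ht 0 x A i) : (zs n x A).Nonempty ∧ fz n x A ≤ i ∧ i ≤ lz n x A := by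
  obtain ⟨k, hk1, hk2, hk3⟩ := ivt_up (Nat.zero_le i) (by rw [ht_self]; exact hx) h
  obtain ⟨k', hk1', hk2', hk3'⟩ := ivt_dn hi h hn
  have m1 : k ∈ zs n x A := mem_zs.2 ⟨by omega, hk3⟩
  have m2 : k' ∈ zs n x A := mem_zs.2 ⟨hk2', hk3'⟩
  have := fz_le m1
  have := le_lz m2
  exact ⟨⟨k, m1⟩, by omega, by omega⟩

theorem lt_R {a n r : ℕ} : r < R a n ↔ a + 1 + 2 * r < n := by
  rw [R]
  omega

theorem mem_st {a n : ℕ} {x : ℤ} {A : Finset ℕ} {r : ℕ} :
    r ∈ st a n x A ↔ r < R a n ∧ 0 < ht 0 x A (a + 1 + 2 * r) := by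
  rw [st, mem_filter, mem_range]

theorem ht_ne {a r : ℕ} {A : Finset ℕ} : ht 0 (-(a : ℤ)) A (a + 1 + 2 * r) ≠ 0 := by
  intro h
  obtain ⟨k, hk⟩ := ht_parity 0 (-(a : ℤ)) A (a + 1 + 2 * r)
  rw [h] at hk
  push_cast at hk
  omega

theorem disj_st {a n : ℕ} {A : Finset ℕ} (hn : ht 0 (-(a : ℤ)) A n ≤ 0) :
    Disjoint (st a n (-(a : ℤ)) A) (st a n (-(a : ℤ)) (rf n (-(a : ℤ)) A)) := by
  rw [Finset.disjoint_left]
  intro r h1 h2
  rw [mem_st] at h1 h2
  obtain ⟨h3, h4, h5⟩ := pos_between (by omega) hn (le_of_lt (lt_R.1 h1.1)) h1.2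
  rw [ht_rf_mid h3 h4 h5] at h2
  omega

/-- the pivot lies between the first and the last zero -/
theorem pivot_between {n a : ℕ} {J : Set (Finset ℕ)} (hJ : IU (R a n) J) {r0 : ℕ} (h1 : range (r0 + 1) ∈ J)
    (h2 : ∀ i < r0, range (i + 1) ∉ J) {A : Finset ℕ} (hn : ht 0 (-(a : ℤ)) A n ≤ 0)
    (hA : st a n (-(a : ℤ)) A ∈ J) :
    (zs n (-(a : ℤ)) A).Nonempty ∧ fz n (-(a : ℤ)) A ≤ a + 1 + 2 * r0 ∧ a + 1 + 2 * r0 ≤ lz n (-(a : ℤ)) A := by
  have hne : (st a n (-(a : ℤ)) A).Nonempty := by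
    rw [Finset.nonempty_iff_ne_empty]
    intro h
    exact hJ.int _ hA _ hA (by rw [h]; exact Finset.disjoint_empty_left _)
  have hz : (zs n (-(a : ℤ)) A).Nonempty := by
    obtain ⟨r, hr⟩ := hne
    rw [mem_st] at hr
    exact (pos_between (by omega) hn (le_of_lt (lt_R.1 hr.1)) hr.2).1
  refine ⟨hz, ?_, ?_⟩
  · -- otherwise disjoint from range (r0+1)
    by_contra hc
    refine hJ.int _ hA _ h1 ?_
    rw [Finset.disjoint_left]
    intro r hr1 hr2
    rw [mem_st] at hr1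
    rw [mem_range] at hr2
    have := (pos_between (by omega) hn (le_of_lt (lt_R.1 hr1.1)) hr1.2).2.1
    omega
  · by_contra hc
    have hsub : st a n (-(a : ℤ)) A ⊆ range r0 := by
      intro r hr
      rw [mem_st] at hr
      have := (pos_between (by omega) hn (le_of_lt (lt_R.1 hr.1)) hr.2).2.2
      rw [mem_range]
      omega
    have hr0 : r0 ≠ 0 := by
      rintro rfl
      obtain ⟨r, hr⟩ := hne
      have := hsub hr
      simp at this
    have hR : range (r0 - 1 + 1) ⊆ range (R a n) := by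
      have := hJ.sub _ h1
      rw [Nat.sub_add_cancel (by omega)]
      exact (Finset.range_subset_range.2 (Nat.le_succ _)).trans this
    refine h2 (r0 - 1) (by omega) (hJ.up _ hA _ hR ?_)
    rw [Nat.sub_add_cancel (by omega)]
    exact hsub

end PivX

open PivX in
/-- PIV1 -/
theorem pivot_X {n a : ℕ} {J : Set (Finset ℕ)} (hJ : IU (R a n) J) {r0 : ℕ} (h1 : range (r0 + 1) ∈ J)
    (h2 : ∀ i < r0, range (i + 1) ∉ J) {h : ℤ} (hh : h ≤ 0) :
    X n a (-(a : ℤ)) J h ≤ X n a (-(a : ℤ)) (star r0) h := by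
  classical
  have hr0 : r0 < R a n := by
    have := hJ.sub _ h1 (mem_range.2 (Nat.lt_succ_self r0))
    exact mem_range.1 this
  rw [X, X]
  refine Finset.card_le_card_of_injOn
    (fun A => if r0 ∈ st a n (-(a : ℤ)) A then A else rf n (-(a : ℤ)) A) ?_ ?_
  · intro A hA
    rw [Finset.mem_coe, Finset.mem_filter, Finset.mem_powerset] at hA
    obtain ⟨hA1, hA2, hA3⟩ := hA
    rw [Finset.mem_coe, Finset.mem_filter, Finset.mem_powerset]
    beta_reduce
    by_cases hr : r0 ∈ st a n (-(a : ℤ)) A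
    · rw [if_pos hr]
      exact ⟨hA1, hA2, hr⟩
    · rw [if_neg hr]
      obtain ⟨hz, hb1, hb2⟩ := pivot_between hJ h1 h2 (by omega) hA3
      refine ⟨rf_sub hz hA1, ?_, ?_⟩
      · rw [ht_rf_hi hz (mem_zs.1 (lz_mem hz)).1]
        exact hA2
      · show r0 ∈ st a n (-(a : ℤ)) (rf n (-(a : ℤ)) A)
        rw [mem_st] at hr ⊢
        refine ⟨hr0, ?_⟩
        rw [ht_rf_mid hz hb1 hb2]
        have := ht_ne (a := a) (r := r0) (A := A)
        have : ¬ 0 < ht 0 (-(a : ℤ)) A (a + 1 + 2 * r0) := fun h => hr ⟨hr0, h⟩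
        omega
  · intro A hA B hB hAB
    rw [Finset.mem_coe, Finset.mem_filter, Finset.mem_powerset] at hA hB
    obtain ⟨hA1, hA2, hA3⟩ := hA
    obtain ⟨hB1, hB2, hB3⟩ := hB
    obtain ⟨zA, -, -⟩ := pivot_between hJ h1 h2 (by omega) hA3
    obtain ⟨zB, -, -⟩ := pivot_between hJ h1 h2 (by omega) hB3
    dsimp only at hAB
    split_ifs at hAB with c1 c2 c2
    · exact hAB
    · exfalso
      refine hJ.int _ hB3 _ hA3 ?_
      rw [hAB]
      exact disj_st (by omega)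
    · exfalso
      refine hJ.int _ hA3 _ hB3 ?_
      rw [← hAB]
      exact disj_st (by omega)
    · rw [← rf_rf zA, hAB, rf_rf zB]

end Pool.Agent.ProfSR
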