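import Pool.Agent.Lib_MP_05ae4a_co.Defs

/-! # Piece PIV2: the second pivot inequality

`r0` = least `i` with `range (i+1) ∈ J`.  Walks `A ⊆ range n`.  A zero of the walk started at `x` is a time `i ≤ n` with `ht 0 x A i = 0`.
Heights at the status times are odd (`x = ±a`), never `0`.
For `u ≤ v ≤ n` the reflected set `A ∆ Ico u v` (`symmDiff`) has, if `ht 0 x A u = 0` (resp. `u = 0` and start `-x`), the heights: unchanged for `i ≤ u`,
`-ht` for `u ≤ i ≤ v`; and unchanged for `i ≥ v` if also `ht 0 x A v = 0`.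

`pivot_Y`.  Every walk `C` from `a` to `h ≤ 0` has a zero; let `u` be the first one and `C' = C ∆ Ico 0 u`, a walk from `-a` with first zero `u`:
bijection onto the walks from `-a` to `h` having a zero; `st C' ⊆ st C` (the statuses before `u` change from `+` to `-`, the others agree).  So
`X a J h - X (-a) J h = #{C : st C ∈ J, st C' ∉ J}` (walks from `-a` without zero have `st = ∅ ∉ J`; `J` up-set), the same for `star r0`:
`= #{C : T0 < u}` ; such `C` has `range (r0+1) ⊆ st C`, so `st C ∈ J`, and `st C'` is disjoint from `range (r0+1)`, so `st C' ∉ J`. -/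

namespace Pool.Agent.ProfSR
open Finset

theorem PIV2_card_le {C : Finset ℕ} {u i : ℕ} (hi : i ≤ u) :
    ((symmDiff C (range u)) ∩ Ico 0 i).card + (C ∩ Ico 0 i).card = i := by
  have h1 : (symmDiff C (range u)) ∩ Ico 0 i = Ico 0 i \ (C ∩ Ico 0 i) := by
    ext j
    simp only [mem_inter, mem_symmDiff, mem_range, mem_Ico, mem_sdiff]
    constructor
    · rintro ⟨h | h, h2⟩
      · omega
      · exact ⟨h2, fun h3 => h.2 h3.1⟩
    · rintro ⟨h2, h3⟩
      exact ⟨Or.inr ⟨by omega, fun h4 => h3 ⟨h4, h2⟩⟩, h2⟩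
  have h2 : (C ∩ Ico 0 i) ⊆ Ico 0 i := inter_subset_right
  have h3 := card_sdiff_add_card_eq_card h2
  rw [h1, h3]
  simp

theorem PIV2_card_split {B : Finset ℕ} {u i : ℕ} (hi : u ≤ i) :
    (B ∩ Ico 0 i).card = (B ∩ Ico 0 u).card + (B ∩ Ico u i).card := by
  have h1 : B ∩ Ico 0 i = (B ∩ Ico 0 u) ∪ (B ∩ Ico u i) := by
    ext j
    simp only [mem_inter, mem_union, mem_Ico]
    constructor
    · rintro ⟨h1, h2⟩
      by_cases hj : j < u
      · exact Or.inl ⟨h1, by omega⟩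
      · exact Or.inr ⟨h1, by omega⟩
    · rintro (⟨h1, h2⟩ | ⟨h1, h2⟩)
      · exact ⟨h1, by omega⟩
      · exact ⟨h1, by omega⟩
  rw [h1, card_union_of_disjoint]
  rw [disjoint_left]
  intro j hj hj2
  simp only [mem_inter, mem_Ico] at hj hj2
  omega

/-- reflected heights before `u` -/
theorem PIV2_ht_le {x : ℤ} {C : Finset ℕ} {u i : ℕ} (hi : i ≤ u) :
    ht 0 (-x) (symmDiff C (range u)) i = - ht 0 x C i := by
  have h := PIV2_card_le (C := C) hi
  have h' : (((symmDiff C (range u)) ∩ Ico 0 i).card : ℤ) + ((C ∩ Ico 0 i).card : ℤ) = i := by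
    exact_mod_cast h
  simp only [ht]
  push_cast
  linarith

/-- heights after `u` -/
theorem PIV2_ht_ge {x : ℤ} {C : Finset ℕ} {u i : ℕ} (hi : u ≤ i) (h0 : ht 0 x C u = 0) :
    ht 0 (-x) (symmDiff C (range u)) i = ht 0 x C i := by
  have h := PIV2_card_le (C := C) (le_refl u)
  have h' : (((symmDiff C (range u)) ∩ Ico 0 u).card : ℤ) + ((C ∩ Ico 0 u).card : ℤ) = u := by
    exact_mod_cast h
  have h1 := PIV2_card_split (B := C) hi
  have h2 := PIV2_card_split (B := symmDiff C (range u)) hi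
  have h3 : (symmDiff C (range u)) ∩ Ico u i = C ∩ Ico u i := by
    ext j
    simp only [mem_inter, mem_symmDiff, mem_range, mem_Ico]
    constructor
    · rintro ⟨h | h, h2⟩
      · exact ⟨h.1, h2⟩
      · omega
    · rintro ⟨h, h2⟩
      exact ⟨Or.inl ⟨h, by omega⟩, h2⟩
  rw [h3] at h2
  simp only [ht] at h0 ⊢
  rw [h1, h2]
  push_cast at h0 ⊢
  linarith

theorem PIV2_step (x : ℤ) (B : Finset ℕ) (i : ℕ) :
    ht 0 x B (i + 1) = ht 0 x B i + 1 ∨ ht 0 x B (i + 1) = ht 0 x B i - 1 := by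
  by_cases h : i ∈ B
  · exact Or.inl (ht_succ_mem (Nat.zero_le _) h)
  · exact Or.inr (ht_succ_not h)

/-- first time with height `≤ 0` -/
noncomputable def PIV2_u (x : ℤ) (C : Finset ℕ) : ℕ := sInf {i | ht 0 x C i ≤ 0}

theorem PIV2_u_spec {x : ℤ} (hx : 0 ≤ x) {C : Finset ℕ} {k : ℕ} (hk : ht 0 x C k ≤ 0) :
    PIV2_u x C ≤ k ∧ ht 0 x C (PIV2_u x C) = 0 ∧ ∀ i < PIV2_u x C, 0 < ht 0 x C i := by
  have hne : {i | ht 0 x C i ≤ 0}.Nonempty := ⟨k, hk⟩
  have h1 : ht 0 x C (PIV2_u x C) ≤ 0 := Nat.sInf_mem hne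
  have h2 : ∀ i < PIV2_u x C, 0 < ht 0 x C i := by
    intro i hi
    by_contra hcon
    push Not at hcon
    exact absurd (Nat.sInf_le (show i ∈ {i | ht 0 x C i ≤ 0} from hcon)) (not_le.2 hi)
  refine ⟨Nat.sInf_le hk, ?_, h2⟩
  rcases Nat.eq_zero_or_pos (PIV2_u x C) with h | h
  · rw [h, ht_self] at h1 ⊢
    omega
  · obtain ⟨j, hj⟩ : ∃ j, PIV2_u x C = j + 1 := ⟨PIV2_u x C - 1, by omega⟩
    have h3 := h2 j (by omega)
    rw [hj] at h1 ⊢
    rcases PIV2_step x C j with h4 | h4 <;> omega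

/-- characterisation of the first time -/
theorem PIV2_u_eq {x : ℤ} {C : Finset ℕ} {u : ℕ} (h0 : ht 0 x C u = 0)
    (h1 : ∀ i < u, 0 < ht 0 x C i) : PIV2_u x C = u := by
  apply le_antisymm
  · exact Nat.sInf_le (show u ∈ {i | ht 0 x C i ≤ 0} from h0.le)
  · apply le_csInf ⟨u, h0.le⟩
    intro i hi
    by_contra hcon
    push Not at hcon
    exact absurd (h1 i hcon) (not_lt.2 hi)

/-- the reflection -/
noncomputable def PIV2_r (x : ℤ) (C : Finset ℕ) : Finset ℕ := symmDiff C (range (PIV2_u x C))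

theorem PIV2_sub {n u : ℕ} {C : Finset ℕ} (hC : C ⊆ range n) (hu : u ≤ n) :
    symmDiff C (range u) ⊆ range n := by
  intro j hj
  rw [mem_symmDiff] at hj
  rcases hj with h | h
  · exact hC h.1
  · have := h.1
    rw [mem_range] at this ⊢
    omega

theorem PIV2_inv (C : Finset ℕ) (u : ℕ) : symmDiff (symmDiff C (range u)) (range u) = C := by
  rw [symmDiff_assoc, symmDiff_self]
  exact symmDiff_bot C

open Classical in
/-- the walks from `a` to `h` -/
noncomputable def PIV2_W (n a : ℕ) (h : ℤ) : Finset (Finset ℕ) :=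
  (range n).powerset.filter fun C => ht 0 (a : ℤ) C n = h

open Classical in
theorem PIV2_bij {n a : ℕ} {J : Set (Finset ℕ)} (hJ : ∅ ∉ J) {h : ℤ} (hh : h ≤ 0) :
    ((PIV2_W n a h).filter fun C => st a n (-(a : ℤ)) (PIV2_r a C) ∈ J).card =
      X n a (-(a : ℤ)) J h := by
  unfold X
  apply Finset.card_bij (fun C _ => PIV2_r a C)
  · intro C hC
    rw [PIV2_W, mem_filter, mem_filter, mem_powerset] at hC
    obtain ⟨⟨h1, h2⟩, h3⟩ := hC
    obtain ⟨g1, g2, g3⟩ := PIV2_u_spec (Int.natCast_nonneg a) (show ht 0 (a : ℤ) C n ≤ 0 by omega)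
    rw [mem_filter, mem_powerset]
    refine ⟨PIV2_sub h1 g1, ?_, h3⟩
    rw [PIV2_r, PIV2_ht_ge g1 g2, h2]
  · intro C hC D hD hCD
    rw [PIV2_W, mem_filter, mem_filter, mem_powerset] at hC hD
    obtain ⟨⟨h1, h2⟩, h3⟩ := hC
    obtain ⟨⟨h1', h2'⟩, h3'⟩ := hD
    obtain ⟨g1, g2, g3⟩ := PIV2_u_spec (Int.natCast_nonneg a) (show ht 0 (a : ℤ) C n ≤ 0 by omega)
    obtain ⟨g1', g2', g3'⟩ :=
      PIV2_u_spec (Int.natCast_nonneg a) (show ht 0 (a : ℤ) D n ≤ 0 by omega)
    simp only [PIV2_r] at hCD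
    have hu : PIV2_u a C = PIV2_u a D := by
      -- heights of the reflected walk
      have e1 : ∀ i ≤ PIV2_u a C, ht 0 (-(a : ℤ)) (symmDiff C (range (PIV2_u a C))) i =
          - ht 0 a C i := fun i hi => PIV2_ht_le hi
      have e2 : ∀ i ≤ PIV2_u a D, ht 0 (-(a : ℤ)) (symmDiff D (range (PIV2_u a D))) i =
          - ht 0 a D i := fun i hi => PIV2_ht_le hi
      rw [← hCD] at e2
      rcases lt_trichotomy (PIV2_u a C) (PIV2_u a D) with hlt | heq | hgt
      · have e3 := e2 _ hlt.le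
        rw [e1 _ le_rfl, g2] at e3
        have e4 := g3' _ hlt
        omega
      · exact heq
      · have e3 := e1 _ hgt.le
        rw [e2 _ le_rfl, g2'] at e3
        have e4 := g3 _ hgt
        omega
    rw [hu] at hCD
    rw [← PIV2_inv C (PIV2_u a D), hCD, PIV2_inv]
  · intro B hB
    rw [mem_filter, mem_powerset] at hB
    obtain ⟨h1, h2, h3⟩ := hB
    -- a positive status
    have hne : st a n (-(a : ℤ)) B ≠ ∅ := fun h => hJ (h ▸ h3)
    obtain ⟨r, hr⟩ := Finset.nonempty_iff_ne_empty.2 hne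
    rw [st, mem_filter, mem_range, R] at hr
    obtain ⟨hr1, hr2⟩ := hr
    have hrn : a + 1 + 2 * r ≤ n := by omega
    -- first time with height ≥ 0
    have hex : ∃ i, 0 ≤ ht 0 (-(a : ℤ)) B i := ⟨_, hr2.le⟩
    obtain ⟨v, hv1, hv2⟩ : ∃ v, 0 ≤ ht 0 (-(a : ℤ)) B v ∧ ∀ i < v, ht 0 (-(a : ℤ)) B i < 0 :=
      ⟨Nat.find hex, Nat.find_spec hex, fun i hi => not_le.1 (Nat.find_min hex hi)⟩
    have hvn : v ≤ n := by
      by_contra hcon
      push Not at hcon
      have := hv2 (a + 1 + 2 * r) (by omega)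
      omega
    have hv0 : ht 0 (-(a : ℤ)) B v = 0 := by
      rcases Nat.eq_zero_or_pos v with h | h
      · subst h
        rw [ht_self] at hv1 ⊢
        omega
      · obtain ⟨j, rfl⟩ : ∃ j, v = j + 1 := ⟨v - 1, by omega⟩
        have h4 := hv2 j (by omega)
        rcases PIV2_step (-(a : ℤ)) B j with h5 | h5 <;> omega
    have k1 : ∀ i ≤ v, ht 0 (a : ℤ) (symmDiff B (range v)) i = - ht 0 (-(a : ℤ)) B i := by
      intro i hi
      have := PIV2_ht_le (x := -(a : ℤ)) (C := B) hi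
      rwa [neg_neg] at this
    have k2 : ∀ i, v ≤ i → ht 0 (a : ℤ) (symmDiff B (range v)) i = ht 0 (-(a : ℤ)) B i := by
      intro i hi
      have := PIV2_ht_ge (x := -(a : ℤ)) (C := B) hi hv0
      rwa [neg_neg] at this
    have hu : PIV2_u a (symmDiff B (range v)) = v := by
      apply PIV2_u_eq
      · rw [k2 v le_rfl, hv0]
      · intro i hi
        rw [k1 i hi.le]
        have := hv2 i hi
        omega
    have hr : PIV2_r a (symmDiff B (range v)) = B := by
      rw [PIV2_r, hu, PIV2_inv]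
    refine ⟨symmDiff B (range v), ?_, hr⟩
    rw [mem_filter, PIV2_W, mem_filter, mem_powerset]
    refine ⟨⟨PIV2_sub h1 hvn, ?_⟩, ?_⟩
    · rw [k2 n hvn, h2]
    · rw [hr]
      exact h3

/-- PIV2 -/
theorem pivot_Y {n a : ℕ} {J : Set (Finset ℕ)} (hJ : IU (R a n) J) {r0 : ℕ} (h1 : range (r0 + 1) ∈ J)
    (h2 : ∀ i < r0, range (i + 1) ∉ J) {h : ℤ} (hh : h ≤ 0) :
    X n a a (star r0) h + X n a (-(a : ℤ)) J h ≤ X n a a J h + X n a (-(a : ℤ)) (star r0) h := by
  classical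
  have hJ0 : ∅ ∉ J := fun h0 => hJ.int _ h0 _ h0 (by simp)
  have hs0 : (∅ : Finset ℕ) ∉ star r0 := by simp [star]
  have hr0 : r0 < R a n := by
    have := hJ.sub _ h1 (mem_range.2 (Nat.lt_succ_self r0))
    exact mem_range.1 this
  have hX : ∀ K : Set (Finset ℕ), X n a (a : ℤ) K h =
      ((PIV2_W n a h).filter fun C => st a n (a : ℤ) C ∈ K).card := by
    intro K
    unfold X PIV2_W
    rw [Finset.filter_filter]
  rw [hX, hX, ← PIV2_bij hJ0 hh, ← PIV2_bij hs0 hh]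
  simp only [Finset.card_filter]
  rw [← Finset.sum_add_distrib, ← Finset.sum_add_distrib]
  apply Finset.sum_le_sum
  intro C hC
  rw [PIV2_W, mem_filter, mem_powerset] at hC
  obtain ⟨c1, c2⟩ := hC
  obtain ⟨g1, g2, g3⟩ := PIV2_u_spec (Int.natCast_nonneg a) (show ht 0 (a : ℤ) C n ≤ 0 by omega)
  obtain ⟨u, hu⟩ : ∃ u, u = PIV2_u a C := ⟨_, rfl⟩
  have e1 : ∀ i ≤ u, ht 0 (-(a : ℤ)) (PIV2_r a C) i = - ht 0 a C i := by
    intro i hi
    rw [PIV2_r, ← hu]
    exact PIV2_ht_le hi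
  have e2 : ∀ i, u ≤ i → ht 0 (-(a : ℤ)) (PIV2_r a C) i = ht 0 a C i := by
    intro i hi
    rw [PIV2_r, ← hu]
    exact PIV2_ht_ge hi (by rw [hu]; exact g2)
  rw [← hu] at g3
  have hsub : st a n (-(a : ℤ)) (PIV2_r a C) ⊆ st a n (a : ℤ) C := by
    intro r hr
    rw [st, mem_filter] at hr ⊢
    refine ⟨hr.1, ?_⟩
    by_cases hru : a + 1 + 2 * r < u
    · exact g3 _ hru
    · rw [← e2 _ (not_lt.1 hru)]
      exact hr.2
  by_cases hT : a + 1 + 2 * r0 < u
  · have a1 : range (r0 + 1) ⊆ st a n (a : ℤ) C := by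
      intro r hr
      rw [mem_range] at hr
      rw [st, mem_filter, mem_range]
      exact ⟨by omega, g3 _ (by omega)⟩
    have a2 : st a n (a : ℤ) C ∈ J := by
      refine hJ.up _ h1 _ ?_ a1
      exact filter_subset _ _
    have a3 : ∀ r ≤ r0, r ∉ st a n (-(a : ℤ)) (PIV2_r a C) := by
      intro r hr hmem
      rw [st, mem_filter] at hmem
      have h5 := hmem.2
      rw [e1 _ (by omega)] at h5
      have h6 := g3 (a + 1 + 2 * r) (by omega)
      omega
    have a4 : st a n (-(a : ℤ)) (PIV2_r a C) ∉ J := by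
      intro hmem
      apply hJ.int _ h1 _ hmem
      rw [disjoint_left]
      intro r hr
      exact a3 r (Nat.lt_succ_iff.1 (mem_range.1 hr))
    rw [if_pos a2, if_neg a4]
    split_ifs <;> omega
  · have hT' : u ≤ a + 1 + 2 * r0 := not_lt.1 hT
    have b1 : (st a n (a : ℤ) C ∈ star r0) ↔ (st a n (-(a : ℤ)) (PIV2_r a C) ∈ star r0) := by
      change (r0 ∈ st a n (a : ℤ) C) ↔ (r0 ∈ st a n (-(a : ℤ)) (PIV2_r a C))
      rw [st, st, mem_filter, mem_filter, e2 _ hT']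
    have b2 : st a n (-(a : ℤ)) (PIV2_r a C) ∈ J → st a n (a : ℤ) C ∈ J := by
      intro hmem
      exact hJ.up _ hmem _ (filter_subset _ _) hsub
    by_cases c3 : st a n (-(a : ℤ)) (PIV2_r a C) ∈ J
    · rw [if_pos c3, if_pos (b2 c3)]
      by_cases c4 : st a n (a : ℤ) C ∈ star r0
      · rw [if_pos c4, if_pos (b1.1 c4)]
      · rw [if_neg c4, if_neg (fun hc => c4 (b1.2 hc))]
    · rw [if_neg c3]
      by_cases c4 : st a n (a : ℤ) C ∈ star r0
      · rw [if_pos c4, if_pos (b1.1 c4)]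
        split_ifs <;> omega
      · rw [if_neg c4, if_neg (fun hc => c4 (b1.2 hc))]
        split_ifs <;> omega

end Pool.Agent.ProfSR
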