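import Mathlib

/-! # Piece SELECT: one index for all levels

`L` levels, `ρ h` the pivot of level `h` (nonincreasing in `h`), `W h` goes up as long as `0 ≤ E h r` and down afterwards; the set
`{(h,r) : 0 ≤ E h r}` is closed under `r ↦ r-1` and under going to a higher level.
Proof: let `m h` = least `r` with `E h r < 0` or `r + 1 = Rm` (a number `< Rm`); `W h` is monotone on `[0, m h]` and antitone on `[m h, Rm-1]`;
`m` is nondecreasing in `h ∈ L`.  The intervals with the end points `ρ h`, `m h` meet pairwise (by monotonicity of `ρ` and `m`), hence the maximum `r*`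
of their lower end points is in all of them (one-dimensional Helly), and `W h (ρ h) ≤ W h r*`. -/

namespace Pool.Agent.ProfSR
open Finset

theorem select {Rm : ℕ} (hR : 0 < Rm) (L : Finset ℤ) (W E : ℤ → ℕ → ℝ) (ρ : ℤ → ℕ)
    (hρ : ∀ h ∈ L, ρ h < Rm) (hρm : ∀ h ∈ L, ∀ h' ∈ L, h ≤ h' → ρ h' ≤ ρ h)
    (h1 : ∀ h ∈ L, ∀ r, r + 1 < Rm → 0 ≤ E h r → W h r ≤ W h (r + 1))
    (h2 : ∀ h ∈ L, ∀ r, r + 1 < Rm → E h r ≤ 0 → W h (r + 1) ≤ W h r)
    (h3 : ∀ h ∈ L, ∀ r, r + 2 < Rm → 0 ≤ E h (r + 1) → 0 ≤ E h r)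
    (h4 : ∀ h ∈ L, ∀ h' ∈ L, h ≤ h' → ∀ r, r + 1 < Rm → 0 ≤ E h r → 0 ≤ E h' r) :
    ∃ r, r < Rm ∧ ∀ h ∈ L, W h (ρ h) ≤ W h r := by
  classical
  have hex : ∀ h : ℤ, ∃ r, E h r < 0 ∨ r + 1 = Rm := fun h => ⟨Rm - 1, Or.inr (by omega)⟩
  set m : ℤ → ℕ := fun h => Nat.find (hex h) with hm
  have hmspec : ∀ h, E h (m h) < 0 ∨ m h + 1 = Rm := fun h => Nat.find_spec (hex h)
  have hmlt : ∀ h, m h < Rm := by
    intro h
    have : m h ≤ Rm - 1 := Nat.find_min' (hex h) (Or.inr (by omega))
    omega
  have hbelow : ∀ h r, r < m h → 0 ≤ E h r := by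
    intro h r hr
    have := Nat.find_min (hex h) hr
    by_contra hc
    exact this (Or.inl (not_le.1 hc))
  -- below `m h` the function `W h` is increasing
  have hup : ∀ h ∈ L, ∀ r, r ≤ m h → ∀ a, a ≤ r → W h a ≤ W h r := by
    intro h hh r hr a ha
    induction r, ha using Nat.le_induction with
    | base => exact le_rfl
    | succ r har ih =>
      have hlt := hmlt h
      exact (ih (by omega)).trans (h1 h hh r (by omega) (hbelow h r (by omega)))
  -- closure downwards
  have hdown : ∀ h ∈ L, ∀ r, r + 1 < Rm → 0 ≤ E h r → ∀ j, j ≤ r → 0 ≤ E h (r - j) := by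
    intro h hh r hr hE j
    induction j with
    | zero => intro _; simpa using hE
    | succ j ih =>
      intro hj
      have e : r - j = (r - (j + 1)) + 1 := by omega
      have := ih (by omega)
      rw [e] at this
      exact h3 h hh _ (by omega) this
  have habove : ∀ h ∈ L, ∀ r, m h ≤ r → r + 1 < Rm → E h r ≤ 0 := by
    intro h hh r hr hr1
    by_contra hc
    have h5 := hdown h hh r hr1 (not_le.1 hc).le (r - m h) (Nat.sub_le _ _)
    have e : r - (r - m h) = m h := by omega
    rw [e] at h5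
    rcases hmspec h with h6 | h6
    · exact absurd h5 (not_le.2 h6)
    · omega
  have hdn : ∀ h ∈ L, ∀ r, m h ≤ r → ∀ a, r ≤ a → a < Rm → W h a ≤ W h r := by
    intro h hh r hr a ha
    induction a, ha using Nat.le_induction with
    | base => intro _; exact le_rfl
    | succ a har ih =>
      intro haR
      exact (h2 h hh a haR (habove h hh a (by omega) haR)).trans (ih (by omega))
  have hmmono : ∀ h ∈ L, ∀ h' ∈ L, h ≤ h' → m h ≤ m h' := by
    intro h hh h' hh' hle
    by_contra hc
    have hlt := hmlt h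
    have h5 := h4 h hh h' hh' hle (m h') (by omega) (hbelow h _ (not_le.1 hc))
    rcases hmspec h' with h6 | h6
    · exact absurd h5 (not_le.2 h6)
    · omega
  -- the index
  refine ⟨L.sup (fun h => min (ρ h) (m h)), ?_, ?_⟩
  · rw [Finset.sup_lt_iff (by simpa using hR)]
    intro h hh
    exact (min_le_left _ _).trans_lt (hρ h hh)
  · intro h hh
    have hlo : min (ρ h) (m h) ≤ L.sup (fun h => min (ρ h) (m h)) :=
      Finset.le_sup (f := fun h => min (ρ h) (m h)) hh
    have hhi : L.sup (fun h => min (ρ h) (m h)) ≤ max (ρ h) (m h) := by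
      apply Finset.sup_le
      intro h' hh'
      rcases le_total h' h with hle | hle
      · exact (min_le_right _ _).trans ((hmmono h' hh' h hh hle).trans (le_max_right _ _))
      · exact (min_le_left _ _).trans ((hρm h hh h' hh' hle).trans (le_max_left _ _))
    generalize L.sup (fun h => min (ρ h) (m h)) = r at hlo hhi
    rcases le_total (ρ h) (m h) with hc | hc
    · rw [min_eq_left hc] at hlo
      rw [max_eq_right hc] at hhi
      exact hup h hh r hhi _ hlo
    · rw [min_eq_right hc] at hlo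
      rw [max_eq_left hc] at hhi
      exact hdn h hh r hlo _ hhi (hρ h hh)

end Pool.Agent.ProfSR
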