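import Pool.Agent.Lib_MP_05ae4a_co.Defs

/-! # Piece STARDIFF: consecutive stars

`T = a+1+2r`, `m = n - T - 2 = n - a - 2r - 3` (`hr : a + 2r + 4 ≤ n`, i.e. `r + 1 < R a n`).
`p x ε = #{A ⊆ range T : ht 0 x A T = ε}`, `q ε = #{B ⊆ Ico (T+2) n : ht (T+2) ε B n = h}`.
The heights at `T` and `T+2` are odd.  A walk is in `star (r+1)` but not in `star r` iff it has height `-1` at `T` and steps up at `T` and `T+1`
(heights at `T` and `T+2` differ by at most `2`), and in `star r` but not in `star (r+1)` iff it has height `1` at `T` and steps down twice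
(`r, r+1 < R a n`).  Split `A` into `A ∩ range T`, `A ∩ {T, T+1}`, `A ∩ Ico (T+2) n`:
`X n a x (star (r+1)) h + p x 1 * q (-1) = X n a x (star r) h + p x (-1) * q 1`.
Counts: `p (-a) 1 = p a (-1) = C(T, a+r+1)`, `p (-a) (-1) = p a 1 = C(T, a+r)` ... note `ht 0 x A T = x + 2|A| - T`:
`x = -a, ε = 1`: `|A| = a+r+1`; `x = -a, ε = -1`: `|A| = a + r`; `x = a, ε = 1`: `|A| = r+1`, `C(T,r+1) = C(T,a+r)`; `x = a, ε = -1`: `|A| = r`,
`C(T,r) = C(T,a+r+1)`.  `q ε = C(m, k)` if `2k = m + h - ε`, and `0` if there is no such natural `k`; with `2k = m+h+1` (if such `k` exists):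
`q (-1) = C(m,k)`, `q 1 = C(m,k-1)` (`0` if `k = 0`), hence `(m - h + 1) q 1 = (m + h + 1) q (-1)` in all cases.
`(a+r+1) C(T,a+r+1) = (r+1) C(T,a+r)` (`Nat.succ_mul_choose_eq`/`Nat.choose_succ_right_eq`: `T - (a+r) = r+1`).
`star_diff`: with `P = C(T,a+r)`, `Q = q (-1)`: subtract and multiply. -/

namespace Pool.Agent.ProfSR
open Finset

/-- value of the star `r` at the final height `h` for the weights `b` (at `h`) and `b'` (at `-h`) -/
noncomputable def W (n a : ℕ) (b b' : ℝ) (h : ℤ) (r : ℕ) : ℝ :=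
  b * X n a (-(a : ℤ)) (star r) h - b' * X n a a (star r) h

/-- the sign of the difference of consecutive stars -/
def E (n a : ℕ) (b b' : ℝ) (h : ℤ) (r : ℕ) : ℝ :=
  ((n : ℝ) - a - 2 * r - 2) * a * (b + b') + h * (a + 2 * r + 2) * (b - b')

/-- number of walks from `(l, y)` to `(n', h)` -/
noncomputable def sdP (l n' : ℕ) (y h : ℤ) : ℕ :=
  ((Ico l n').powerset.filter (fun B => ht l y B n' = h)).card

theorem sd_ht_sub {l n' : ℕ} {y : ℤ} {B : Finset ℕ} (hB : B ⊆ Ico l n') :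
    ht l y B n' = y + 2 * (B.card : ℤ) - ((n' : ℤ) - l) := by
  rw [ht, inter_eq_left.2 hB]

theorem sdP_eq {l n' : ℕ} {y h : ℤ} {k : ℕ} (hk : y + 2 * (k : ℤ) - ((n' : ℤ) - l) = h) :
    sdP l n' y h = (n' - l).choose k := by
  have h1 : (Ico l n').powerset.filter (fun B => ht l y B n' = h) = powersetCard k (Ico l n') := by
    ext B
    rw [mem_filter, mem_powerset, mem_powersetCard]
    constructor
    · rintro ⟨h1, h2⟩
      rw [sd_ht_sub h1] at h2
      exact ⟨h1, by omega⟩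
    · rintro ⟨h1, h2⟩
      refine ⟨h1, ?_⟩
      rw [sd_ht_sub h1, h2]
      exact hk
  rw [sdP, h1, card_powersetCard, Nat.card_Ico]

theorem sdP_zero {l n' : ℕ} {y h : ℤ} (hk : ∀ k : ℕ, y + 2 * (k : ℤ) - ((n' : ℤ) - l) ≠ h) :
    sdP l n' y h = 0 := by
  rw [sdP, card_eq_zero, filter_eq_empty_iff]
  intro B hB
  rw [mem_powerset] at hB
  rw [sd_ht_sub hB]
  exact hk B.card

theorem sd_card3 (A : Finset ℕ) {i j k : ℕ} (hij : i ≤ j) (hjk : j ≤ k) :
    (A ∩ Ico i k).card = (A ∩ Ico i j).card + (A ∩ Ico j k).card := by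
  rw [← Ico_union_Ico_eq_Ico hij hjk, inter_union_distrib_left, card_union_of_disjoint]
  rw [Finset.disjoint_left]
  intro x hx hx'
  rw [mem_inter, mem_Ico] at hx hx'
  omega

/-- the count with a prescribed middle part -/
theorem sd_prod {n T : ℕ} (hT : T + 2 ≤ n) (x ε h : ℤ) {U : Finset ℕ} (hU : U ⊆ Ico T (T + 2)) :
    ((range n).powerset.filter (fun A => ht 0 x A n = h ∧ ht 0 x A T = ε ∧
      A ∩ Ico T (T + 2) = U)).card =
      sdP 0 T x ε * sdP (T + 2) n (ε + 2 * (U.card : ℤ) - 2) h := by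
  unfold sdP
  rw [← card_product]
  refine Finset.card_bij' (fun A _ => (A ∩ Ico 0 T, A ∩ Ico (T + 2) n))
    (fun C _ => C.1 ∪ (U ∪ C.2)) ?_ ?_ ?_ ?_
  · intro A hA
    rw [mem_filter, mem_powerset] at hA
    obtain ⟨hAn, h1, h2, h3⟩ := hA
    have hAn' : A ⊆ Ico 0 n := by rwa [← range_eq_Ico]
    rw [mem_product, mem_filter, mem_filter, mem_powerset, mem_powerset]
    have e1 := sd_card3 A (Nat.zero_le T) (by omega : T ≤ n)
    have e2 := sd_card3 A (by omega : T ≤ T + 2) hT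
    rw [ht] at h1 h2
    rw [h3] at e2
    refine ⟨⟨inter_subset_right, ?_⟩, ⟨inter_subset_right, ?_⟩⟩
    · show ht 0 x (A ∩ Ico 0 T) T = ε
      rw [sd_ht_sub inter_subset_right]
      exact h2
    · show ht (T + 2) (ε + 2 * (U.card : ℤ) - 2) (A ∩ Ico (T + 2) n) n = h
      rw [sd_ht_sub inter_subset_right]
      push_cast
      omega
  · intro C hC
    rw [mem_product, mem_filter, mem_filter, mem_powerset, mem_powerset] at hC
    obtain ⟨⟨h1, h2⟩, ⟨h3, h4⟩⟩ := hC
    have i1 : (C.1 ∪ (U ∪ C.2)) ∩ Ico 0 T = C.1 := by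
      ext i
      simp only [mem_inter, mem_union, mem_Ico]
      constructor
      · rintro ⟨hi | hi | hi, hi0, hiT⟩
        · exact hi
        · have := mem_Ico.1 (hU hi)
          omega
        · have := mem_Ico.1 (h3 hi)
          omega
      · intro hi
        have := mem_Ico.1 (h1 hi)
        exact ⟨Or.inl hi, by omega, by omega⟩
    have i2 : (C.1 ∪ (U ∪ C.2)) ∩ Ico T (T + 2) = U := by
      ext i
      simp only [mem_inter, mem_union, mem_Ico]
      constructor
      · rintro ⟨hi | hi | hi, hi0, hiT⟩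
        · have := mem_Ico.1 (h1 hi)
          omega
        · exact hi
        · have := mem_Ico.1 (h3 hi)
          omega
      · intro hi
        have := mem_Ico.1 (hU hi)
        exact ⟨Or.inr (Or.inl hi), by omega, by omega⟩
    have i3 : (C.1 ∪ (U ∪ C.2)) ∩ Ico (T + 2) n = C.2 := by
      ext i
      simp only [mem_inter, mem_union, mem_Ico]
      constructor
      · rintro ⟨hi | hi | hi, hi0, hiT⟩
        · have := mem_Ico.1 (h1 hi)
          omega
        · have := mem_Ico.1 (hU hi)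
          omega
        · exact hi
      · intro hi
        have := mem_Ico.1 (h3 hi)
        exact ⟨Or.inr (Or.inr hi), by omega, by omega⟩
    rw [mem_filter, mem_powerset]
    have hsub : C.1 ∪ (U ∪ C.2) ⊆ range n := by
      intro i hi
      rw [mem_union, mem_union] at hi
      rw [mem_range]
      rcases hi with hi | hi | hi
      · have := mem_Ico.1 (h1 hi)
        omega
      · have := mem_Ico.1 (hU hi)
        omega
      · have := mem_Ico.1 (h3 hi)
        omega
    have e1 := sd_card3 (C.1 ∪ (U ∪ C.2)) (Nat.zero_le T) (by omega : T ≤ n)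
    have e2 := sd_card3 (C.1 ∪ (U ∪ C.2)) (by omega : T ≤ T + 2) hT
    rw [i1] at e1
    rw [i2, i3] at e2
    rw [sd_ht_sub h1] at h2
    rw [sd_ht_sub h3] at h4
    push_cast at h4
    refine ⟨hsub, ?_, ?_, i2⟩
    · rw [ht]
      omega
    · rw [ht, i1]
      exact h2
  · intro A hA
    rw [mem_filter, mem_powerset] at hA
    obtain ⟨hAn, h1, h2, h3⟩ := hA
    ext i
    simp only [mem_inter, mem_union, mem_Ico, ← h3]
    constructor
    · rintro (hi | hi | hi)
      · exact hi.1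
      · exact hi.1
      · exact hi.1
    · intro hi
      have := mem_range.1 (hAn hi)
      by_cases c1 : i < T
      · exact Or.inl ⟨hi, by omega, by omega⟩
      · by_cases c2 : i < T + 2
        · exact Or.inr (Or.inl ⟨hi, by omega, by omega⟩)
        · exact Or.inr (Or.inr ⟨hi, by omega, by omega⟩)
  · intro C hC
    rw [mem_product, mem_filter, mem_filter, mem_powerset, mem_powerset] at hC
    obtain ⟨⟨h1, h2⟩, ⟨h3, h4⟩⟩ := hC
    refine Prod.ext ?_ ?_
    · ext i
      simp only [mem_inter, mem_union, mem_Ico]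
      constructor
      · rintro ⟨hi | hi | hi, hi0, hiT⟩
        · exact hi
        · have := mem_Ico.1 (hU hi)
          omega
        · have := mem_Ico.1 (h3 hi)
          omega
      · intro hi
        have := mem_Ico.1 (h1 hi)
        exact ⟨Or.inl hi, by omega, by omega⟩
    · ext i
      simp only [mem_inter, mem_union, mem_Ico]
      constructor
      · rintro ⟨hi | hi | hi, hi0, hiT⟩
        · have := mem_Ico.1 (h1 hi)
          omega
        · have := mem_Ico.1 (hU hi)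
          omega
        · exact hi
      · intro hi
        have := mem_Ico.1 (h3 hi)
        exact ⟨Or.inr (Or.inr hi), by omega, by omega⟩

theorem sd_X {n a r : ℕ} (hr : r < R a n) (x h : ℤ) :
    X n a x (star r) h =
      ((range n).powerset.filter (fun A => ht 0 x A n = h ∧ 0 < ht 0 x A (a + 1 + 2 * r))).card := by
  classical
  unfold X
  congr 1
  ext A
  simp only [mem_filter, mem_powerset, star, st, Set.mem_setOf_eq, mem_range]
  constructor
  · rintro ⟨h1, h2, h3, h4⟩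
    exact ⟨h1, h2, h4⟩
  · rintro ⟨h1, h2, h3⟩
    exact ⟨h1, h2, hr, h3⟩

/-- consecutive stars: the identity -/
theorem sd_step {n a r : ℕ} (hr : a + 2 * r + 4 ≤ n) {x : ℤ} (hx : x = a ∨ x = -(a : ℤ)) (h : ℤ) :
    X n a x (star (r + 1)) h +
        sdP 0 (a + 1 + 2 * r) x 1 * sdP (a + 1 + 2 * r + 2) n (-1) h =
      X n a x (star r) h +
        sdP 0 (a + 1 + 2 * r) x (-1) * sdP (a + 1 + 2 * r + 2) n 1 h := by
  classical
  have hR : R a n = (n - a) / 2 := rfl
  rw [sd_X (by omega : r + 1 < R a n), sd_X (by omega : r < R a n)]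
  have hT : a + 1 + 2 * (r + 1) = a + 1 + 2 * r + 2 := by ring
  rw [hT]
  set T := a + 1 + 2 * r with hTd
  have hTn : T + 2 ≤ n := by omega
  have p1 := sd_prod hTn x 1 h (empty_subset (Ico T (T + 2)))
  have p2 := sd_prod hTn x (-1) h (le_refl (Ico T (T + 2)))
  have c2 : (Ico T (T + 2)).card = 2 := by rw [Nat.card_Ico]; omega
  rw [card_empty] at p1
  rw [c2] at p2
  have e1 : (1 : ℤ) + 2 * ((0 : ℕ) : ℤ) - 2 = -1 := by norm_num
  have e2 : (-1 : ℤ) + 2 * ((2 : ℕ) : ℤ) - 2 = 1 := by norm_num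
  rw [e1] at p1
  rw [e2] at p2
  rw [← p1, ← p2]
  -- parity and range of the heights
  have hfac : ∀ A : Finset ℕ, ht 0 x A (T + 2) = ht 0 x A T + 2 * ((A ∩ Ico T (T + 2)).card : ℤ) - 2 := by
    intro A
    have := sd_card3 A (Nat.zero_le T) (by omega : T ≤ T + 2)
    rw [ht, ht, this]
    push_cast
    ring
  have hodd : ∀ A : Finset ℕ, ∃ z : ℤ, ht 0 x A T = 2 * z + 1 := by
    intro A
    rw [ht]
    rcases hx with hx | hx
    · exact ⟨((A ∩ Ico 0 T).card : ℤ) - r - 1, by rw [hx, hTd]; push_cast; ring⟩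
    · exact ⟨((A ∩ Ico 0 T).card : ℤ) - a - r - 1, by rw [hx, hTd]; push_cast; ring⟩
  have hle : ∀ A : Finset ℕ, (A ∩ Ico T (T + 2)).card ≤ 2 := by
    intro A
    refine (card_le_card inter_subset_right).trans ?_
    rw [c2]
  have hfull : ∀ A : Finset ℕ, (A ∩ Ico T (T + 2)).card = 2 → A ∩ Ico T (T + 2) = Ico T (T + 2) :=
    fun A hA => eq_of_subset_of_card_le inter_subset_right (by rw [hA, c2])
  -- split by the sign at the other time
  have s1 := Finset.card_filter_add_card_filter_not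
    (s := (range n).powerset.filter (fun A => ht 0 x A n = h ∧ 0 < ht 0 x A (T + 2)))
    (fun A => 0 < ht 0 x A T)
  have s2 := Finset.card_filter_add_card_filter_not
    (s := (range n).powerset.filter (fun A => ht 0 x A n = h ∧ 0 < ht 0 x A T))
    (fun A => 0 < ht 0 x A (T + 2))
  rw [filter_filter, filter_filter] at s1 s2
  have t1 : (range n).powerset.filter (fun A => (ht 0 x A n = h ∧ 0 < ht 0 x A (T + 2)) ∧
      0 < ht 0 x A T) = (range n).powerset.filter (fun A => (ht 0 x A n = h ∧ 0 < ht 0 x A T) ∧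
      0 < ht 0 x A (T + 2)) := filter_congr fun A _ => by tauto
  have t2 : (range n).powerset.filter (fun A => (ht 0 x A n = h ∧ 0 < ht 0 x A (T + 2)) ∧
      ¬ 0 < ht 0 x A T) = (range n).powerset.filter (fun A => ht 0 x A n = h ∧ ht 0 x A T = -1 ∧
      A ∩ Ico T (T + 2) = Ico T (T + 2)) := by
    refine filter_congr fun A _ => ?_
    have f1 := hfac A
    obtain ⟨z, hz⟩ := hodd A
    have f2 := hle A
    constructor
    · rintro ⟨⟨g1, g2⟩, g3⟩
      exact ⟨g1, by omega, hfull A (by omega)⟩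
    · rintro ⟨g1, g2, g3⟩
      rw [g3, c2] at f1
      push_cast at f1
      exact ⟨⟨g1, by omega⟩, by omega⟩
  have t3 : (range n).powerset.filter (fun A => (ht 0 x A n = h ∧ 0 < ht 0 x A T) ∧
      ¬ 0 < ht 0 x A (T + 2)) = (range n).powerset.filter (fun A => ht 0 x A n = h ∧
      ht 0 x A T = 1 ∧ A ∩ Ico T (T + 2) = ∅) := by
    refine filter_congr fun A _ => ?_
    have f1 := hfac A
    obtain ⟨z, hz⟩ := hodd A
    have f2 := hle A
    constructor
    · rintro ⟨⟨g1, g2⟩, g3⟩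
      exact ⟨g1, by omega, card_eq_zero.1 (by omega)⟩
    · rintro ⟨g1, g2, g3⟩
      rw [g3, card_empty] at f1
      push_cast at f1
      exact ⟨⟨g1, by omega⟩, by omega⟩
  rw [t1, t2] at s1
  rw [t3] at s2
  omega

/-- ratio of the continuations -/
theorem sd_ratio {l n : ℕ} (hl : l ≤ n) {h : ℤ} (hh : h ≤ 0) :
    ((n : ℝ) - l - h + 1) * (sdP l n 1 h : ℝ) = ((n : ℝ) - l + h + 1) * (sdP l n (-1) h : ℝ) := by
  by_cases hk : ∃ k : ℕ, 2 * (k : ℤ) = (n : ℤ) - l + h + 1
  · obtain ⟨k, hk⟩ := hk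
    have q1 : sdP l n (-1) h = (n - l).choose k := sdP_eq (by omega)
    have hkr : (2 * (k : ℝ)) = (n : ℝ) - l + h + 1 := by exact_mod_cast hk
    rcases Nat.eq_zero_or_pos k with h0 | h0
    · have q2 : sdP l n 1 h = 0 := sdP_zero fun k' => by omega
      rw [q2, ← hkr, h0]
      simp
    · obtain ⟨j, rfl⟩ : ∃ j, k = j + 1 := ⟨k - 1, by omega⟩
      have q2 : sdP l n 1 h = (n - l).choose j := sdP_eq (by omega)
      have h3 := Nat.choose_succ_right_eq (n - l) j
      have h4 : j ≤ n - l := by omega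
      have h5 : (((n - l).choose (j + 1) : ℕ) : ℝ) * ((j : ℝ) + 1) =
          ((n - l).choose j : ℝ) * ((n : ℝ) - l - j) := by
        have h6 : (((n - l).choose (j + 1) * (j + 1) : ℕ) : ℝ) =
            (((n - l).choose j * (n - l - j) : ℕ) : ℝ) := by rw [h3]
        push_cast [Nat.cast_sub h4, Nat.cast_sub hl] at h6
        exact h6
      rw [q1, q2]
      push_cast at hkr
      have h7 : (h : ℝ) = 2 * ((j : ℝ) + 1) - ((n : ℝ) - l) - 1 := by linarith
      rw [h7]
      linarith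
  · have q1 : sdP l n (-1) h = 0 := sdP_zero fun k hk' => hk ⟨k, by omega⟩
    have q2 : sdP l n 1 h = 0 := sdP_zero fun k hk' => hk ⟨k + 1, by push_cast; omega⟩
    rw [q1, q2]
    simp

theorem star_diff {n a r : ℕ} (hr : a + 2 * r + 4 ≤ n) {h : ℤ} (hh : h ≤ 0) (b b' : ℝ) :
    ∃ κ : ℝ, 0 ≤ κ ∧ W n a b b' h (r + 1) - W n a b b' h r = κ * E n a b b' h r := by
  have u1 := sd_step hr (x := -(a : ℤ)) (Or.inr rfl) h
  have u2 := sd_step hr (x := (a : ℤ)) (Or.inl rfl) h
  have T0 : a + 1 + 2 * r - 0 = a + 1 + 2 * r := rfl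
  have p1 : sdP 0 (a + 1 + 2 * r) (-(a : ℤ)) 1 = (a + 1 + 2 * r).choose (a + r + 1) :=
    sdP_eq (by push_cast; ring)
  have p2 : sdP 0 (a + 1 + 2 * r) (-(a : ℤ)) (-1) = (a + 1 + 2 * r).choose (a + r) :=
    sdP_eq (by push_cast; ring)
  have p3 : sdP 0 (a + 1 + 2 * r) (a : ℤ) 1 = (a + 1 + 2 * r).choose (r + 1) :=
    sdP_eq (by push_cast; ring)
  have p4 : sdP 0 (a + 1 + 2 * r) (a : ℤ) (-1) = (a + 1 + 2 * r).choose r :=
    sdP_eq (by push_cast; ring)
  have s3 : (a + 1 + 2 * r).choose (r + 1) = (a + 1 + 2 * r).choose (a + r) :=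
    Nat.choose_symm_of_eq_add (by ring)
  have s4 : (a + 1 + 2 * r).choose r = (a + 1 + 2 * r).choose (a + r + 1) :=
    Nat.choose_symm_of_eq_add (by ring)
  rw [s3] at p3
  rw [s4] at p4
  rw [p1, p2] at u1
  rw [p3, p4] at u2
  have h3 := Nat.choose_succ_right_eq (a + 1 + 2 * r) (a + r)
  have h4 : a + 1 + 2 * r - (a + r) = r + 1 := by omega
  rw [h4] at h3
  have h5 := sd_ratio (by omega : a + 1 + 2 * r + 2 ≤ n) hh
  have hnr : (a : ℝ) + 2 * r + 4 ≤ n := by exact_mod_cast hr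
  have hhr : (h : ℝ) ≤ 0 := by exact_mod_cast hh
  set P : ℕ := (a + 1 + 2 * r).choose (a + r) with hP
  set P' : ℕ := (a + 1 + 2 * r).choose (a + r + 1) with hP'
  set q1 : ℕ := sdP (a + 1 + 2 * r + 2) n 1 h with hq1
  set q : ℕ := sdP (a + 1 + 2 * r + 2) n (-1) h with hq
  have h3' : (P' : ℝ) * ((a : ℝ) + r + 1) = P * ((r : ℝ) + 1) := by exact_mod_cast h3
  have u1' : (X n a (-(a : ℤ)) (star (r + 1)) h : ℝ) + P' * q = X n a (-(a : ℤ)) (star r) h + P * q1 := by
    exact_mod_cast u1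
  have u2' : (X n a (a : ℤ) (star (r + 1)) h : ℝ) + P * q = X n a (a : ℤ) (star r) h + P' * q1 := by
    exact_mod_cast u2
  push_cast at h5
  have d1 : (0 : ℝ) < (a : ℝ) + r + 1 := by positivity
  have d2 : (0 : ℝ) < (n : ℝ) - (a + 1 + 2 * r + 2) - h + 1 := by linarith
  have e1 : (P' : ℝ) = P * ((r : ℝ) + 1) / ((a : ℝ) + r + 1) := by
    rw [eq_div_iff d1.ne']
    exact h3'
  have e2 : (q1 : ℝ) = ((n : ℝ) - (a + 1 + 2 * r + 2) + h + 1) * q /
      ((n : ℝ) - (a + 1 + 2 * r + 2) - h + 1) := by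
    rw [eq_div_iff d2.ne', mul_comm]
    exact h5
  refine ⟨P * q / (((a : ℝ) + r + 1) * ((n : ℝ) - (a + 1 + 2 * r + 2) - h + 1)), by positivity, ?_⟩
  have w : W n a b b' h (r + 1) - W n a b b' h r = b * (P * q1 - P' * q) - b' * (P' * q1 - P * q) := by
    unfold W
    linear_combination b * u1' - b' * u2'
  rw [w, e1, e2, E]
  field_simp
  ring

end Pool.Agent.ProfSR
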