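import Pool.Agent.Lib_MP_05ae4a_co.Frankl
import Pool.Agent.Lib_MP_05ae4a_co.NRec

/-! # Piece START: from a `t`-intersecting family to stage `0`

`bet n a α h` is the weight of the level with final height `h = 2|A| - n - a`.
Proof.  If `t > n` then every member of `F` has `|A ∩ A| ≥ t > n`, so `F = ∅` and `G = ∅` works.  Let `t ≤ n`, `a = t - 1`.
The complements of `F` have unions of size `≤ n - t`; `Pool.Agent.ProfEP.exists_shifted` gives a shifted `H`, `UBd (n-t) H`,
`lev H j = lev (F.image compl) j`, so `∑_{A∈F} α |A| = ∑_{C∈H} α (n - |C|)` (sum over the levels).  For `C ∈ H` let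
`A_C = (Cᶜ).map Fin.valEmbedding ⊆ range n`; `ht 0 (-a) A_C i = -a + 2 (i - |C ∩ [i]|) - i = i - a - 2 |C ∩ [i]|` for `i ≤ n`.
`G = {c | Car n a 0 c ∧ ∃ C ∈ H, ∀ i ≤ n, ht 0 (-a) A_C i ≤ ht 0 c.2.1 c.2.2 i}`.  Up-set: clear.  No conflict: if `c, d ∈ G` conflict with witnesses `C, C'`
then for all `i ≤ n`: `(i - a - 2|C ∩ [i]|) + (i - a - 2|C' ∩ [i]|) ≤ 0`, i.e. `i - a ≤ |C ∩ [i]| + |C' ∩ [i]|`, i.e. `i + 1 ≤ |C∩[i]| + |C'∩[i]| + t`,
against `frankl`.  Value: `V n a β 0 G ≥` the terms `σ = ∅`, `y = -a`, `B = A_C` (`C ∈ H`, injective), `N a (-a) 0 ∅ (-a) = 1` (`N_zero`), and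
`ht 0 (-a) A_C n = 2 (n - |C|) - n - a`, so `bet n a α _ = α (n - |C|)`. -/

namespace Pool.Agent.ProfSR
open Finset

/-- the weight of the final height `h` -/
def bet (n a : ℕ) (α : ℕ → ℝ) (h : ℤ) : ℝ := α ((h + n + a) / 2).toNat

/-- the walk of the complement of `C` -/
private def stA {n : ℕ} (C : Finset (Fin n)) : Finset ℕ := (Cᶜ).map Fin.valEmbedding

private theorem st_sub {n : ℕ} (C : Finset (Fin n)) : stA C ⊆ Ico 0 n := by
  intro x hx
  rw [stA, mem_map] at hx
  obtain ⟨y, -, rfl⟩ := hx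
  rw [mem_Ico]
  exact ⟨Nat.zero_le _, y.2⟩

private theorem st_inj {n : ℕ} : Function.Injective (stA (n := n)) := by
  intro C D h
  have h1 := Finset.map_injective Fin.valEmbedding h
  exact compl_injective h1

private theorem st_card {n : ℕ} (C : Finset (Fin n)) {i : ℕ} (hi : i ≤ n) :
    (stA C ∩ Ico 0 i).card + (C.filter (fun x : Fin n => (x : ℕ) < i)).card = i := by
  classical
  have h1 : stA C ∩ Ico 0 i = ((Cᶜ).filter (fun x : Fin n => (x : ℕ) < i)).map Fin.valEmbedding := by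
    ext x
    simp only [stA, mem_inter, mem_map, mem_filter, mem_Ico]
    constructor
    · rintro ⟨⟨y, hy, rfl⟩, -, h2⟩
      exact ⟨y, ⟨hy, h2⟩, rfl⟩
    · rintro ⟨y, ⟨hy, h2⟩, rfl⟩
      exact ⟨⟨y, hy, rfl⟩, Nat.zero_le _, h2⟩
  rw [h1, card_map]
  have h2 : Disjoint ((Cᶜ).filter (fun x : Fin n => (x : ℕ) < i))
      (C.filter (fun x : Fin n => (x : ℕ) < i)) := by
    rw [Finset.disjoint_left]
    intro z hz hz'
    exact (Finset.mem_compl.1 (Finset.mem_filter.1 hz).1) (Finset.mem_filter.1 hz').1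
  rw [← Finset.card_union_of_disjoint h2, ← Finset.filter_union, Finset.union_comm,
    Finset.union_compl]
  have h3 : ((Finset.univ : Finset (Fin n)).filter (fun x : Fin n => (x : ℕ) < i)).map
      Fin.valEmbedding = range i := by
    ext x
    simp only [mem_map, mem_filter, mem_univ, true_and, mem_range]
    constructor
    · rintro ⟨y, hy, rfl⟩
      exact hy
    · intro hx
      exact ⟨⟨x, by omega⟩, hx, rfl⟩
  have h4 := congrArg Finset.card h3
  rwa [card_map, card_range] at h4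

private theorem st_ht {n : ℕ} (C : Finset (Fin n)) (a : ℕ) {i : ℕ} (hi : i ≤ n) :
    ht 0 (-(a : ℤ)) (stA C) i =
      (i : ℤ) - a - 2 * ((C.filter (fun x : Fin n => (x : ℕ) < i)).card : ℤ) := by
  have h1 := st_card C hi
  have h2 : ((stA C ∩ Ico 0 i).card : ℤ) =
      i - ((C.filter (fun x : Fin n => (x : ℕ) < i)).card : ℤ) := by
    have : (((stA C ∩ Ico 0 i).card + (C.filter (fun x : Fin n => (x : ℕ) < i)).card : ℕ) : ℤ) =
        (i : ℤ) := by rw [h1]
    push_cast at this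
    linarith
  rw [ht, h2]
  push_cast
  ring

private theorem st_sum {n : ℕ} (G : Finset (Finset (Fin n))) (φ : ℕ → ℝ) :
    ∑ C ∈ G, φ C.card = ∑ j ∈ range (n + 1), (Pool.Agent.ProfEP.lev G j : ℝ) * φ j := by
  classical
  have hmaps : ∀ C ∈ G, C.card ∈ range (n + 1) := by
    intro C _
    have := card_le_univ C
    rw [Fintype.card_fin] at this
    exact mem_range.2 (by omega)
  rw [← Finset.sum_fiberwise_of_maps_to hmaps]
  refine Finset.sum_congr rfl fun j _ => ?_
  rw [Pool.Agent.ProfEP.lev]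
  have h1 : ∀ C ∈ G.filter (fun C => C.card = j), φ C.card = φ j := by
    intro C hC
    rw [(mem_filter.1 hC).2]
  rw [Finset.sum_congr rfl h1, Finset.sum_const, nsmul_eq_mul]

theorem start {n t : ℕ} (ht1 : 1 ≤ t) {F : Finset (Finset (Fin n))}
    (hF : ∀ A ∈ F, ∀ B ∈ F, t ≤ (A ∩ B).card) {α : ℕ → ℝ} (hα : ∀ i, 0 ≤ α i) :
    ∃ G, Adm n (t - 1) 0 G ∧ ∑ A ∈ F, α A.card ≤ V n (t - 1) (bet n (t - 1) α) 0 G := by
  classical
  have hbet : ∀ h, 0 ≤ bet n (t - 1) α h := fun h => hα _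
  have hterm : ∀ (G : Set Cls) (σ : Finset ℕ) (y : ℤ) (B : Finset ℕ),
      0 ≤ if (σ, y, B) ∈ G then (N (t - 1) (-((t - 1 : ℕ) : ℤ)) 0 σ y : ℝ) *
        bet n (t - 1) α (ht 0 y B n) else 0 := by
    intro G σ y B
    split_ifs
    · exact mul_nonneg (Nat.cast_nonneg _) (hbet _)
    · exact le_rfl
  by_cases htn : n < t
  · have hF0 : F = ∅ := by
      by_contra hne
      obtain ⟨A, hA⟩ := Finset.nonempty_iff_ne_empty.2 hne
      have h1 := hF A hA A hA
      rw [inter_self] at h1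
      have h2 := card_le_univ A
      rw [Fintype.card_fin] at h2
      omega
    refine ⟨∅, ⟨fun c hc => absurd hc (Set.notMem_empty c), fun c hc => absurd hc (Set.notMem_empty c),
      fun c hc => absurd hc (Set.notMem_empty c)⟩, ?_⟩
    rw [hF0, sum_empty]
    unfold V
    exact sum_nonneg fun σ _ => sum_nonneg fun y _ => sum_nonneg fun B _ => hterm ∅ σ y B
  · have htn' : t ≤ n := by omega
    have hUB : Pool.Agent.ProfEP.UBd (n - t) (F.image compl) := by
      intro A hA B hB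
      obtain ⟨A', hA', rfl⟩ := mem_image.1 hA
      obtain ⟨B', hB', rfl⟩ := mem_image.1 hB
      rw [← compl_inter, card_compl, Fintype.card_fin]
      have := hF A' hA' B' hB'
      omega
    obtain ⟨H, hHS, hHU, hlev⟩ := Pool.Agent.ProfEP.exists_shifted (F.image compl) hUB
    have hsum : ∑ A ∈ F, α A.card = ∑ C ∈ H, α (n - C.card) := by
      have e1 : ∑ A ∈ F, α A.card = ∑ C ∈ F.image compl, α (n - C.card) := by
        rw [sum_image (fun x _ y _ h => compl_injective h)]
        refine sum_congr rfl fun A _ => ?_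
        rw [card_compl, Fintype.card_fin]
        have := card_le_univ A
        rw [Fintype.card_fin] at this
        congr 1
        omega
      rw [e1, st_sum (F.image compl) (fun j => α (n - j)), st_sum H (fun j => α (n - j))]
      refine sum_congr rfl fun j _ => ?_
      rw [hlev]
    refine ⟨{c | Car n (t - 1) 0 c ∧ ∃ C ∈ H, ∀ i ≤ n,
      ht 0 (-((t - 1 : ℕ) : ℤ)) (stA C) i ≤ ht 0 c.2.1 c.2.2 i}, ⟨?_, ?_, ?_⟩, ?_⟩
    · intro c hc
      exact hc.1
    · intro c hc d hd hcd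
      obtain ⟨C, hC, h1⟩ := hc.2
      exact ⟨hd, C, hC, fun i hi => (h1 i hi).trans (hcd.2 i (Nat.zero_le i) hi)⟩
    · intro c hc d hd hconf
      obtain ⟨C, hC, h1⟩ := hc.2
      obtain ⟨D, hD, h2⟩ := hd.2
      obtain ⟨i, hi, h3⟩ := frankl ht1 htn' hHS hHU hC hD
      have h4 := h1 i hi
      have h5 := h2 i hi
      have h6 := hconf.2 i (Nat.zero_le i) hi
      rw [st_ht C (t - 1) hi] at h4
      rw [st_ht D (t - 1) hi] at h5
      have h7 : ((t - 1 : ℕ) : ℤ) = (t : ℤ) - 1 := by omega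
      rw [h7] at h4 h5
      have h8 : (((C.filter (fun x : Fin n => (x : ℕ) < i)).card +
        (D.filter (fun x : Fin n => (x : ℕ) < i)).card + t : ℕ) : ℤ) ≤ (i : ℤ) := by
        exact_mod_cast h3
      push_cast at h8
      linarith
    · set G : Set Cls := {c | Car n (t - 1) 0 c ∧ ∃ C ∈ H, ∀ i ≤ n,
        ht 0 (-((t - 1 : ℕ) : ℤ)) (stA C) i ≤ ht 0 c.2.1 c.2.2 i} with hG
      have hR : R (t - 1) 0 = 0 := by
        unfold R
        simp
      rw [hsum]
      unfold V
      rw [hR, range_zero, powerset_empty, sum_singleton]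
      have hy : (-((t - 1 : ℕ) : ℤ)) ∈ Icc (-((n : ℤ) + ((t - 1 : ℕ) : ℤ) + 2))
          ((n : ℤ) + ((t - 1 : ℕ) : ℤ) + 2) := by
        rw [mem_Icc]
        constructor <;> omega
      refine le_trans ?_ (single_le_sum (fun y _ => sum_nonneg fun B _ => hterm G ∅ y B) hy)
      have hsub : H.image stA ⊆ (Ico 0 n).powerset := by
        intro B hB
        obtain ⟨C, -, rfl⟩ := mem_image.1 hB
        exact mem_powerset.2 (st_sub C)
      refine le_trans ?_ (sum_le_sum_of_subset_of_nonneg hsub fun B _ _ => hterm G ∅ _ B)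
      rw [sum_image (fun x _ y _ h => st_inj h)]
      refine sum_le_sum fun C hC => ?_
      have hmem : ((∅ : Finset ℕ), (-((t - 1 : ℕ) : ℤ)), stA C) ∈ G := by
        refine ⟨⟨empty_subset _, ?_, st_sub C⟩, C, hC, fun i _ => le_rfl⟩
        show Even ((-((t - 1 : ℕ) : ℤ)) + ((t - 1 : ℕ) : ℤ) + ((0 : ℕ) : ℤ))
        simp
      rw [if_pos hmem, N_zero, if_pos rfl, Nat.cast_one, one_mul, st_ht C (t - 1) le_rfl]
      have hfil : C.filter (fun x : Fin n => (x : ℕ) < n) = C :=
        filter_true_of_mem fun x _ => x.2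
      rw [hfil]
      unfold bet
      have hCn : C.card ≤ n := by
        have := card_le_univ C
        rwa [Fintype.card_fin] at this
      apply le_of_eq
      congr 1
      omega

end Pool.Agent.ProfSR
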