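import Pool.Agent.Lib_MP_05ae4a_co.Stage
import Pool.Agent.Lib_MP_05ae4a_co.Start
import Pool.Agent.Lib_MP_05ae4a_co.Final
import Pool.Agent.Lib_MP_05ae4a_co.PivX
import Pool.Agent.Lib_MP_05ae4a_co.PivY
import Pool.Agent.Lib_MP_05ae4a_co.StarDiff
import Pool.Agent.Lib_MP_05ae4a_co.Select
import Pool.Agent.Lib_MP_05ae4a_co.GVal

/-! # MAIN: theorem B -/

namespace Pool.Agent.ProfSR
open Finset

theorem ht_le_end (x : ℤ) (A : Finset ℕ) {i n : ℕ} (hi : i ≤ n) : ht 0 x A i ≤ ht 0 x A n + n - i := by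
  unfold ht
  have h1 : (A ∩ Ico 0 i).card ≤ (A ∩ Ico 0 n).card :=
    card_le_card (inter_subset_inter le_rfl (Ico_subset_Ico le_rfl hi))
  push_cast
  have h2 : ((A ∩ Ico 0 i).card : ℤ) ≤ ((A ∩ Ico 0 n).card : ℤ) := by exact_mod_cast h1
  linarith

theorem X_zero_low {n a : ℕ} {x : ℤ} {J : Set (Finset ℕ)} {h : ℤ} (hJ : (∅ : Finset ℕ) ∉ J)
    (hh : h ≤ (a : ℤ) - n) : X n a x J h = 0 := by
  classical
  unfold X
  rw [card_eq_zero, filter_eq_empty_iff]
  rintro A - ⟨h1, h2⟩
  apply hJ
  have : st a n x A = ∅ := by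
    unfold st
    rw [filter_eq_empty_iff]
    intro r hr h3
    have hr' : a + 1 + 2 * r ≤ n := by
      have := mem_range.1 hr
      unfold R at this
      omega
    have h4 := ht_le_end x A hr'
    rw [h1] at h4
    push_cast at h4
    omega
  rwa [this] at h2

theorem X_parity {n a : ℕ} {x : ℤ} {J : Set (Finset ℕ)} {h : ℤ} (hp : ¬ Even (h - x - n)) : X n a x J h = 0 := by
  classical
  unfold X
  rw [card_eq_zero, filter_eq_empty_iff]
  rintro A - ⟨h1, h2⟩
  apply hp
  have := ht_parity 0 x A n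
  rw [h1] at this
  have e : h - x - n = h - (x + n + (0 : ℕ)) := by push_cast; ring
  rwa [e]

theorem X_none {n a : ℕ} {x : ℤ} {J : Set (Finset ℕ)} {h : ℤ} (hJ : ∀ σ, σ ∉ J) : X n a x J h = 0 := by
  classical
  unfold X
  rw [card_eq_zero, eq_empty_iff_forall_notMem]
  intro A hA
  exact hJ _ (mem_filter.1 hA).2.2

/-- one level: the pivot star is at least as good -/
theorem level_pivot {n a : ℕ} {J : Set (Finset ℕ)} (hJ : IU (R a n) J) {r0 : ℕ} (h1 : range (r0 + 1) ∈ J)
    (h2 : ∀ i < r0, range (i + 1) ∉ J) {h : ℤ} (hh : h ≤ 0) {b b' : ℝ} (hb' : 0 ≤ b') (hb : b' ≤ b) :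
    b * X n a (-(a : ℤ)) J h - b' * X n a a J h ≤ W n a b b' h r0 := by
  have e1 : (X n a (-(a : ℤ)) J h : ℝ) ≤ X n a (-(a : ℤ)) (star r0) h := by
    exact_mod_cast pivot_X hJ h1 h2 hh
  have e2 : (X n a a (star r0) h : ℝ) + X n a (-(a : ℤ)) J h ≤ X n a a J h + X n a (-(a : ℤ)) (star r0) h := by
    exact_mod_cast pivot_Y hJ h1 h2 hh
  unfold W
  nlinarith [mul_le_mul_of_nonneg_left e1 (sub_nonneg.2 hb), mul_le_mul_of_nonneg_left e2 hb']


theorem E_anti {n a r : ℕ} {b b' : ℝ} {h : ℤ} (hb' : 0 ≤ b') (hb : b' ≤ b) (hh : h ≤ 0)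
    (hE : 0 ≤ E n a b b' h (r + 1)) : 0 ≤ E n a b b' h r := by
  have hh' : (h : ℝ) ≤ 0 := by exact_mod_cast hh
  have ha : (0 : ℝ) ≤ a := Nat.cast_nonneg _
  have e : E n a b b' h r = E n a b b' h (r + 1) + 2 * (a * (b + b')) + 2 * ((-h) * (b - b')) := by
    unfold E
    push_cast
    ring
  rw [e]
  have h1 : 0 ≤ a * (b + b') := mul_nonneg ha (by linarith)
  have h2 : 0 ≤ (-(h : ℝ)) * (b - b') := mul_nonneg (by linarith) (by linarith)
  linarith

theorem E_mono {n a r : ℕ} {b b' c c' : ℝ} {h h' : ℤ} (hS : 0 < b + b')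
    (hc : (-(h' : ℝ)) * (c - c') * (b + b') ≤ (-(h : ℝ)) * (b - b') * (c + c'))
    (hS' : 0 ≤ c + c') (hE : 0 ≤ E n a b b' h r) : 0 ≤ E n a c c' h' r := by
  have h1 : 0 ≤ E n a c c' h' r * (b + b') := by
    have e : E n a c c' h' r * (b + b') = E n a b b' h r * (c + c') +
        (a + 2 * r + 2) * ((-(h : ℝ)) * (b - b') * (c + c') - (-(h' : ℝ)) * (c - c') * (b + b')) := by
      unfold E
      ring
    rw [e]
    have h2 : 0 ≤ E n a b b' h r * (c + c') := mul_nonneg hE hS'
    have h3 : (0 : ℝ) ≤ (a : ℝ) + 2 * r + 2 := by positivity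
    have h4 := mul_nonneg h3 (sub_nonneg.2 hc)
    linarith
  by_contra hneg
  have := mul_neg_of_neg_of_pos (not_le.1 hneg) hS
  linarith

/-- the pivot of a family -/
noncomputable def piv (J : Set (Finset ℕ)) : ℕ := sInf {i | range (i + 1) ∈ J}

theorem piv_set_nonempty {m : ℕ} {J : Set (Finset ℕ)} (hJ : IU m J) (hne : J.Nonempty) :
    {i | range (i + 1) ∈ J}.Nonempty := by
  obtain ⟨σ, hσ⟩ := hne
  have h1 : σ.Nonempty := by
    rw [nonempty_iff_ne_empty]
    rintro rfl
    exact hJ.int _ hσ _ hσ (disjoint_empty_left _)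
  obtain ⟨x, hx⟩ := h1
  have h2 : x < m := mem_range.1 (hJ.sub _ hσ hx)
  refine ⟨m - 1, ?_⟩
  show range (m - 1 + 1) ∈ J
  rw [Nat.sub_add_cancel (by omega)]
  exact hJ.up _ hσ _ le_rfl (hJ.sub _ hσ)

theorem piv_mem {m : ℕ} {J : Set (Finset ℕ)} (hJ : IU m J) (hne : J.Nonempty) : range (piv J + 1) ∈ J :=
  Nat.sInf_mem (piv_set_nonempty hJ hne)

theorem piv_min {J : Set (Finset ℕ)} {i : ℕ} (hi : i < piv J) : range (i + 1) ∉ J :=
  fun h => Nat.notMem_of_lt_sInf hi h

theorem piv_lt {m : ℕ} {J : Set (Finset ℕ)} (hJ : IU m J) (hne : J.Nonempty) : piv J < m := by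
  have h1 := hJ.sub _ (piv_mem hJ hne)
  exact mem_range.1 (h1 (mem_range.2 (Nat.lt_succ_self _)))

theorem piv_anti {m : ℕ} {J J' : Set (Finset ℕ)} (hJ : IU m J) (hne : J.Nonempty) (h : J ⊆ J') :
    piv J' ≤ piv J := Nat.sInf_le (h (piv_mem hJ hne))

theorem chain_bound {n a : ℕ} (hR : 0 < R a n) {β : ℤ → ℝ} (hβ : ∀ h, 0 ≤ β h) (J : ℤ → Set (Finset ℕ))
    (hJ : ∀ h, h ≤ 0 → IU (R a n) (J h))
    (hmono : ∀ h h', h ≤ h' → h' ≤ 0 → Even (h' - h) → J h ⊆ J h')
    (C1 : ∀ e : ℕ, 1 ≤ e → e + a + 2 ≤ n → Even (n + a + e) → β e ≤ β (-(e : ℤ)))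
    (C2 : ∀ e e' : ℕ, 1 ≤ e' → e' < e → e + a + 2 ≤ n → Even (n + a + e) → Even (n + a + e') →
      (e' : ℝ) * (β (-(e' : ℤ)) - β e') * (β (-(e : ℤ)) + β e) ≤
        (e : ℝ) * (β (-(e : ℤ)) - β e) * (β (-(e' : ℤ)) + β e')) :
    ∃ r k, r < R a n ∧ 2 * k ≤ n + a + 1 ∧
      β 0 * X n a (-(a : ℤ)) (J 0) 0 +
        ∑ e ∈ Icc 1 (n + a + 2), (β (-(e : ℤ)) * X n a (-(a : ℤ)) (J (-(e : ℤ))) (-(e : ℤ)) +
          β e * ((X n a (-(a : ℤ)) Set.univ e : ℝ) - X n a a (J (-(e : ℤ))) (-(e : ℤ)))) ≤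
      (if 2 * k ≤ n + a then β 0 * X n a (-(a : ℤ)) (star r) 0 else 0) +
      ∑ e ∈ Icc 1 (n + a + 2),
        ((if 2 * k + e ≤ n + a then
          β (-(e : ℤ)) * X n a (-(a : ℤ)) (star r) (-(e : ℤ)) - β e * X n a a (star r) (-(e : ℤ)) else 0) +
          β e * X n a (-(a : ℤ)) Set.univ e) := by
  classical
  have hemp : ∀ h, h ≤ 0 → (∅ : Finset ℕ) ∉ J h := fun h hh hc => (hJ h hh).int _ hc _ hc (disjoint_empty_left _)
  have hemps : ∀ r, (∅ : Finset ℕ) ∉ star r := fun r hc => absurd hc (by simp [star])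
  let P : Finset ℤ := (Icc (-((n : ℤ) + a + 2)) 0).filter (fun h => Even (h + n + a) ∧ (J h).Nonempty)
  -- parity of the right levels
  have hpar : ∀ h : ℤ, ¬ Even (h + n + a) → ∀ K, X n a (-(a : ℤ)) K h = 0 ∧ X n a a K h = 0 := by
    intro h hh K
    refine ⟨X_parity ?_, X_parity ?_⟩
    · intro hc
      apply hh
      have e : h + n + a = (h - -(a : ℤ) - n) + 2 * n := by ring
      rw [e]
      exact hc.add (even_two_mul _)
    · intro hc
      apply hh
      have e : h + n + a = (h - (a : ℤ) - n) + 2 * (n + a) := by ring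
      rw [e]
      exact hc.add (even_two_mul _)
  by_cases hP : P.Nonempty
  · -- main case
    obtain ⟨h0, hh0P, hh0⟩ : ∃ h0 ∈ P, ∀ h ∈ P, h0 ≤ h := ⟨P.min' hP, P.min'_mem hP, fun h hh => P.min'_le h hh⟩
    have hh0' := hh0P
    simp only [P, mem_filter, mem_Icc] at hh0'
    obtain ⟨⟨hl0, hu0⟩, hp0, hne0⟩ := hh0'
    let b' : ℤ → ℝ := fun h => if h = 0 then 0 else β (-h)
    have hb'0 : ∀ h, 0 ≤ b' h := by
      intro h
      simp only [b']
      split_ifs
      · exact le_rfl
      · exact hβ _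
    let L : Finset ℤ := P.filter (fun h => -h + a + 2 ≤ n ∧ 0 < β h + b' h)
    have hLP : ∀ h ∈ L, h ≤ 0 ∧ Even (h + n + a) ∧ (J h).Nonempty ∧ -h + a + 2 ≤ n ∧ 0 < β h + b' h := by
      intro h hh
      simp only [L, P, mem_filter, mem_Icc] at hh
      exact ⟨hh.1.1.2, hh.1.2.1, hh.1.2.2, hh.2.1, hh.2.2⟩
    have hbb : ∀ h ∈ L, b' h ≤ β h := by
      intro h hh
      obtain ⟨h1, h2, h3, h4, h5⟩ := hLP h hh
      simp only [b']
      split_ifs with h6
      · exact hβ _
      · obtain ⟨e, he⟩ : ∃ e : ℕ, h = -(e : ℤ) := ⟨(-h).toNat, by omega⟩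
        subst he
        rw [neg_neg]
        refine C1 e (by omega) (by omega) ?_
        have : ((n + a + e : ℕ) : ℤ) = (-(e : ℤ) + n + a) + 2 * e := by push_cast; ring
        rw [← Int.even_coe_nat, this]
        exact h2.add (even_two_mul _)
    obtain ⟨r, hr, hsel⟩ := select hR L (fun h r => W n a (β h) (b' h) h r) (fun h r => E n a (β h) (b' h) h r)
      (fun h => piv (J h))
      (fun h hh => piv_lt (hJ h (hLP h hh).1) (hLP h hh).2.2.1)
      (fun h hh h' hh' hle => piv_anti (hJ h (hLP h hh).1) (hLP h hh).2.2.1 (hmono h h' hle (hLP h' hh').1 (by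
        have e : h' - h = (h' + n + a) - (h + n + a) := by ring
        rw [e]
        exact (hLP h' hh').2.1.sub (hLP h hh).2.1)))
      (by
        intro h hh r hr hE
        obtain ⟨κ, hκ, he⟩ := star_diff (n := n) (a := a) (r := r) (by unfold R at hr; omega) (hLP h hh).1 (β h) (b' h)
        have := mul_nonneg hκ hE
        linarith)
      (by
        intro h hh r hr hE
        obtain ⟨κ, hκ, he⟩ := star_diff (n := n) (a := a) (r := r) (by unfold R at hr; omega) (hLP h hh).1 (β h) (b' h)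
        have := mul_nonpos_of_nonneg_of_nonpos hκ hE
        linarith)
      (by
        intro h hh r _ hE
        exact E_anti (hb'0 h) (hbb h hh) (hLP h hh).1 hE)
      (by
        intro h hh h' hh' hle r hr hE
        obtain ⟨h1, h2, h3, h4, h5⟩ := hLP h hh
        obtain ⟨h1', h2', h3', h4', h5'⟩ := hLP h' hh'
        rcases eq_or_lt_of_le hle with heq | hlt
        · subst heq
          exact hE
        · refine E_mono h5 ?_ h5'.le hE
          by_cases h0' : h' = 0
          · subst h0'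
            have e1 : 0 ≤ (-(h : ℝ)) * (β h - b' h) * (β 0 + b' 0) := by
              have : (h : ℝ) ≤ 0 := by exact_mod_cast h1
              exact mul_nonneg (mul_nonneg (by linarith) (sub_nonneg.2 (hbb h hh))) h5'.le
            simpa using e1
          · obtain ⟨e, he⟩ : ∃ e : ℕ, h = -(e : ℤ) := ⟨(-h).toNat, by omega⟩
            obtain ⟨e', he'⟩ : ∃ e : ℕ, h' = -(e : ℤ) := ⟨(-h').toNat, by omega⟩
            subst he he'
            have q := C2 e e' (by omega) (by omega) (by omega) (by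
              have : ((n + a + e : ℕ) : ℤ) = (-(e : ℤ) + n + a) + 2 * e := by push_cast; ring
              rw [← Int.even_coe_nat, this]
              exact h2.add (even_two_mul _)) (by
              have : ((n + a + e' : ℕ) : ℤ) = (-(e' : ℤ) + n + a) + 2 * e' := by push_cast; ring
              rw [← Int.even_coe_nat, this]
              exact h2'.add (even_two_mul _))
            have b1 : b' (-(e : ℤ)) = β e := by
              simp only [b']
              rw [if_neg (by omega), neg_neg]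
            have b2 : b' (-(e' : ℤ)) = β e' := by
              simp only [b']
              rw [if_neg (by omega), neg_neg]
            rw [b1, b2]
            push_cast
            linarith)
    refine ⟨r, (((n : ℤ) + a + h0) / 2).toNat, hr, by omega, ?_⟩
    have hk : ∀ e : ℕ, Even ((n : ℤ) + a + e) → e ≤ n + a →
        (2 * (((n : ℤ) + a + h0) / 2).toNat + e ≤ n + a ↔ (e : ℤ) ≤ -h0) := by
      intro e he hea
      obtain ⟨u, hu⟩ := hp0
      obtain ⟨w, hw⟩ := he
      omega
    -- the level inequality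
    have hlev : ∀ h : ℤ, h ≤ 0 → h0 ≤ h → -((n : ℤ) + a + 2) ≤ h → Even (h + n + a) →
        β h * X n a (-(a : ℤ)) (J h) h - b' h * X n a a (J h) h ≤ W n a (β h) (b' h) h r := by
      intro h h1 h2 h3 h4
      have hne : (J h).Nonempty := hne0.mono (hmono h0 h h2 h1 (by
        have e : h - h0 = (h + n + a) - (h0 + n + a) := by ring
        rw [e]
        exact h4.sub hp0))
      by_cases hin : h ∈ L
      · exact (level_pivot (hJ h h1) (piv_mem (hJ h h1) hne) (fun i hi => piv_min hi) h1 (hb'0 h)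
          (hbb h hin)).trans (hsel h hin)
      · have hPh : h ∈ P := by
          simp only [P, mem_filter, mem_Icc]
          exact ⟨⟨h3, h1⟩, h4, hne⟩
        have hor : ¬ (-h + a + 2 ≤ n) ∨ ¬ (0 < β h + b' h) := by
          by_contra hc
          push Not at hc
          exact hin (mem_filter.2 ⟨hPh, hc.1, hc.2⟩)
        rcases hor with hc | hc
        · have hlow : h ≤ (a : ℤ) - n := by
            obtain ⟨u, hu⟩ := h4
            omega
          unfold W
          rw [X_zero_low (hemp h h1) hlow, X_zero_low (hemp h h1) hlow, X_zero_low (hemps r) hlow,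
            X_zero_low (hemps r) hlow]
        · have z1 : β h = 0 := by
            have := hβ h
            have := hb'0 h
            linarith
          have z2 : b' h = 0 := by
            have := hβ h
            have := hb'0 h
            linarith
          unfold W
          rw [z1, z2]
          simp
    refine add_le_add ?_ (sum_le_sum (fun e he => ?_))
    · -- middle level
      by_cases hpz : Even ((0 : ℤ) + n + a)
      · rw [if_pos (by
          have := (hk 0 (by simpa [add_comm, add_left_comm] using hpz) (by omega)).2 (by simpa using hu0)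
          omega)]
        have := hlev 0 le_rfl hu0 (by omega) hpz
        have hb0 : b' 0 = 0 := by simp [b']
        unfold W at this
        rw [hb0] at this
        simpa using this
      · rw [(hpar 0 hpz (J 0)).1]
        split_ifs
        · simp only [Nat.cast_zero, mul_zero]
          exact mul_nonneg (hβ _) (Nat.cast_nonneg _)
        · simp
    · have he1 : 1 ≤ e := (mem_Icc.1 he).1
      have he2 : e ≤ n + a + 2 := (mem_Icc.1 he).2
      by_cases hpe : Even (-(e : ℤ) + n + a)
      · have hpe' : Even ((n : ℤ) + a + e) := by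
          have : (n : ℤ) + a + e = (-(e : ℤ) + n + a) + 2 * e := by ring
          rw [this]
          exact hpe.add (even_two_mul _)
        have hb1 : b' (-(e : ℤ)) = β e := by
          simp only [b']
          rw [if_neg (by omega), neg_neg]
        by_cases hlow : -(e : ℤ) ≤ (a : ℤ) - n
        · rw [X_zero_low (hemp _ (by omega)) hlow, X_zero_low (hemp _ (by omega)) hlow,
            X_zero_low (hemps r) hlow, X_zero_low (hemps r) hlow]
          split_ifs <;> simp
        · have hea : e ≤ n + a := by omega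
          by_cases hle : (e : ℤ) ≤ -h0
          · rw [if_pos ((hk e hpe' hea).2 hle)]
            have := hlev (-(e : ℤ)) (by omega) (by omega) (by omega) hpe
            unfold W at this
            rw [hb1] at this
            linarith
          · rw [if_neg (fun hc => hle ((hk e hpe' hea).1 hc))]
            have hnone : ∀ σ, σ ∉ J (-(e : ℤ)) := by
              intro σ hσ
              have : -(e : ℤ) ∈ P := by
                simp only [P, mem_filter, mem_Icc]
                exact ⟨⟨by omega, by omega⟩, hpe, ⟨σ, hσ⟩⟩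
              have := hh0 _ this
              omega
            rw [X_none hnone, X_none hnone]
            simp
      · rw [(hpar _ hpe (J (-(e : ℤ)))).1, (hpar _ hpe (J (-(e : ℤ)))).2, (hpar _ hpe (star r)).1,
          (hpar _ hpe (star r)).2]
        split_ifs <;> simp
  · -- no level
    have hnone : ∀ h : ℤ, -((n : ℤ) + a + 2) ≤ h → h ≤ 0 → Even (h + n + a) → ∀ σ, σ ∉ J h := by
      intro h h1 h2 h3 σ hσ
      exact hP ⟨h, by
        simp only [P, mem_filter, mem_Icc]
        exact ⟨⟨h1, h2⟩, h3, ⟨σ, hσ⟩⟩⟩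
    have hz : ∀ h : ℤ, -((n : ℤ) + a + 2) ≤ h → h ≤ 0 →
        X n a (-(a : ℤ)) (J h) h = 0 ∧ X n a a (J h) h = 0 := by
      intro h h1 h2
      by_cases h3 : Even (h + n + a)
      · exact ⟨X_none (hnone h h1 h2 h3), X_none (hnone h h1 h2 h3)⟩
      · exact hpar h h3 _
    refine ⟨0, (n + a + 1) / 2, hR, by omega, ?_⟩
    refine add_le_add ?_ (sum_le_sum (fun e he => ?_))
    · rw [(hz 0 (by omega) le_rfl).1]
      split_ifs
      · simp only [Nat.cast_zero, mul_zero]
        exact mul_nonneg (hβ _) (Nat.cast_nonneg _)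
      · simp
    · have he1 : 1 ≤ e := (mem_Icc.1 he).1
      have he2 : e ≤ n + a + 2 := (mem_Icc.1 he).2
      rw [(hz (-(e : ℤ)) (by omega) (by omega)).1, (hz (-(e : ℤ)) (by omega) (by omega)).2,
        if_neg (by omega)]
      simp

end Pool.Agent.ProfSR
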