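import Pool.Agent.Lib_MP_05ae4a_co.Main
import Pool.Agent.Lib_MP_05ae4a_co.Dual

/-! # MAIN: theorem B, assembled -/

namespace Pool.Agent.ProfSR
open Finset

theorem mainB {n t : ℕ} (ht1 : 1 ≤ t) (htn : t ≤ n) {α : ℕ → ℝ} (hα : ∀ i, 0 ≤ α i)
    (C1 : ∀ s, t ≤ s → 2 * s + 1 < n + t → α (n + t - 1 - s) ≤ α s)
    (C2 : ∀ s u, t ≤ s → s < u → 2 * u + 1 < n + t →
      ((n + t - 1 - 2 * u : ℕ) : ℝ) * (α u - α (n + t - 1 - u)) * (α s + α (n + t - 1 - s)) ≤
        ((n + t - 1 - 2 * s : ℕ) : ℝ) * (α s - α (n + t - 1 - s)) * (α u + α (n + t - 1 - u)))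
    {F : Finset (Finset (Fin n))} (hF : ∀ A ∈ F, ∀ B ∈ F, t ≤ (A ∩ B).card) :
    ∃ r k, t + 2 * r ≤ n ∧ 2 * k ≤ n + t ∧ ∑ A ∈ F, α A.card ≤ ∑ A ∈ Gf n t r k, α A.card := by
  classical
  obtain ⟨a, rfl⟩ : ∃ a, t = a + 1 := ⟨t - 1, by omega⟩
  by_cases hR : R a n = 0
  · have hna : n = a + 1 := by unfold R at hR; omega
    subst hna
    refine ⟨0, a + 1, by omega, by omega, ?_⟩
    refine sum_le_sum_of_subset_of_nonneg ?_ (fun A _ _ => hα _)
    intro A hA
    have h1 := hF A hA A hA
    rw [inter_self] at h1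
    have h2 : A = univ := by
      rw [← card_eq_iff_eq_univ, Fintype.card_fin]
      exact le_antisymm ((card_le_univ A).trans (by simp)) h1
    subst h2
    simp only [Gf, mem_filter, mem_univ, true_and]
    left
    have h3 : (univ.filter (fun x : Fin (a + 1) => (x : ℕ) < a + 1 + 2 * 0)) = univ := by
      ext x
      simp only [mem_filter, mem_univ, true_and, iff_true]
      have := x.2
      omega
    rw [h3]
    simp
  · have hR' : 0 < R a n := Nat.pos_of_ne_zero hR
    obtain ⟨G, hG, hGV⟩ := start ht1 hF hα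
    rw [Nat.add_sub_cancel] at hG hGV
    have hβ : ∀ h, 0 ≤ bet n a α h := fun h => hα _
    obtain ⟨G', hG', hGV'⟩ := exists_last hβ hG
    have hlev : ∀ e : ℕ, Even (n + a + e) → ∃ s, n + a = 2 * s + e ∨ n + a < e := by
      intro e he
      obtain ⟨u, hu⟩ := he
      by_cases h : n + a < e
      · exact ⟨0, Or.inr h⟩
      · exact ⟨u - e, by omega⟩
    have hb : ∀ e s : ℕ, n + a = 2 * s + e → bet n a α (-(e : ℤ)) = α s ∧ bet n a α e = α (n + (a + 1) - 1 - s) := by
      intro e s he
      unfold bet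
      refine ⟨congrArg α (by omega), congrArg α (by omega)⟩
    obtain ⟨r, k, hr, hk, hle⟩ := chain_bound hR' hβ (lastJ G') (fun h hh => lastJ_IU hG' hh)
      (fun h h' h1 _ h3 => lastJ_mono hG' h1 h3)
      (by
        intro e he1 he2 he3
        obtain ⟨s, hs⟩ := hlev e he3
        have hs' : n + a = 2 * s + e := by omega
        obtain ⟨b1, b2⟩ := hb e s hs'
        rw [b1, b2]
        exact C1 s (by omega) (by omega))
      (by
        intro e e' he1 he2 he3 he4 he5
        obtain ⟨s, hs⟩ := hlev e he4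
        obtain ⟨u, hu⟩ := hlev e' he5
        have hs' : n + a = 2 * s + e := by omega
        have hu' : n + a = 2 * u + e' := by omega
        obtain ⟨b1, b2⟩ := hb e s hs'
        obtain ⟨b3, b4⟩ := hb e' u hu'
        rw [b1, b2, b3, b4]
        have := C2 s u (by omega) (by omega) (by omega)
        rw [show n + (a + 1) - 1 - 2 * u = e' by omega, show n + (a + 1) - 1 - 2 * s = e by omega] at this
        exact this)
    refine ⟨r, k, by unfold R at hr; omega, by omega, ?_⟩
    rw [Gf_val ht1 (by rwa [Nat.add_sub_cancel]) (by omega) α]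
    simp only [Nat.add_sub_cancel]
    exact (hGV.trans hGV').trans ((final_bound hβ hG').trans hle)

/-- number of members with `s` elements -/
def plev {n : ℕ} (F : Finset (Finset (Fin n))) (s : ℕ) : ℕ := (F.filter (fun A => A.card = s)).card

/-- Frankl's families -/
def Fr (n t r : ℕ) : Finset (Finset (Fin n)) :=
  univ.filter (fun A => t + r ≤ (A.filter (fun x : Fin n => (x : ℕ) < t + 2 * r)).card)

/-- the weight `w` on the sizes `< N` -/
def lw {N : ℕ} (w : Fin N → ℝ) (s : ℕ) : ℝ := if h : s < N then w ⟨s, h⟩ else 0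

theorem lw_sum {n N : ℕ} (w : Fin N → ℝ) (F : Finset (Finset (Fin n))) :
    ∑ A ∈ F, lw w A.card = ∑ i, w i * (plev F i : ℝ) := by
  classical
  have h1 : ∀ A : Finset (Fin n), lw w A.card = ∑ i : Fin N, if A.card = i then w i else 0 := by
    intro A
    unfold lw
    split_ifs with h
    · rw [Finset.sum_eq_single ⟨A.card, h⟩]
      · simp
      · intro b _ hb
        rw [if_neg]
        intro hc
        exact hb (Fin.ext hc.symm)
      · intro hc
        exact absurd (mem_univ _) hc
    · symm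
      refine Finset.sum_eq_zero fun i _ => if_neg ?_
      have := i.2
      omega
  simp_rw [h1]
  rw [Finset.sum_comm]
  refine Finset.sum_congr rfl fun i _ => ?_
  rw [← Finset.sum_filter, Finset.sum_const, nsmul_eq_mul, mul_comm]
  rfl

theorem lower_half {n t : ℕ} (ht1 : 1 ≤ t) (htn : t ≤ n) {F : Finset (Finset (Fin n))}
    (hF : ∀ A ∈ F, ∀ B ∈ F, t ≤ (A ∩ B).card) :
    ∃ c : Fin ((n - t) / 2 + 1) → ℝ, (∀ r, 0 ≤ c r) ∧ ∑ r, c r = 1 ∧
      ∀ s, 2 * s < n + t → (plev F s : ℝ) ≤ ∑ r, c r * (plev (Fr n t r) s : ℝ) := by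
  classical
  have key := dual (ι := Fin ((n + t + 1) / 2)) (κ := Fin ((n - t) / 2 + 1)) (fun i => (plev F i : ℝ))
    (fun r i => (plev (Fr n t r) i : ℝ)) (by
      intro w hw
      have hlw0 : ∀ s, 0 ≤ lw w s := by
        intro s
        unfold lw
        split_ifs
        · exact hw _
        · exact le_rfl
      have hlwz : ∀ s, n + t ≤ 2 * s → lw w s = 0 := by
        intro s hs
        unfold lw
        rw [dif_neg (by omega)]
      obtain ⟨r, k, hr, hk, hle⟩ := mainB ht1 htn hlw0
        (by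
          intro s hs1 hs2
          rw [hlwz _ (by omega)]
          exact hlw0 _)
        (by
          intro s u hs hsu hu
          rw [hlwz (n + t - 1 - u) (by omega), hlwz (n + t - 1 - s) (by omega)]
          simp only [sub_zero, add_zero]
          have h1 : ((n + t - 1 - 2 * u : ℕ) : ℝ) ≤ ((n + t - 1 - 2 * s : ℕ) : ℝ) := by
            exact_mod_cast (by omega : n + t - 1 - 2 * u ≤ n + t - 1 - 2 * s)
          have h2 := mul_le_mul_of_nonneg_right h1 (mul_nonneg (hlw0 u) (hlw0 s))
          calc ((n + t - 1 - 2 * u : ℕ) : ℝ) * lw w u * lw w s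
              = ((n + t - 1 - 2 * u : ℕ) : ℝ) * (lw w u * lw w s) := by ring
            _ ≤ _ := h2
            _ = _ := by ring) hF
      refine ⟨⟨r, by omega⟩, ?_⟩
      rw [← lw_sum w F, ← lw_sum w (Fr n t r)]
      refine hle.trans ?_
      have h3 : ∑ A ∈ Gf n t r k, lw w A.card = ∑ A ∈ (Gf n t r k).filter (fun A => 2 * A.card < n + t), lw w A.card := by
        rw [Finset.sum_filter]
        refine Finset.sum_congr rfl fun A _ => ?_
        split_ifs with h
        · rfl
        · exact hlwz _ (by omega)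
      rw [h3]
      refine sum_le_sum_of_subset_of_nonneg ?_ (fun A _ _ => hlw0 _)
      intro A hA
      rw [mem_filter] at hA
      have h4 := (mem_filter.1 hA.1).2
      refine mem_filter.2 ⟨mem_univ _, ?_⟩
      rcases h4 with h4 | h4
      · exact h4.1
      · omega)
  obtain ⟨c, hc0, hc1, hc⟩ := key
  refine ⟨c, hc0, hc1, ?_⟩
  intro s hs
  exact hc ⟨s, by omega⟩

end Pool.Agent.ProfSR
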