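import Pool.Agent.Lib_MP_05ae4a_co.DecVal

/-! # Piece MERGEP: from stage `l` to stage `l+1` when `l` is not a status time

`R a (l+1) = R a l`.  Take `G1 = {c | Car n a (l+1) c ∧ (c.1, c.2.1 - 1, insert l c.2.2) ∈ G}`.
Up-set: `c ≤ d` at stage `l+1` (`l ∉ c.2.2, d.2.2` by the carrier) gives `(c.1, c.2.1-1, insert l c.2.2) ≤ (d.1, ...)` at stage `l`
(`ht_self` at time `l`, `ht_up` later).  No conflict: the same (heights at time `l`: `y - 1 + y' - 1 ≤ 0`).
Value: `V n a β (l+1) G1` has the terms `[(σ,y,B) ∈ G1] N a (-a) (l+1) σ y β(ht (l+1) y B n)` and by `N_succ`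
`N a (-a) (l+1) σ y = N a (-a) l σ (y-1) + N a (-a) l σ (y+1)` (no `r` with `a+1+2r = l`).  Compare with `V_pair` termwise:
`[(σ,y+1,B) ∈ G] N(y+1) + [(σ,y-1,insert l B) ∈ G] N(y-1) ≤ [(σ,y-1,insert l B) ∈ G] (N(y-1)+N(y+1))`: clear if `(σ,y-1,insert l B) ∈ G` or
`(σ,y+1,B) ∉ G`; otherwise the pair is undecided, so `y = 0` by `hdec`; then `(σ, 1, B) ∈ G` has the carrier parity `Even (1 + a + l)`, and as `l` is
not a status time, `l ≤ a` (if `l > a` and `l + a + 1` even then `l = a + 1 + 2r`), so `N a (-a) l σ 1 = 0` by `N_ne_zero` (`|1 + a| ≤ l` fails).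
If the parity is wrong, i.e. `(σ,y,B)` is not in the carrier of stage `l+1`, then neither class of the pair is in `G`. -/

namespace Pool.Agent.ProfSR
open Finset

private theorem mergep_R {a l : ℕ} (hs : ∀ r, a + 1 + 2 * r ≠ l) : R a (l + 1) = R a l := by
  have h := hs ((l - a - 1) / 2)
  unfold R
  omega

private theorem mergep_notMem {n l : ℕ} {B : Finset ℕ} (hB : B ⊆ Ico (l + 1) n) : l ∉ B := by
  intro h
  have := mem_Ico.1 (hB h)
  omega

private theorem mergep_car {n a l : ℕ} (hl : l < n) (hs : ∀ r, a + 1 + 2 * r ≠ l) {σ : Finset ℕ} {y : ℤ} {B : Finset ℕ}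
    (h : Car n a (l + 1) (σ, y, B)) : Car n a l (σ, y - 1, insert l B) := by
  obtain ⟨h1, h2, h3⟩ := h
  dsimp only at h1 h2 h3
  refine ⟨?_, ?_, ?_⟩
  · show σ ⊆ range (R a l)
    rw [← mergep_R hs]
    exact h1
  · show Even (y - 1 + a + l)
    obtain ⟨k, hk⟩ := h2
    push_cast at hk
    exact ⟨k - 1, by linarith⟩
  · show insert l B ⊆ Ico l n
    intro i hi
    rcases mem_insert.1 hi with rfl | hi
    · exact mem_Ico.2 ⟨le_rfl, hl⟩
    · have := mem_Ico.1 (h3 hi)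
      exact mem_Ico.2 ⟨by omega, this.2⟩

theorem merge_plain {n a l : ℕ} (hl : l < n) (hs : ∀ r, a + 1 + 2 * r ≠ l) {β : ℤ → ℝ} (hβ : ∀ h, 0 ≤ β h)
    {G : Set Cls} (hG : Adm n a l G) (hdec : ∀ σ y B, l ∉ B → y ≠ 0 → ¬ Und l G σ y B) :
    ∃ G1, Adm n a (l + 1) G1 ∧ V n a β l G ≤ V n a β (l + 1) G1 := by
  classical
  refine ⟨{c | Car n a (l + 1) c ∧ (c.1, c.2.1 - 1, insert l c.2.2) ∈ G}, ⟨?_, ?_, ?_⟩, ?_⟩
  · exact fun c hc => hc.1
  · rintro ⟨σ, y, B⟩ ⟨hc1, hc2⟩ ⟨τ, z, B'⟩ hd ⟨h1, h2⟩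
    dsimp only at hc2 h1 h2
    refine ⟨hd, ?_⟩
    dsimp only
    have hlB : l ∉ B := mergep_notMem hc1.2.2
    have hlB' : l ∉ B' := mergep_notMem hd.2.2
    refine hG.up _ hc2 _ (mergep_car hl hs hd) ⟨h1, fun i hi hin => ?_⟩
    dsimp only
    rcases Nat.eq_or_lt_of_le hi with h3 | h3
    · rw [← h3, ht_self, ht_self]
      have h4 := h2 (l + 1) le_rfl hl
      rw [ht_self, ht_self] at h4
      linarith
    · rw [ht_up h3 hlB, ht_up h3 hlB']
      exact h2 i h3 hin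
  · rintro ⟨σ, y, B⟩ ⟨hc1, hc2⟩ ⟨τ, z, B'⟩ ⟨hd1, hd2⟩ ⟨h1, h2⟩
    dsimp only at hc2 hd2 h1 h2
    have hlB : l ∉ B := mergep_notMem hc1.2.2
    have hlB' : l ∉ B' := mergep_notMem hd1.2.2
    refine hG.nc _ hc2 _ hd2 ⟨h1, fun i hi hin => ?_⟩
    dsimp only
    rcases Nat.eq_or_lt_of_le hi with h3 | h3
    · rw [← h3, ht_self, ht_self]
      have h4 := h2 (l + 1) le_rfl hl
      rw [ht_self, ht_self] at h4
      linarith
    · rw [ht_up h3 hlB, ht_up h3 hlB']
      exact h2 i h3 hin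
  · rw [V_pair hl, V, mergep_R hs]
    refine sum_le_sum fun σ hσ => sum_le_sum fun y _ => sum_le_sum fun B hB => ?_
    have hσ' : σ ⊆ range (R a l) := mem_powerset.1 hσ
    have hB' : B ⊆ Ico (l + 1) n := mem_powerset.1 hB
    have hlB : l ∉ B := mergep_notMem hB'
    have hb : 0 ≤ β (ht (l + 1) y B n) := hβ _
    have hN : N a (-(a : ℤ)) (l + 1) σ y = N a (-(a : ℤ)) l σ (y - 1) + N a (-(a : ℤ)) l σ (y + 1) := by
      rw [N_succ, if_pos (fun r hr => absurd hr (hs r)), if_pos (fun r hr => absurd hr (hs r))]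
    by_cases hm : (σ, y - 1, insert l B) ∈ G
    · have hcar := hG.car _ hm
      have hc1 : Car n a (l + 1) (σ, y, B) := by
        refine ⟨?_, ?_, hB'⟩
        · show σ ⊆ range (R a (l + 1))
          rw [mergep_R hs]
          exact hσ'
        · show Even (y + a + ((l + 1 : ℕ) : ℤ))
          obtain ⟨k, hk⟩ := hcar.2.1
          dsimp only at hk
          exact ⟨k + 1, by push_cast; linarith⟩
      have hin : ((σ, y, B) : Cls) ∈ {c : Cls | Car n a (l + 1) c ∧ (c.1, c.2.1 - 1, insert l c.2.2) ∈ G} := ⟨hc1, hm⟩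
      rw [if_pos hm, if_pos hin, hN]
      refine mul_le_mul_of_nonneg_right ?_ hb
      push_cast
      split_ifs
      · linarith
      · have : (0 : ℝ) ≤ (N a (-(a : ℤ)) l σ (y + 1) : ℝ) := Nat.cast_nonneg _
        linarith
    · have hnin : ((σ, y, B) : Cls) ∉ {c : Cls | Car n a (l + 1) c ∧ (c.1, c.2.1 - 1, insert l c.2.2) ∈ G} := fun h => hm h.2
      rw [if_neg hm, if_neg hnin]
      by_cases hp : (σ, y + 1, B) ∈ G
      · have hy : y = 0 := by
          by_contra hy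
          exact hdec σ y B hlB hy ⟨hp, hm⟩
        subst hy
        have hcar := hG.car _ hp
        have hN0 : N a (-(a : ℤ)) l σ (0 + 1) = 0 := by
          by_contra hne
          obtain ⟨h1, h2⟩ := N_ne_zero hne
          have h3 := (abs_le.1 h1).2
          obtain ⟨k, hk⟩ := h2
          refine hs ((l - a - 1) / 2) ?_
          omega
        rw [if_pos hp, hN0]
        simp
      · rw [if_neg hp]
        simp

end Pool.Agent.ProfSR
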