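import Pool.Agent.Lib_MP_05ae4a_co.DecVal

/-! # Piece MERGES: from stage `l` to stage `l+1` at a status time `l = a+1+2r`

`R a l = r`, `R a (l+1) = r + 1`.  With `σ₀ = σ.erase r` take
`G1 = {(σ,y,B) | Car n a (l+1) (σ,y,B) ∧ ((σ₀, y-1, insert l B) ∈ G ∨ (r ∈ σ ∧ 0 ≤ y ∧ (σ₀, y+1, B) ∈ G))}`.
Up-set: clear (both alternatives are preserved: `σ₀ ⊆ τ₀`, `ht_up`, `ht_down`, `ht_self`).
No conflict: let `c = (σ,y,B)`, `d = (τ,y',B')` conflict at stage `l+1`.  Both by the first alternative: the two lower classes conflict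
(heights at `l`: `y-1+y'-1 ≤ 0`).  `c` by the second: `r ∈ σ`, so `r ∉ τ` (disjoint) and `d` is in by the first alternative; `(σ₀,y+1,B)` and
`(τ₀,y'-1,insert l B')` conflict (height at `l`: `y + y' ≤ 0`).
Value.  Split `(range (r+1)).powerset` into `σ` and `insert r σ`, `σ ⊆ range r`.  `N_succ` at the status time `l` (`r' = r` is the only `r'` with
`a+1+2r' = l`): `N (l+1) (insert r σ) y = [0 < y-1] N l σ (y-1) + [0 < y+1] N l σ (y+1)`, `N (l+1) σ y = [y-1 ≤ 0] N l σ (y-1) + [y+1 ≤ 0] N l σ (y+1)`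
(here `N_congr` removes `r` from `insert r σ` at stage `l`).  Compare with `V_pair` for fixed `σ ⊆ range r`, `y`, `B ⊆ Ico (l+1) n`; the parity of the carrier makes
`y` even (otherwise nothing is in `G`).  `y ≥ 2`: `(insert r σ, y, B) ∈ G1` as soon as one of the pair is in `G`, and its count is `N(y-1)+N(y+1)`.
`y = 0`: `N (l+1) (insert r σ) 0 = N l σ 1`, `N (l+1) σ 0 = N l σ (-1)`; `(insert r σ,0,B) ∈ G1` if `(σ,1,B) ∈ G`; `(σ,0,B) ∈ G1` if `(σ,-1,insert l B) ∈ G`.
`y ≤ -2`: only `σ` counts, with `N(y-1)+N(y+1)`; `(σ,y,B) ∈ G1 ↔ (σ,y-1,insert l B) ∈ G`, and `(σ,y+1,B) ∈ G → (σ,y-1,insert l B) ∈ G` by `hdec`. -/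

namespace Pool.Agent.ProfSR
open Finset

/-- the merged family at a status time -/
private def msG (n a l r : ℕ) (G : Set Cls) : Set Cls :=
  {c | Car n a (l + 1) c ∧ ((c.1.erase r, c.2.1 - 1, insert l c.2.2) ∈ G ∨
    (r ∈ c.1 ∧ 0 ≤ c.2.1 ∧ (c.1.erase r, c.2.1 + 1, c.2.2) ∈ G))}

private theorem ms_notMem {n l : ℕ} {B : Finset ℕ} (hB : B ⊆ Ico (l + 1) n) : l ∉ B := by
  intro h
  have := mem_Ico.1 (hB h)
  omega

private theorem ms_R {a l r : ℕ} (hs : a + 1 + 2 * r = l) : R a l = r := by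
  unfold R
  omega

private theorem ms_R1 {a l r : ℕ} (hs : a + 1 + 2 * r = l) : R a (l + 1) = r + 1 := by
  unfold R
  omega

private theorem ms_sub {r : ℕ} {σ : Finset ℕ} (h : σ ⊆ range (r + 1)) : σ.erase r ⊆ range r := by
  intro i hi
  have h1 := mem_erase.1 hi
  have h2 := mem_range.1 (h h1.2)
  exact mem_range.2 (by omega)

private theorem ms_carL {n a l r : ℕ} (hl : l < n) (hs : a + 1 + 2 * r = l) {σ : Finset ℕ} {y : ℤ} {B : Finset ℕ}
    (h : Car n a (l + 1) (σ, y, B)) : Car n a l (σ.erase r, y - 1, insert l B) := by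
  obtain ⟨h1, h2, h3⟩ := h
  dsimp only at h1 h2 h3
  refine ⟨?_, ?_, ?_⟩
  · show σ.erase r ⊆ range (R a l)
    rw [ms_R1 hs] at h1
    rw [ms_R hs]
    exact ms_sub h1
  · show Even (y - 1 + a + l)
    obtain ⟨k, hk⟩ := h2
    push_cast at hk
    exact ⟨k - 1, by linarith⟩
  · show insert l B ⊆ Ico l n
    intro i hi
    rcases mem_insert.1 hi with rfl | hi
    · exact mem_Ico.2 ⟨le_rfl, hl⟩
    · have := mem_Ico.1 (h3 hi)
      exact mem_Ico.2 ⟨by omega, this.2⟩

private theorem ms_carU {n a l r : ℕ} (hs : a + 1 + 2 * r = l) {σ : Finset ℕ} {y : ℤ} {B : Finset ℕ}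
    (h : Car n a (l + 1) (σ, y, B)) : Car n a l (σ.erase r, y + 1, B) := by
  obtain ⟨h1, h2, h3⟩ := h
  dsimp only at h1 h2 h3
  refine ⟨?_, ?_, ?_⟩
  · show σ.erase r ⊆ range (R a l)
    rw [ms_R1 hs] at h1
    rw [ms_R hs]
    exact ms_sub h1
  · show Even (y + 1 + a + l)
    obtain ⟨k, hk⟩ := h2
    push_cast at hk
    exact ⟨k, by linarith⟩
  · show B ⊆ Ico l n
    intro i hi
    have := mem_Ico.1 (h3 hi)
    exact mem_Ico.2 ⟨by omega, this.2⟩

/-- heights of the lower class, at times `≥ l` -/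
private theorem ms_htL {l : ℕ} {y : ℤ} {B : Finset ℕ} (hB : l ∉ B) {i : ℕ} (hi : l ≤ i) :
    (i = l ∧ ht l (y - 1) (insert l B) i = ht (l + 1) y B (l + 1) - 1) ∨
    (l + 1 ≤ i ∧ ht l (y - 1) (insert l B) i = ht (l + 1) y B i) := by
  rcases Nat.eq_or_lt_of_le hi with h3 | h3
  · left
    subst h3
    exact ⟨rfl, by rw [ht_self, ht_self]⟩
  · right
    exact ⟨h3, ht_up h3 hB⟩

/-- heights of the upper class, at times `≥ l` -/
private theorem ms_htU {l : ℕ} {y : ℤ} {B : Finset ℕ} (hB : l ∉ B) {i : ℕ} (hi : l ≤ i) :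
    (i = l ∧ ht l (y + 1) B i = ht (l + 1) y B (l + 1) + 1) ∨
    (l + 1 ≤ i ∧ ht l (y + 1) B i = ht (l + 1) y B i) := by
  rcases Nat.eq_or_lt_of_le hi with h3 | h3
  · left
    subst h3
    exact ⟨rfl, by rw [ht_self, ht_self]⟩
  · right
    exact ⟨h3, ht_down h3 hB⟩

private theorem ms_adm {n a l r : ℕ} (hl : l < n) (hs : a + 1 + 2 * r = l) {G : Set Cls} (hG : Adm n a l G) :
    Adm n a (l + 1) (msG n a l r G) := by
  refine ⟨fun c hc => hc.1, ?_, ?_⟩
  · rintro ⟨σ, y, B⟩ ⟨hc1, hc2⟩ ⟨τ, z, B'⟩ hd ⟨h1, h2⟩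
    dsimp only at hc2 h1 h2
    refine ⟨hd, ?_⟩
    dsimp only
    have hlB : l ∉ B := ms_notMem hc1.2.2
    have hlB' : l ∉ B' := ms_notMem hd.2.2
    have h4 := h2 (l + 1) le_rfl hl
    have hsub : σ.erase r ⊆ τ.erase r := erase_subset_erase r h1
    rcases hc2 with hc2 | ⟨hr, hy, hc2⟩
    · left
      refine hG.up _ hc2 _ (ms_carL hl hs hd) ⟨hsub, fun i hi hin => ?_⟩
      dsimp only
      rcases ms_htL (y := y) hlB hi with ⟨e1, e2⟩ | ⟨e1, e2⟩
      · rcases ms_htL (y := z) hlB' hi with ⟨f1, f2⟩ | ⟨f1, f2⟩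
        · rw [e2, f2]
          linarith
        · omega
      · rcases ms_htL (y := z) hlB' hi with ⟨f1, f2⟩ | ⟨f1, f2⟩
        · omega
        · rw [e2, f2]
          exact h2 i e1 hin
    · right
      refine ⟨h1 hr, ?_, ?_⟩
      · rw [ht_self, ht_self] at h4
        linarith
      · refine hG.up _ hc2 _ (ms_carU hs hd) ⟨hsub, fun i hi hin => ?_⟩
        dsimp only
        rcases ms_htU (y := y) hlB hi with ⟨e1, e2⟩ | ⟨e1, e2⟩
        · rcases ms_htU (y := z) hlB' hi with ⟨f1, f2⟩ | ⟨f1, f2⟩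
          · rw [e2, f2]
            linarith
          · omega
        · rcases ms_htU (y := z) hlB' hi with ⟨f1, f2⟩ | ⟨f1, f2⟩
          · omega
          · rw [e2, f2]
            exact h2 i e1 hin
  · rintro ⟨σ, y, B⟩ ⟨hc1, hc2⟩ ⟨τ, z, B'⟩ ⟨hd1, hd2⟩ ⟨h1, h2⟩
    dsimp only at hc2 hd2 h1 h2
    have hlB : l ∉ B := ms_notMem hc1.2.2
    have hlB' : l ∉ B' := ms_notMem hd1.2.2
    have h4 := h2 (l + 1) le_rfl hl
    have hdis : Disjoint (σ.erase r) (τ.erase r) :=
      disjoint_of_subset_left (erase_subset _ _) (disjoint_of_subset_right (erase_subset _ _) h1)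
    rcases hc2 with hc2 | ⟨hr, hy, hc2⟩
    · rcases hd2 with hd2 | ⟨hr', hz, hd2⟩
      · refine hG.nc _ hc2 _ hd2 ⟨hdis, fun i hi hin => ?_⟩
        dsimp only
        rcases ms_htL (y := y) hlB hi with ⟨e1, e2⟩ | ⟨e1, e2⟩
        · rcases ms_htL (y := z) hlB' hi with ⟨f1, f2⟩ | ⟨f1, f2⟩
          · rw [e2, f2]
            linarith
          · omega
        · rcases ms_htL (y := z) hlB' hi with ⟨f1, f2⟩ | ⟨f1, f2⟩
          · omega
          · rw [e2, f2]
            exact h2 i e1 hin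
      · refine hG.nc _ hc2 _ hd2 ⟨hdis, fun i hi hin => ?_⟩
        dsimp only
        rcases ms_htL (y := y) hlB hi with ⟨e1, e2⟩ | ⟨e1, e2⟩
        · rcases ms_htU (y := z) hlB' hi with ⟨f1, f2⟩ | ⟨f1, f2⟩
          · rw [e2, f2]
            linarith
          · omega
        · rcases ms_htU (y := z) hlB' hi with ⟨f1, f2⟩ | ⟨f1, f2⟩
          · omega
          · rw [e2, f2]
            exact h2 i e1 hin
    · rcases hd2 with hd2 | ⟨hr', hz, hd2⟩
      · refine hG.nc _ hc2 _ hd2 ⟨hdis, fun i hi hin => ?_⟩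
        dsimp only
        rcases ms_htU (y := y) hlB hi with ⟨e1, e2⟩ | ⟨e1, e2⟩
        · rcases ms_htL (y := z) hlB' hi with ⟨f1, f2⟩ | ⟨f1, f2⟩
          · rw [e2, f2]
            linarith
          · omega
        · rcases ms_htL (y := z) hlB' hi with ⟨f1, f2⟩ | ⟨f1, f2⟩
          · omega
          · rw [e2, f2]
            exact h2 i e1 hin
      · exact absurd hr' (disjoint_left.1 h1 hr)

/-- the counts at stage `l+1` for a status vector with last status negative -/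
private theorem ms_N0 {a l r : ℕ} (hs : a + 1 + 2 * r = l) {x : ℤ} {σ : Finset ℕ} (hσ : r ∉ σ) (y : ℤ) :
    N a x (l + 1) σ y = (if y ≤ 1 then N a x l σ (y - 1) else 0) + (if y ≤ -1 then N a x l σ (y + 1) else 0) := by
  classical
  rw [N_succ]
  have e1 : (∀ r', a + 1 + 2 * r' = l → (r' ∈ σ ↔ 0 < y - 1)) ↔ y ≤ 1 := by
    constructor
    · intro h
      by_contra hy
      exact hσ ((h r hs).2 (by omega))
    · intro hy r' hr'
      have : r' = r := by omega
      subst this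
      exact ⟨fun h => absurd h hσ, fun h => by omega⟩
  have e2 : (∀ r', a + 1 + 2 * r' = l → (r' ∈ σ ↔ 0 < y + 1)) ↔ y ≤ -1 := by
    constructor
    · intro h
      by_contra hy
      exact hσ ((h r hs).2 (by omega))
    · intro hy r' hr'
      have : r' = r := by omega
      subst this
      exact ⟨fun h => absurd h hσ, fun h => by omega⟩
  rw [if_congr e1 rfl rfl, if_congr e2 rfl rfl]

/-- the counts at stage `l+1` for a status vector with last status positive -/
private theorem ms_N1 {a l r : ℕ} (hs : a + 1 + 2 * r = l) {x : ℤ} (σ : Finset ℕ) (y : ℤ) :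
    N a x (l + 1) (insert r σ) y = (if 1 < y then N a x l σ (y - 1) else 0) + (if -1 < y then N a x l σ (y + 1) else 0) := by
  classical
  rw [N_succ]
  have hc : ∀ z, N a x l (insert r σ) z = N a x l σ z := by
    intro z
    refine N_congr fun r' hr' => ?_
    rw [mem_insert]
    constructor
    · rintro (h | h)
      · omega
      · exact h
    · exact Or.inr
  rw [hc, hc]
  have e1 : (∀ r', a + 1 + 2 * r' = l → (r' ∈ insert r σ ↔ 0 < y - 1)) ↔ 1 < y := by
    constructor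
    · intro h
      have := (h r hs).1 (mem_insert_self _ _)
      omega
    · intro hy r' hr'
      have : r' = r := by omega
      subst this
      exact ⟨fun _ => by omega, fun _ => mem_insert_self _ _⟩
  have e2 : (∀ r', a + 1 + 2 * r' = l → (r' ∈ insert r σ ↔ 0 < y + 1)) ↔ -1 < y := by
    constructor
    · intro h
      have := (h r hs).1 (mem_insert_self _ _)
      omega
    · intro hy r' hr'
      have : r' = r := by omega
      subst this
      exact ⟨fun _ => by omega, fun _ => mem_insert_self _ _⟩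
  rw [if_congr e1 rfl rfl, if_congr e2 rfl rfl]

open Classical in
/-- the comparison of one pair -/
private theorem ms_term {n a l r : ℕ} (hs : a + 1 + 2 * r = l) {G : Set Cls} (hG : Adm n a l G)
    (hdec : ∀ σ y B, l ∉ B → y ≠ 0 → ¬ Und l G σ y B) {σ : Finset ℕ} (hσ : σ ⊆ range r) (y : ℤ)
    {B : Finset ℕ} (hB : B ⊆ Ico (l + 1) n) {b : ℝ} (hb : 0 ≤ b) :
    ((if (σ, y + 1, B) ∈ G then (N a (-(a : ℤ)) l σ (y + 1) : ℝ) else 0) +
      (if (σ, y - 1, insert l B) ∈ G then (N a (-(a : ℤ)) l σ (y - 1) : ℝ) else 0)) * b ≤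
    (if (σ, y, B) ∈ msG n a l r G then (N a (-(a : ℤ)) (l + 1) σ y : ℝ) * b else 0) +
      (if (insert r σ, y, B) ∈ msG n a l r G then (N a (-(a : ℤ)) (l + 1) (insert r σ) y : ℝ) * b else 0) := by
  have hrσ : r ∉ σ := fun h => by
    have := mem_range.1 (hσ h)
    omega
  have hlB : l ∉ B := ms_notMem hB
  have her : σ.erase r = σ := erase_eq_of_notMem hrσ
  have hei : (insert r σ).erase r = σ := erase_insert hrσ
  have hnn0 : (0 : ℝ) ≤ (if (σ, y, B) ∈ msG n a l r G then (N a (-(a : ℤ)) (l + 1) σ y : ℝ) * b else 0) := by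
    split_ifs
    · exact mul_nonneg (Nat.cast_nonneg _) hb
    · exact le_rfl
  have hnn1 : (0 : ℝ) ≤ (if (insert r σ, y, B) ∈ msG n a l r G then
      (N a (-(a : ℤ)) (l + 1) (insert r σ) y : ℝ) * b else 0) := by
    split_ifs
    · exact mul_nonneg (Nat.cast_nonneg _) hb
    · exact le_rfl
  have hp0 : (0 : ℝ) ≤ (N a (-(a : ℤ)) l σ (y + 1) : ℝ) := Nat.cast_nonneg _
  have hm0 : (0 : ℝ) ≤ (N a (-(a : ℤ)) l σ (y - 1) : ℝ) := Nat.cast_nonneg _
  -- nothing in `G`
  by_cases hnone : (σ, y + 1, B) ∉ G ∧ (σ, y - 1, insert l B) ∉ G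
  · rw [if_neg hnone.1, if_neg hnone.2]
    simp only [add_zero, zero_mul]
    exact add_nonneg hnn0 hnn1
  have hsome : (σ, y + 1, B) ∈ G ∨ (σ, y - 1, insert l B) ∈ G := by
    by_contra h
    push Not at h
    exact hnone h
  have hpar : Even (y + a + ((l + 1 : ℕ) : ℤ)) := by
    rcases hsome with h | h
    · obtain ⟨k, hk⟩ := (hG.car _ h).2.1
      dsimp only at hk
      exact ⟨k, by push_cast; linarith⟩
    · obtain ⟨k, hk⟩ := (hG.car _ h).2.1
      dsimp only at hk
      exact ⟨k + 1, by push_cast; linarith⟩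
  have hye : Even y := by
    obtain ⟨k, hk⟩ := hpar
    refine ⟨k - a - 1 - r, ?_⟩
    have : ((l : ℕ) : ℤ) = a + 1 + 2 * r := by rw [← hs]; push_cast; ring
    push_cast at hk
    rw [this] at hk
    linarith
  have hcar0 : Car n a (l + 1) (σ, y, B) := by
    refine ⟨?_, hpar, hB⟩
    show σ ⊆ range (R a (l + 1))
    rw [ms_R1 hs]
    exact hσ.trans (range_subset_range.2 (by omega))
  have hcar1 : Car n a (l + 1) (insert r σ, y, B) := by
    refine ⟨?_, hpar, hB⟩
    show insert r σ ⊆ range (R a (l + 1))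
    rw [ms_R1 hs]
    intro i hi
    rcases mem_insert.1 hi with rfl | hi
    · exact mem_range.2 (by omega)
    · have := mem_range.1 (hσ hi)
      exact mem_range.2 (by omega)
  have hin0 : (σ, y - 1, insert l B) ∈ G → (σ, y, B) ∈ msG n a l r G := by
    intro h
    refine ⟨hcar0, Or.inl ?_⟩
    show (σ.erase r, y - 1, insert l B) ∈ G
    rw [her]
    exact h
  have hin1 : (σ, y - 1, insert l B) ∈ G → (insert r σ, y, B) ∈ msG n a l r G := by
    intro h
    refine ⟨hcar1, Or.inl ?_⟩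
    show ((insert r σ).erase r, y - 1, insert l B) ∈ G
    rw [hei]
    exact h
  have hin2 : 0 ≤ y → (σ, y + 1, B) ∈ G → (insert r σ, y, B) ∈ msG n a l r G := by
    intro hy h
    refine ⟨hcar1, Or.inr ⟨mem_insert_self _ _, hy, ?_⟩⟩
    show ((insert r σ).erase r, y + 1, B) ∈ G
    rw [hei]
    exact h
  rcases lt_trichotomy y 0 with hy | hy | hy
  · -- `y ≤ -2`
    have hlow : (σ, y - 1, insert l B) ∈ G := by
      rcases hsome with h | h
      · by_contra hcon
        exact hdec σ y B hlB (by omega) ⟨h, hcon⟩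
      · exact h
    have hN : N a (-(a : ℤ)) (l + 1) σ y = N a (-(a : ℤ)) l σ (y - 1) + N a (-(a : ℤ)) l σ (y + 1) := by
      rw [ms_N0 hs hrσ, if_pos (by omega), if_pos (by omega)]
    rw [if_pos hlow, if_pos (hin0 hlow), hN]
    refine le_add_of_le_of_nonneg (mul_le_mul_of_nonneg_right ?_ hb) hnn1
    push_cast
    split_ifs
    · linarith
    · linarith
  · -- `y = 0`
    subst hy
    have hN0 : N a (-(a : ℤ)) (l + 1) σ 0 = N a (-(a : ℤ)) l σ (0 - 1) := by
      rw [ms_N0 hs hrσ, if_pos (by omega), if_neg (by omega)]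
      simp
    have hN1 : N a (-(a : ℤ)) (l + 1) (insert r σ) 0 = N a (-(a : ℤ)) l σ (0 + 1) := by
      rw [ms_N1 hs, if_neg (by omega), if_pos (by omega)]
      simp
    rw [add_mul, add_comm]
    refine add_le_add ?_ ?_
    · by_cases h : (σ, (0 : ℤ) - 1, insert l B) ∈ G
      · rw [if_pos h, if_pos (hin0 h), hN0]
      · rw [if_neg h, zero_mul]
        exact hnn0
    · by_cases h : (σ, (0 : ℤ) + 1, B) ∈ G
      · rw [if_pos h, if_pos (hin2 le_rfl h), hN1]
      · rw [if_neg h, zero_mul]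
        exact hnn1
  · -- `y ≥ 2`
    have hy2 : 2 ≤ y := by
      obtain ⟨k, hk⟩ := hye
      omega
    have hin : (insert r σ, y, B) ∈ msG n a l r G := by
      rcases hsome with h | h
      · exact hin2 (by omega) h
      · exact hin1 h
    have hN : N a (-(a : ℤ)) (l + 1) (insert r σ) y = N a (-(a : ℤ)) l σ (y - 1) + N a (-(a : ℤ)) l σ (y + 1) := by
      rw [ms_N1 hs, if_pos (by omega), if_pos (by omega)]
    rw [if_pos hin, hN]
    refine le_add_of_nonneg_of_le hnn0 (mul_le_mul_of_nonneg_right ?_ hb)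
    push_cast
    split_ifs
    · linarith
    · linarith
    · linarith
    · linarith

theorem merge_status {n a l r : ℕ} (hl : l < n) (hs : a + 1 + 2 * r = l) {β : ℤ → ℝ} (hβ : ∀ h, 0 ≤ β h)
    {G : Set Cls} (hG : Adm n a l G) (hdec : ∀ σ y B, l ∉ B → y ≠ 0 → ¬ Und l G σ y B) :
    ∃ G1, Adm n a (l + 1) G1 ∧ V n a β l G ≤ V n a β (l + 1) G1 := by
  classical
  refine ⟨msG n a l r G, ms_adm hl hs hG, ?_⟩
  rw [V_pair hl, V, ms_R1 hs, ms_R hs, range_add_one, sum_powerset_insert notMem_range_self, ← sum_add_distrib]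
  refine sum_le_sum fun σ hσ => ?_
  rw [← sum_add_distrib]
  refine sum_le_sum fun y _ => ?_
  rw [← sum_add_distrib]
  refine sum_le_sum fun B hB => ?_
  exact ms_term hs hG hdec (mem_powerset.1 hσ) y (mem_powerset.1 hB) (hβ _)

end Pool.Agent.ProfSR
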