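import Pool.Agent.Lib_MP_05ae4a_co.NRec

/-! # Piece NMTP: total positivity of the numbers of walks

Paper proof.  Induction on `l` with `N_zero`, `N_succ` (over the naturals or after casting to `ℝ`).  Write
`A = N a x l σ`, `B = N a x' l σ'`, `C = N a (min x x') l (σ ∩ σ')`, `D = N a (max x x') l (σ ∪ σ')`, restricted at a
status time `l = a+1+2r` by the sign condition of `N_succ` (if the sign condition holds for `(σ,z)` and `(σ',z')`, then it
holds for `(σ ∩ σ', min z z')` and `(σ ∪ σ', max z z')`); call the restricted functions `A', B', C', D'`; the induction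
hypothesis gives `A' z * B' z' ≤ C' (min z z') * D' (max z z')` for all `z z'`.  Claim for the next time:
`(A' (y-1) + A' (y+1)) * (B' (y'-1) + B' (y'+1)) ≤ (C' (m-1) + C' (m+1)) * (D' (M-1) + D' (M+1))`, `m = min y y'`, `M = max y y'`.
If one of the two factors on the left is zero: trivial.  Otherwise (`N_ne_zero`, `hx`) `y - y'` is even.  If `y ≠ y'`, say `y + 2 ≤ y'`
(the other case symmetric): `y + ε ≤ y' + ε'` always, so the four products are bounded termwise.  If `y = y'`: with
`A0 = A' (y-1)`, `A1 = A' (y+1)` etc. we have `A0*B0 ≤ C0*D0`, `A1*B1 ≤ C1*D1`, `A1*B0 ≤ C0*D1`, `A0*B1 ≤ C0*D1` and the claim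
`(A0+A1)*(B0+B1) ≤ (C0+C1)*(D0+D1)` is the two point case of the four functions theorem:
put `P = A0*B0`.. and note `(C0*D1) * (C1*D0) = (C0*D0)*(C1*D1) ≥ (A0*B0)*(A1*B1) = (A1*B0)*(A0*B1)`; with `u = A1*B0`, `v = A0*B1`,
`w = C0*D1`, `z = C1*D0`: `u, v ≤ w`, `u*v ≤ w*z` imply `u + v ≤ w + z` (as `(w-u)*(w-v) ≥ 0` gives `w*(u+v) ≤ w^2 + u*v ≤ w*(w+z)`;
`w = 0` forces `u = v = 0`).  Mathlib has this as `Finset.four_functions_theorem` ingredients too. -/

namespace Pool.Agent.ProfSR
open Finset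

private theorem nmtp_aux {u v w z : ℕ} (h1 : u ≤ w) (h2 : v ≤ w) (h3 : u * v ≤ w * z) :
    u + v ≤ w + z := by
  by_contra hcon
  push Not at hcon
  obtain ⟨p, rfl⟩ := Nat.exists_eq_add_of_le h1
  obtain ⟨q, hq⟩ := Nat.exists_eq_add_of_le h2
  rcases Nat.eq_zero_or_pos (u + p) with h0 | h0
  · have hu : u = 0 := by omega
    have hp : p = 0 := by omega
    have hv : v = 0 := by omega
    subst hu hp hv
    omega
  · have h4 : (u + p) * (u + p + z) < (u + p) * (u + v) := Nat.mul_lt_mul_of_pos_left hcon h0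
    have h5 : (u + p) * (u + v) + p * q = (u + p) * (v + q) + u * v := by
      have : u + p = v + q := hq
      nlinarith [this]
    rw [← hq] at h5
    nlinarith [Nat.zero_le (p * q)]

private theorem nmtp_four {A0 A1 B0 B1 C0 C1 D0 D1 : ℕ} (h00 : A0 * B0 ≤ C0 * D0)
    (h11 : A1 * B1 ≤ C1 * D1) (h10 : A1 * B0 ≤ C0 * D1) (h01 : A0 * B1 ≤ C0 * D1) :
    (A0 + A1) * (B0 + B1) ≤ (C0 + C1) * (D0 + D1) := by
  have h1 : (A1 * B0) * (A0 * B1) ≤ (C0 * D1) * (C1 * D0) := by
    calc (A1 * B0) * (A0 * B1) = (A0 * B0) * (A1 * B1) := by ring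
      _ ≤ (C0 * D0) * (C1 * D1) := Nat.mul_le_mul h00 h11
      _ = (C0 * D1) * (C1 * D0) := by ring
  have h2 := nmtp_aux h10 h01 h1
  calc (A0 + A1) * (B0 + B1) = A0 * B0 + A1 * B1 + (A1 * B0 + A0 * B1) := by ring
    _ ≤ C0 * D0 + C1 * D1 + (C0 * D1 + C1 * D0) := by omega
    _ = (C0 + C1) * (D0 + D1) := by ring

theorem N_mtp (a l : ℕ) (x x' y y' : ℤ) (σ σ' : Finset ℕ) (hx : Even (x - x')) :
    N a x l σ y * N a x' l σ' y' ≤
      N a (min x x') l (σ ∩ σ') (min y y') * N a (max x x') l (σ ∪ σ') (max y y') := by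
  classical
  induction l generalizing y y' with
  | zero =>
    simp only [N_zero]
    by_cases h1 : y = x
    · by_cases h2 : y' = x'
      · subst h1 h2
        simp
      · simp [h2]
    · simp [h1]
  | succ l ih =>
    by_cases h0 : N a x (l + 1) σ y = 0
    · rw [h0, Nat.zero_mul]
      exact Nat.zero_le _
    by_cases h0' : N a x' (l + 1) σ' y' = 0
    · rw [h0', Nat.mul_zero]
      exact Nat.zero_le _
    have hpar : Even (y - y') := by
      have e1 := (N_ne_zero h0).2
      have e2 := (N_ne_zero h0').2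
      have e3 : y - y' = (y - x + ((l + 1 : ℕ) : ℤ)) - (y' - x' + ((l + 1 : ℕ) : ℤ)) + (x - x') := by
        ring
      rw [e3]
      exact (e1.sub e2).add hx
    set A' : ℤ → ℕ := fun z =>
      if (∀ r, a + 1 + 2 * r = l → (r ∈ σ ↔ 0 < z)) then N a x l σ z else 0 with hA'
    set B' : ℤ → ℕ := fun z =>
      if (∀ r, a + 1 + 2 * r = l → (r ∈ σ' ↔ 0 < z)) then N a x' l σ' z else 0 with hB'
    set C' : ℤ → ℕ := fun z =>
      if (∀ r, a + 1 + 2 * r = l → (r ∈ σ ∩ σ' ↔ 0 < z)) then
        N a (min x x') l (σ ∩ σ') z else 0 with hC'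
    set D' : ℤ → ℕ := fun z =>
      if (∀ r, a + 1 + 2 * r = l → (r ∈ σ ∪ σ' ↔ 0 < z)) then
        N a (max x x') l (σ ∪ σ') z else 0 with hD'
    have key : ∀ z z', A' z * B' z' ≤ C' (min z z') * D' (max z z') := by
      intro z z'
      simp only [hA', hB', hC', hD']
      by_cases hz : ∀ r, a + 1 + 2 * r = l → (r ∈ σ ↔ 0 < z)
      · by_cases hz' : ∀ r, a + 1 + 2 * r = l → (r ∈ σ' ↔ 0 < z')
        · have hc : ∀ r, a + 1 + 2 * r = l → (r ∈ σ ∩ σ' ↔ 0 < min z z') := by
            intro r hr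
            rw [mem_inter, lt_min_iff, hz r hr, hz' r hr]
          have hd : ∀ r, a + 1 + 2 * r = l → (r ∈ σ ∪ σ' ↔ 0 < max z z') := by
            intro r hr
            rw [mem_union, lt_max_iff, hz r hr, hz' r hr]
          rw [if_pos hz, if_pos hz', if_pos hc, if_pos hd]
          exact ih z z'
        · rw [if_neg hz', Nat.mul_zero]
          exact Nat.zero_le _
      · rw [if_neg hz, Nat.zero_mul]
        exact Nat.zero_le _
    have eA : N a x (l + 1) σ y = A' (y - 1) + A' (y + 1) := N_succ a x l σ y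
    have eB : N a x' (l + 1) σ' y' = B' (y' - 1) + B' (y' + 1) := N_succ a x' l σ' y'
    have eC : ∀ m, N a (min x x') (l + 1) (σ ∩ σ') m = C' (m - 1) + C' (m + 1) :=
      fun m => N_succ a (min x x') l (σ ∩ σ') m
    have eD : ∀ m, N a (max x x') (l + 1) (σ ∪ σ') m = D' (m - 1) + D' (m + 1) :=
      fun m => N_succ a (max x x') l (σ ∪ σ') m
    rw [eA, eB, eC, eD]
    rcases lt_trichotomy y y' with h | h | h
    · have h2 : y + 2 ≤ y' := by
        obtain ⟨c, hc⟩ := hpar
        omega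
      rw [min_eq_left h.le, max_eq_right h.le]
      have k1 := key (y - 1) (y' - 1)
      have k2 := key (y - 1) (y' + 1)
      have k3 := key (y + 1) (y' - 1)
      have k4 := key (y + 1) (y' + 1)
      rw [min_eq_left (by omega), max_eq_right (by omega)] at k1 k2 k3 k4
      calc (A' (y - 1) + A' (y + 1)) * (B' (y' - 1) + B' (y' + 1))
          = A' (y - 1) * B' (y' - 1) + A' (y - 1) * B' (y' + 1) + A' (y + 1) * B' (y' - 1) +
            A' (y + 1) * B' (y' + 1) := by ring
        _ ≤ C' (y - 1) * D' (y' - 1) + C' (y - 1) * D' (y' + 1) + C' (y + 1) * D' (y' - 1) +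
            C' (y + 1) * D' (y' + 1) := by omega
        _ = (C' (y - 1) + C' (y + 1)) * (D' (y' - 1) + D' (y' + 1)) := by ring
    · subst h
      rw [min_self, max_self]
      have k1 := key (y - 1) (y - 1)
      have k2 := key (y - 1) (y + 1)
      have k3 := key (y + 1) (y - 1)
      have k4 := key (y + 1) (y + 1)
      rw [min_self, max_self] at k1 k4
      rw [min_eq_left (by omega), max_eq_right (by omega)] at k2
      rw [min_eq_right (by omega), max_eq_left (by omega)] at k3
      exact nmtp_four k1 k4 k3 k2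
    · have h2 : y' + 2 ≤ y := by
        obtain ⟨c, hc⟩ := hpar
        omega
      rw [min_eq_right h.le, max_eq_left h.le]
      have k1 := key (y - 1) (y' - 1)
      have k2 := key (y - 1) (y' + 1)
      have k3 := key (y + 1) (y' - 1)
      have k4 := key (y + 1) (y' + 1)
      rw [min_eq_right (by omega), max_eq_left (by omega)] at k1 k2 k3 k4
      calc (A' (y - 1) + A' (y + 1)) * (B' (y' - 1) + B' (y' + 1))
          = A' (y - 1) * B' (y' - 1) + A' (y - 1) * B' (y' + 1) + A' (y + 1) * B' (y' - 1) +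
            A' (y + 1) * B' (y' + 1) := by ring
        _ ≤ C' (y' - 1) * D' (y - 1) + C' (y' + 1) * D' (y - 1) + C' (y' - 1) * D' (y + 1) +
            C' (y' + 1) * D' (y + 1) := by omega
        _ = (C' (y' - 1) + C' (y' + 1)) * (D' (y - 1) + D' (y + 1)) := by ring

end Pool.Agent.ProfSR
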