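import Pool.Agent.Lib_MP_05ae4a_co.Decide
import Pool.Agent.Lib_MP_05ae4a_co.MergeP
import Pool.Agent.Lib_MP_05ae4a_co.MergeS

/-! # Piece STAGE: optimal families exist; induction over the stages

`exists_opt`: `V n a β l G` depends only on the finite set of those `(σ, y, B)` with `σ ∈ (range (R a l)).powerset`,
`y ∈ Icc (-(n+a+2)) (n+a+2)`, `B ∈ (Ico l n).powerset` which are in `G`; hence `{V n a β l G | Adm n a l G}` is a finite set of reals
(image of the powerset of a finite set), nonempty (`∅` is admissible), so it has a maximum.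
`exists_last`: induction on `n - l`: apply `exists_opt`, `exists_decided`, and `merge_plain` or `merge_status`. -/

namespace Pool.Agent.ProfSR
open Finset

theorem exists_opt (n a l : ℕ) (β : ℤ → ℝ) :
    ∃ G, Adm n a l G ∧ ∀ G', Adm n a l G' → V n a β l G' ≤ V n a β l G := by
  classical
  set Ω : Finset Cls := (range (R a l)).powerset ×ˢ
    (Icc (-((n : ℤ) + a + 2)) ((n : ℤ) + a + 2) ×ˢ (Ico l n).powerset) with hΩ
  have key : ∀ G : Set Cls, V n a β l G = V n a β l (↑(Ω.filter (fun c => c ∈ G)) : Set Cls) := by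
    intro G
    unfold V
    refine sum_congr rfl fun σ hσ => sum_congr rfl fun y hy => sum_congr rfl fun B hB => ?_
    have h1 : ((σ, y, B) ∈ (↑(Ω.filter (fun c => c ∈ G)) : Set Cls)) ↔ (σ, y, B) ∈ G := by
      rw [mem_coe, mem_filter]
      refine ⟨fun h => h.2, fun h => ⟨?_, h⟩⟩
      rw [hΩ, mem_product, mem_product]
      exact ⟨hσ, hy, hB⟩
    by_cases h2 : (σ, y, B) ∈ G
    · rw [if_pos h2, if_pos (h1.2 h2)]
    · rw [if_neg h2, if_neg fun h => h2 (h1.1 h)]
  have hfin : (V n a β l '' {G | Adm n a l G}).Finite := by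
    refine Set.Finite.subset
      ((Ω.powerset.finite_toSet).image (fun S : Finset Cls => V n a β l (↑S : Set Cls))) ?_
    rintro _ ⟨G, -, rfl⟩
    refine ⟨Ω.filter (fun c => c ∈ G), ?_, (key G).symm⟩
    rw [mem_coe, mem_powerset]
    exact filter_subset _ _
  have hne : (V n a β l '' {G | Adm n a l G}).Nonempty :=
    ⟨_, ∅, ⟨fun c hc => absurd hc (Set.notMem_empty c), fun c hc => absurd hc (Set.notMem_empty c),
      fun c hc => absurd hc (Set.notMem_empty c)⟩, rfl⟩
  obtain ⟨v, ⟨G, hG, rfl⟩, hmax⟩ := Set.exists_max_image _ id hfin hne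
  exact ⟨G, hG, fun G' hG' => hmax _ ⟨G', hG', rfl⟩⟩

theorem stage_aux {n a : ℕ} {β : ℤ → ℝ} (hβ : ∀ h, 0 ≤ β h) (d : ℕ) :
    ∀ l, l + d = n → ∀ G : Set Cls, Adm n a l G →
      ∃ G', Adm n a n G' ∧ V n a β l G ≤ V n a β n G' := by
  induction d with
  | zero =>
    intro l hl G hG
    have hl' : l = n := by omega
    subst hl'
    exact ⟨G, hG, le_rfl⟩
  | succ d ih =>
    intro l hl G hG
    have hln : l < n := by omega
    obtain ⟨G0, hG0, hopt⟩ := exists_opt n a l β
    obtain ⟨G1, hG1, hV1, hdec⟩ := exists_decided hln hβ hG0 hopt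
    have hm : ∃ G2, Adm n a (l + 1) G2 ∧ V n a β l G1 ≤ V n a β (l + 1) G2 := by
      by_cases hs : ∃ r, a + 1 + 2 * r = l
      · obtain ⟨r, hr⟩ := hs
        exact merge_status hln hr hβ hG1 hdec
      · exact merge_plain hln (fun r hr => hs ⟨r, hr⟩) hβ hG1 hdec
    obtain ⟨G2, hG2, hV2⟩ := hm
    obtain ⟨G3, hG3, hV3⟩ := ih (l + 1) (by omega) G2 hG2
    exact ⟨G3, hG3, (hopt G hG).trans (hV1.trans (hV2.trans hV3))⟩

theorem exists_last {n a : ℕ} {β : ℤ → ℝ} (hβ : ∀ h, 0 ≤ β h) {G : Set Cls} (hG : Adm n a 0 G) :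
    ∃ G', Adm n a n G' ∧ V n a β 0 G ≤ V n a β n G' :=
  stage_aux hβ n 0 (by omega) G hG

end Pool.Agent.ProfSR
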